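import Pool.Agent.Lib.MP_6b2d39_ag.Rc.Final

/-!
ROUND: the theorem with the two families for which no condition on the virtual dimension remains.
-/

open MvPolynomial

namespace Pool.Agent.Lib.MP_6b2d39_ag.Rc

open Pool.Agent.Lib.MP_6b2d39_agCr

/-- general points may be permuted -/
theorem general_perm {h : ℕ} {Q : (Fin h → Fin 3 → ℂ) → Prop} (hQ : General Q)
    (σ : Equiv.Perm (Fin h)) : General (fun P => Q (fun i => P (σ i))) := by
  obtain ⟨Φ, hΦ, hQ⟩ := hQ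
  refine ⟨rename (fun q : Fin h × Fin 3 => (σ q.1, q.2)) Φ, ?_, fun P hP => hQ _ ?_⟩
  · intro h0
    apply hΦ
    refine rename_injective (R := ℂ) (fun q : Fin h × Fin 3 => (σ q.1, q.2)) ?_ ?_
    · rintro ⟨a, b⟩ ⟨a', b'⟩ hab
      simp only [Prod.mk.injEq, EmbeddingLike.apply_eq_iff_eq] at hab
      rw [hab.1, hab.2]
    · rw [h0, map_zero]
  · rw [eval_rename] at hP
    exact hP

theorem curves_perm {h : ℕ} (d : ℕ) (m : Fin h → ℕ) (P : Fin h → Fin 3 → ℂ)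
    (σ : Equiv.Perm (Fin h)) :
    curves d (fun i => m (σ i)) (fun i => P (σ i)) = curves d m P := by
  unfold curves
  congr 1
  exact σ.iInf_comp (g := fun i => ((RingHom.ker (eval (P i))) ^ (m i)).restrictScalars ℂ)

theorem vd_perm {h : ℕ} (d : ℕ) (m : Fin h → ℕ) (σ : Equiv.Perm (Fin h)) :
    vd d (fun i => m (σ i)) = vd d m := by
  unfold vd
  congr 1
  exact Equiv.sum_comp σ (fun i => ((m i + 1).choose 2 : ℤ))

/-- the parity of the difference of the Euler characteristics -/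
theorem EE_mod (a b : ℕ) (c : Fin 5 → ℕ) (n : Fin 4 → ℕ) {κ : ℕ} (hκ : a + b = ∑ j, c j + κ) :
    (8 : ℤ) ∣ EE a b n - 4 * vv a b c n := by
  have hκ' : (a : ℤ) + b = ∑ j, (c j : ℤ) + (κ : ℤ) := by exact_mod_cast hκ
  have hadd := chi_add a b c n hκ'
  have hsub := chi_sub a b c n
  have hL := (L_Mcl a b c n (s := -1) (Or.inr rfl)).1
  have hk : k (Mcl a b c n (-1)) = κ := by
    have h1 : ca (Mcl a b c n (-1)) = a := rfl
    have h2 : cb (Mcl a b c n (-1)) = b := rfl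
    have h3 : ∀ j, cc (Mcl a b c n (-1)) j = c j := fun j => rfl
    unfold k
    simp only [h1, h2, h3]
    linarith
  have h4 := four_dvd (z := Mcl a b c n (-1) + (κ : ℤ) • C0) (hL.add (L_C0.smul _)) (by
    rw [k_add, k_smul, k_C0, hk]
    ring)
  have hBe : B (Mcl a b c n (-1) + (κ : ℤ) • C0) (Mcl a b c n (-1) + (κ : ℤ) • C0) =
      B (Mcl a b c n (-1)) (Mcl a b c n (-1)) + 2 * (κ : ℤ) ^ 2 := by
    rw [B_add_left, B_add_right, B_add_right, B_smul_left, B_smul_left, B_smul_right,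
      B_smul_right, B_C0, B_C0', B_C0, k_C0, hk]
    ring
  rw [hBe] at h4
  obtain ⟨x, hx⟩ := h4
  obtain ⟨y, hy⟩ := Int.even_mul_succ_self ((κ : ℤ) - 1)
  refine ⟨-(1 + x - y), ?_⟩
  have hy' : ((κ : ℤ) - 1) * κ = y + y := by
    rw [← hy]
    ring
  have h5 : B (Mcl a b c n (-1)) (Mcl a b c n (-1)) + 2 * (κ : ℤ) =
      4 * x - 2 * (((κ : ℤ) - 1) * κ) := by
    linear_combination hx
  rw [hy'] at h5
  linear_combination hadd - hsub - 2 * h5

/-- the sign sum -/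
def Es (p q s : ℕ) (n : Fin 4 → ℕ) : ℤ :=
  (-1) ^ n 0 * (2 * n 0 + 1) + (-1) ^ (q + s + n 1) * (2 * n 1 + 1) +
    (-1) ^ (p + s + n 2) * (2 * n 2 + 1) + (-1) ^ (p + q + n 3) * (2 * n 3 + 1)

theorem Es_eq (p q s : ℕ) (n : Fin 4 → ℕ) : EE (p + s) (q + s) n = Es p q s n := by
  unfold EE Es
  rw [Fin.sum_univ_four]
  have e0 : ep (p + s) (q + s) 0 = 1 := rfl
  have e1 : ep (p + s) (q + s) 1 = (-1) ^ (q + s) := rfl
  have e2 : ep (p + s) (q + s) 2 = (-1) ^ (p + s) := rfl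
  have e3 : ep (p + s) (q + s) 3 = (-1) ^ (p + q) := by
    have h : ep (p + s) (q + s) 3 = (-1) ^ ((p + s) + (q + s)) := rfl
    rw [h, show (p + s) + (q + s) = (p + q) + 2 * s by ring, pow_add, pow_mul, neg_one_sq,
      one_pow, mul_one]
  rw [e0, e1, e2, e3, one_mul, ← pow_add, ← pow_add, ← pow_add]

theorem Es_mod (p q s : ℕ) (c n : Fin 4 → ℕ) {κ : ℕ} (hκ : p + q + s = ∑ j, c j + κ) :
    (8 : ℤ) ∣ Es p q s n - 4 * vd (p + q + s) (mm p q s c n) := by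
  rw [← Es_eq, vd_eq]
  refine EE_mod (p + s) (q + s) (Fin.cons s c) n (κ := κ) ?_
  rw [Fin.sum_univ_succ]
  simp only [Fin.cons_zero, Fin.cons_succ]
  omega

private theorem mm_nat (p q s : ℕ) (c n : Fin 4 → ℕ) (l : Fin 4) :
    mm p q s c n (Fin.natAdd 11 l) = n l := by
  fin_cases l <;> rfl

private theorem mm_cast_eq (p q s : ℕ) (c n : Fin 4 → ℕ) (l : Fin 11) :
    mm p q s c n (Fin.castAdd 4 l) =
      (![p, q, s, c 0, c 0, c 1, c 1, c 2, c 2, c 3, c 3] : Fin 11 → ℕ) l := by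
  fin_cases l <;> rfl

private theorem mm_cast (p q s : ℕ) (c n n' : Fin 4 → ℕ) (l : Fin 11) :
    mm p q s c n (Fin.castAdd 4 l) = mm p q s c n' (Fin.castAdd 4 l) := by
  rw [mm_cast_eq, mm_cast_eq]

theorem exists_perm (p q s : ℕ) (c n : Fin 4 → ℕ) (i j : Fin 4) :
    ∃ σ : Equiv.Perm (Fin (11 + 4)), ∀ l : Fin (11 + 4),
      mm p q s c (fun l => n (Equiv.swap i j l)) l = mm p q s c n (σ l) := by
  have hτ : Function.Injective (Fin.natAdd 11 : Fin 4 → Fin (11 + 4)) := Fin.natAdd_injective 4 11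
  refine ⟨Equiv.swap (Fin.natAdd 11 i) (Fin.natAdd 11 j), fun l => ?_⟩
  refine Fin.addCases (fun l => ?_) (fun l => ?_) l
  · have hne : ∀ x : Fin 4, (Fin.castAdd 4 l : Fin (11 + 4)) ≠ Fin.natAdd 11 x := by
      intro x hx
      have h2 := congrArg Fin.val hx
      rw [Fin.val_castAdd, Fin.val_natAdd] at h2
      omega
    rw [Equiv.swap_apply_of_ne_of_ne (hne i) (hne j)]
    exact mm_cast _ _ _ _ _ _ _
  · rw [hτ.swap_apply i j l, mm_nat, mm_nat]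

/-- the multiplicities dominated by a system -/
def Dom {h : ℕ} (d : ℕ) (M m : Fin h → ℕ) : Prop :=
  (0 ≤ vd d M ∧ ∀ i, m i ≤ M i) ∨ (vd d M ≤ 0 ∧ ∀ i, M i ≤ m i)

/-- nonspecial for general points -/
def Nsp {h : ℕ} (d : ℕ) (m : Fin h → ℕ) : Prop :=
  General (fun P => (Module.finrank ℂ (curves d m P) : ℤ) = max (vd d m) 0)

theorem nsp_perm {h : ℕ} {d : ℕ} {m : Fin h → ℕ} (σ : Equiv.Perm (Fin h))
    (H : Nsp d (fun i => m (σ i))) : Nsp d m := by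
  obtain ⟨Φ, hΦ, hQ⟩ := general_perm H σ
  refine ⟨Φ, hΦ, fun P hP => ?_⟩
  have h3 : (Module.finrank ℂ (curves d (fun i => m (σ i)) (fun i => P (σ i))) : ℤ) =
    max (vd d (fun i => m (σ i))) 0 := hQ P hP
  rw [vd_perm, curves_perm] at h3
  exact h3

theorem dom_perm {h : ℕ} {d : ℕ} {M M' : Fin h → ℕ} (σ : Equiv.Perm (Fin h))
    (hσ : ∀ l, M' l = M (σ l)) (H : ∀ m, Dom d M' m → Nsp d m) (m : Fin h → ℕ) (hm : Dom d M m) :
    Nsp d m := by
  obtain rfl : M' = fun l => M (σ l) := funext hσ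
  refine nsp_perm σ (H _ ?_)
  unfold Dom
  rw [vd_perm]
  rcases hm with ⟨h1, h2⟩ | ⟨h1, h2⟩
  · exact Or.inl ⟨h1, fun l => h2 _⟩
  · exact Or.inr ⟨h1, fun l => h2 _⟩

/-- the theorem for one order of the last four multiplicities implies it for another -/
theorem round_swap {d : ℕ} (p q s : ℕ) (c n : Fin 4 → ℕ) (i j : Fin 4)
    (h : ∀ m, Dom d (mm p q s c (fun l => n (Equiv.swap i j l))) m → Nsp d m) (m : Fin 15 → ℕ)
    (hm : Dom d (mm p q s c n) m) : Nsp d m := by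
  obtain ⟨σ, hσ⟩ := exists_perm p q s c n i j
  exact dom_perm (h := 15) σ hσ h m hm

theorem vd_swap {d : ℕ} (p q s : ℕ) (c n : Fin 4 → ℕ) (i j : Fin 4) :
    vd d (mm p q s c (fun l => n (Equiv.swap i j l))) = vd d (mm p q s c n) := by
  obtain ⟨σ, hσ⟩ := exists_perm p q s c n i j
  have h1 : mm p q s c (fun l => n (Equiv.swap i j l)) = fun l => mm p q s c n (σ l) := funext hσ
  rw [h1]
  exact vd_perm (h := 15) d (mm p q s c n) σ

theorem round_dom (p q s : ℕ) (c n : Fin 4 → ℕ) {κ : ℕ} (hκ : p + q + s = ∑ j, c j + κ)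
    (hκ2 : κ ≤ 2) (h1 : |Es p q s n| ≤ 4 * |vd (p + q + s) (mm p q s c n)|)
    (h2 : κ = 2 → |Es p q s n| = 4 * |vd (p + q + s) (mm p q s c n)| → ∀ g : ℕ, g ∣ p + 2 →
      g ∣ q + 2 → g ∣ s + 2 → (∀ j, g ∣ c j + 2) →
      (∃ e : ℤ, (e = 1 ∨ e = -1) ∧ ∀ i, (g : ℤ) ∣ up (p + s) (q + s) e n i) → g = 1)
    (m : Fin 15 → ℕ) (hm : Dom (p + q + s) (mm p q s c n) m) : Nsp (p + q + s) m :=
  round_main p q s c n hκ hκ2 rfl rfl h1 h2 m hm

/-- if the sign sum is small then it is not larger than four times the virtual dimension -/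
theorem round_small (p q s : ℕ) (c n : Fin 4 → ℕ) {κ : ℕ} (hκ : p + q + s = ∑ j, c j + κ)
    (hκ2 : κ ≤ 2) (h1 : |Es p q s n| ≤ 4)
    (h2 : κ = 2 → |vd (p + q + s) (mm p q s c n)| ≤ 1 → ∀ g : ℕ, g ∣ p + 2 →
      g ∣ q + 2 → g ∣ s + 2 → (∀ j, g ∣ c j + 2) →
      (∃ e : ℤ, (e = 1 ∨ e = -1) ∧ ∀ i, (g : ℤ) ∣ up (p + s) (q + s) e n i) → g = 1)
    (m : Fin 15 → ℕ) (hm : Dom (p + q + s) (mm p q s c n) m) : Nsp (p + q + s) m := by
  obtain ⟨x, hx⟩ := Es_mod p q s c n hκ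
  refine round_dom p q s c n hκ hκ2 ?_ (fun hk he => h2 hk (by linarith)) m hm
  rcases eq_or_ne (vd (p + q + s) (mm p q s c n)) 0 with h0 | h0
  · rw [h0] at hx ⊢
    have h3 := abs_le.1 h1
    have h4 : Es p q s n = 0 := by omega
    rw [h4]
    simp
  · have h3 := Int.one_le_abs h0
    linarith

theorem up_coprime {a b : ℕ} {e : ℤ} (he : e = 1 ∨ e = -1) {n : Fin 4 → ℕ} {i j : Fin 4}
    (hi : ep a b i = 1) (hj : ep a b j = -1) (hn : n i = n j) {g : ℕ}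
    (h1 : (g : ℤ) ∣ up a b e n i) (h2 : (g : ℤ) ∣ up a b e n j) : g = 1 := by
  have key : (g : ℤ) ∣ 1 := by
    unfold up at h1 h2
    rw [hi] at h1
    rw [hj, ← hn] at h2
    rcases he with he | he <;> rcases neg_one_pow_eq_or ℤ (n i) with hx | hx <;>
      rw [he, hx] at h1 h2 <;> norm_num at h1 h2
    · have := dvd_sub h2 h1
      simpa using this
    · have := dvd_sub h1 h2
      simpa using this
    · have := dvd_sub h1 h2
      simpa using this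
    · have := dvd_sub h2 h1
      simpa using this
  have h3 : (g : ℤ) ∣ ((1 : ℕ) : ℤ) := by exact_mod_cast key
  exact Nat.dvd_one.1 (Int.natCast_dvd_natCast.1 h3)

private theorem sw12 : Equiv.swap (1 : Fin 4) 2 0 = 0 ∧ Equiv.swap (1 : Fin 4) 2 1 = 2 ∧
    Equiv.swap (1 : Fin 4) 2 2 = 1 ∧ Equiv.swap (1 : Fin 4) 2 3 = 3 := by decide

private theorem sw13 : Equiv.swap (1 : Fin 4) 3 0 = 0 ∧ Equiv.swap (1 : Fin 4) 3 1 = 3 ∧
    Equiv.swap (1 : Fin 4) 3 2 = 2 ∧ Equiv.swap (1 : Fin 4) 3 3 = 1 := by decide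

private theorem sgn_mul (p q s : ℕ) : ((-1 : ℤ)) ^ (p + q) = (-1) ^ (q + s) * (-1) ^ (p + s) := by
  rw [← pow_add (-1 : ℤ) (q + s) (p + s), show (q + s) + (p + s) = (p + q) + 2 * s by ring,
    pow_add (-1 : ℤ) (p + q) (2 * s), pow_mul, neg_one_sq, one_pow, mul_one]

private theorem Es_expand (p q s : ℕ) (n : Fin 4 → ℕ) : Es p q s n =
    (-1) ^ n 0 * (2 * n 0 + 1) + (-1) ^ (q + s) * ((-1) ^ n 1 * (2 * n 1 + 1)) +
    (-1) ^ (p + s) * ((-1) ^ n 2 * (2 * n 2 + 1)) +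
    (-1) ^ (q + s) * (-1) ^ (p + s) * ((-1) ^ n 3 * (2 * n 3 + 1)) := by
  unfold Es
  rw [pow_add _ (q + s) (n 1), pow_add _ (p + s) (n 2), pow_add _ (p + q) (n 3), sgn_mul p q s]
  ring

/-- two equal pairs of multiplicities -/
theorem round_pairs (p q s : ℕ) (c n : Fin 4 → ℕ) {κ : ℕ} (hκ : p + q + s = ∑ j, c j + κ)
    (hκ2 : κ ≤ 2) (e1 : n 0 = n 1) (e2 : n 2 = n 3) (e3 : ¬ (Even (p + q) ∧ Even (q + s)))
    (m : Fin 15 → ℕ) (hm : Dom (p + q + s) (mm p q s c n) m) : Nsp (p + q + s) m := by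
  have hA : ((-1 : ℤ)) ^ (q + s) = 1 ∨ ((-1 : ℤ)) ^ (q + s) = -1 := neg_one_pow_eq_or ℤ _
  have hB : ((-1 : ℤ)) ^ (p + s) = 1 ∨ ((-1 : ℤ)) ^ (p + s) = -1 := neg_one_pow_eq_or ℤ _
  have p0 : ep (p + s) (q + s) 0 = 1 := rfl
  have p1 : ep (p + s) (q + s) 1 = (-1) ^ (q + s) := rfl
  have p2 : ep (p + s) (q + s) 2 = (-1) ^ (p + s) := rfl
  rcases hA with hA | hA
  · rcases hB with hB | hB
    · exfalso
      apply e3
      constructor
      · have h3 := sgn_mul p q s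
        rw [hA, hB, mul_one] at h3
        exact neg_one_pow_eq_one_iff_even (by norm_num) |>.1 h3
      · exact neg_one_pow_eq_one_iff_even (by norm_num) |>.1 hA
    · refine round_swap p q s c n 1 2 (fun m' hm' => ?_) m hm
      refine round_small p q s c _ hκ hκ2 ?_ ?_ m' hm'
      · rw [Es_expand, hA, hB, sw12.1, sw12.2.1, sw12.2.2.1, sw12.2.2.2, e1, e2]
        ring_nf
        norm_num
      · rintro - - g - - - - ⟨e, he, h4⟩
        refine up_coprime he p0 (p2.trans hB) ?_ (h4 0) (h4 2)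
        show n (Equiv.swap 1 2 0) = n (Equiv.swap 1 2 2)
        rw [sw12.1, sw12.2.2.1, e1]
  · refine round_small p q s c _ hκ hκ2 ?_ ?_ m hm
    · rcases hB with hB | hB <;> rw [Es_expand, hA, hB, e1, e2] <;> ring_nf <;> norm_num
    · rintro - - g - - - - ⟨e, he, h4⟩
      exact up_coprime he p0 (p1.trans hA) e1 (h4 0) (h4 1)

/-- two pairs of consecutive multiplicities -/
theorem round_consec (p q s : ℕ) (c n : Fin 4 → ℕ) {κ : ℕ} (hκ : p + q + s = ∑ j, c j + κ)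
    (hκ2 : κ ≤ 2) (e1 : n 1 = n 0 + 1) (e2 : n 3 = n 2 + 1)
    (h2 : κ = 2 → |vd (p + q + s) (mm p q s c n)| ≤ 1 → ∀ g : ℕ, g ∣ p + 2 →
      g ∣ q + 2 → g ∣ s + 2 → (∀ j, g ∣ c j + 2) → g = 1)
    (m : Fin 15 → ℕ) (hm : Dom (p + q + s) (mm p q s c n) m) : Nsp (p + q + s) m := by
  have hA : ((-1 : ℤ)) ^ (q + s) = 1 ∨ ((-1 : ℤ)) ^ (q + s) = -1 := neg_one_pow_eq_or ℤ _
  have hB : ((-1 : ℤ)) ^ (p + s) = 1 ∨ ((-1 : ℤ)) ^ (p + s) = -1 := neg_one_pow_eq_or ℤ _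
  have hsw : ∀ i j : Fin 4, |Es p q s (fun l => n (Equiv.swap i j l))| ≤ 4 → Nsp (p + q + s) m := by
    intro i j hE
    refine round_swap p q s c n i j (fun m' hm' => ?_) m hm
    refine round_small p q s c _ hκ hκ2 hE (fun hk hv g g1 g2 g3 g4 _ => ?_) m' hm'
    rw [vd_swap] at hv
    exact h2 hk hv g g1 g2 g3 g4
  have hid : |Es p q s n| ≤ 4 → Nsp (p + q + s) m := fun hE =>
    round_small p q s c n hκ hκ2 hE (fun hk hv g g1 g2 g3 g4 _ => h2 hk hv g g1 g2 g3 g4) m hm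
  have hx := neg_one_pow_eq_or ℤ (n 0)
  have hy := neg_one_pow_eq_or ℤ (n 2)
  rcases hA with hA | hA <;> rcases hB with hB | hB
  · apply hid
    rw [Es_expand, hA, hB, e1, e2, pow_succ, pow_succ]
    push_cast
    rcases hx with hx | hx <;> rcases hy with hy | hy <;> rw [hx, hy, abs_le] <;>
      constructor <;> linarith
  · apply hid
    rw [Es_expand, hA, hB, e1, e2, pow_succ, pow_succ]
    push_cast
    rcases hx with hx | hx <;> rcases hy with hy | hy <;> rw [hx, hy, abs_le] <;>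
      constructor <;> linarith
  · apply hsw 1 2
    rw [Es_expand, hA, hB, sw12.1, sw12.2.1, sw12.2.2.1, sw12.2.2.2, e1, e2, pow_succ, pow_succ]
    push_cast
    rcases hx with hx | hx <;> rcases hy with hy | hy <;> rw [hx, hy, abs_le] <;>
      constructor <;> linarith
  · apply hsw 1 3
    rw [Es_expand, hA, hB, sw13.1, sw13.2.1, sw13.2.2.1, sw13.2.2.2, e1, e2, pow_succ, pow_succ]
    push_cast
    rcases hx with hx | hx <;> rcases hy with hy | hy <;> rw [hx, hy, abs_le] <;>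
      constructor <;> linarith

/-- the three cases -/
theorem round_cases (p q s : ℕ) (c n : Fin 4 → ℕ) {κ : ℕ} (hκ : p + q + s = ∑ j, c j + κ)
    (hκ2 : κ ≤ 2) (h1 : (n 0 = n 1 ∧ n 2 = n 3 ∧ ¬ (Even (p + q) ∧ Even (q + s))) ∨
      ((n 1 = n 0 + 1 ∧ n 3 = n 2 + 1) ∨ |Es p q s n| ≤ 4 * |vd (p + q + s) (mm p q s c n)|) ∧
      (κ = 2 → |vd (p + q + s) (mm p q s c n)| ≤ 1 ∨
        |Es p q s n| = 4 * |vd (p + q + s) (mm p q s c n)| → ∀ g : ℕ, g ∣ p + 2 →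
        g ∣ q + 2 → g ∣ s + 2 → (∀ j, g ∣ c j + 2) → g = 1))
    (m : Fin 15 → ℕ) (hm : Dom (p + q + s) (mm p q s c n) m) : Nsp (p + q + s) m := by
  rcases h1 with ⟨e1, e2, e3⟩ | ⟨⟨e1, e2⟩ | h1, h2⟩
  · exact round_pairs p q s c n hκ hκ2 e1 e2 e3 m hm
  · exact round_consec p q s c n hκ hκ2 e1 e2 (fun hk hv => h2 hk (Or.inl hv)) m hm
  · exact round_dom p q s c n hκ hκ2 h1
      (fun hk hE g g1 g2 g3 g4 _ => h2 hk (Or.inr hE) g g1 g2 g3 g4) m hm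

theorem round_dom_empty (p q s : ℕ) (c n : Fin 4 → ℕ) {κ : ℤ}
    (hκ : ((p + q + s : ℕ) : ℤ) = ∑ j, (c j : ℤ) + κ)
    (h1 : 4 * vd (p + q + s) (mm p q s c n) + |Es p q s n| < 8 + 4 * κ - 4 * κ ^ 2)
    (m : Fin 15 → ℕ) (hm : Dom (p + q + s) (mm p q s c n) m) : Nsp (p + q + s) m := by
  have h := round_empty p q s c n hκ rfl rfl h1
  rcases hm with ⟨h3, h4⟩ | ⟨h3, h4⟩
  · exact dom_regular _ h4 h3 h
  · exact dom_empty _ h4 h3 h

end Pool.Agent.Lib.MP_6b2d39_ag.Rc
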