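import Pool.Agent.Lib.MP_6b2d39_ag.Rc.Sec

/-!
ROUND (G2): removing the anticanonical curve `Q1 * Q2`.
-/

open MvPolynomial

namespace Pool.Agent.Lib.MP_6b2d39_ag.Rc

open Pool.Agent.Lib.MP_ed661f_ag.E Pool.Agent.Lib.MP_ed661f_ag.R

private theorem Q1_box : Q1 ∈ Box 1 1 := mem_Box.2 ⟨(degreeOf_Q1 0).le, (degreeOf_Q1 1).le⟩

private theorem Q2_box : Q2 ∈ Box 1 1 := by
  rw [← rev_Q1]
  exact rev_mem _

private theorem rev_Q2 : rev 1 1 Q2 = Q1 := by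
  rw [← rev_Q1]
  exact rev_rev Q1_box

private theorem Q2_ne : Q2 ≠ 0 := by
  rw [← rev_Q1]
  exact rev_ne_zero Q1_box Q1_ne_zero

private theorem Q2_irr : Irreducible Q2 := by
  have h := irreducible_rev noX_Q1 irreducible_Q1
  rwa [degreeOf_Q1, degreeOf_Q1, rev_Q1] at h

private theorem deg_Q2 (i : Fin 2) : Q2.degreeOf i = 1 := by
  have := degreeOf_rev noX_Q1 i
  rwa [degreeOf_Q1, degreeOf_Q1, rev_Q1, degreeOf_Q1] at this

private theorem mlt_inv_Q2 {p : Pt} (hp : Tor p) : mlt (inv p) Q2 = mlt p Q1 := by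
  rw [← rev_Q1]
  exact mlt_rev Q1_box Q1_ne_zero hp

private theorem mlt_P0_Q2 (j : Fin 5) : mlt (P0 j) Q2 = 0 := by
  have := mlt_inv_Q2 (tor_P1 j)
  rwa [P1, inv_inv', ← P1, mlt_Q1.2.1] at this

private theorem mlt_P1_Q2 (j : Fin 5) : mlt (P1 j) Q2 = 1 := by
  have := mlt_inv_Q2 (tor_P0 j)
  rwa [mlt_Q1.1] at this

private theorem mlt_Y0_Q2 (i : Fin 4) : mlt (Y0 i) Q2 = 0 := by
  have := mlt_inv_Q2 (tor_Y0 i)
  rwa [inv_Y0, mlt_Q1.2.2] at this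

private theorem Q_ne : Q1 * Q2 ≠ 0 := mul_ne_zero Q1_ne_zero Q2_ne

private theorem deg_Q (i : Fin 2) : (Q1 * Q2).degreeOf i = 2 := by
  rw [degreeOf_mul_eq Q1_ne_zero Q2_ne, degreeOf_Q1, deg_Q2]

/-- `Q1 * Q2` is an invariant polynomial of class `C0` -/
theorem cls_Q : cls (Q1 * Q2) = C0 := by
  refine Cl.ext ?_ ?_ ?_ ?_
  · rw [ca_cls, deg_Q]
    rfl
  · rw [cb_cls, deg_Q]
    rfl
  · intro j
    rw [cc_cls, mlt_mul Q1_ne_zero Q2_ne, mlt_Q1.1, mlt_P0_Q2]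
    rfl
  · intro i
    rw [cn_cls, mlt_mul Q1_ne_zero Q2_ne, mlt_Q1.2.2, mlt_Y0_Q2]
    rfl

theorem Q_mem : Q1 * Q2 ∈ S ((Q1 * Q2).degreeOf 0) ((Q1 * Q2).degreeOf 1) ((1 : ℤ) : ℂ) := by
  rw [mem_S]
  refine ⟨self_mem_Box _, ?_⟩
  rw [deg_Q, deg_Q, Int.cast_one, one_smul]
  have h := rev_mul Q1_box Q2_box
  rw [rev_Q1, rev_Q2, mul_comm Q2 Q1] at h
  exact h

/-- a semi-invariant divisible by `Q1` is divisible by `Q1 * Q2` -/
theorem Q_dvd {A A' : ℕ} {s : ℂ} (hs : s ≠ 0) {F : Pol} (hF : F ∈ S A A' s) (h : Q1 ∣ F) :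
    Q1 * Q2 ∣ F := by
  by_cases h0 : F = 0
  · rw [h0]
    exact dvd_zero _
  obtain ⟨G, rfl⟩ := h
  have hG : G ≠ 0 := right_ne_zero_of_mul h0
  obtain ⟨h1, h2⟩ := mem_S.1 hF
  have h3 := mem_Box.1 h1
  rw [degreeOf_mul_eq Q1_ne_zero hG, degreeOf_mul_eq Q1_ne_zero hG, degreeOf_Q1, degreeOf_Q1] at h3
  have hGbox : G ∈ Box (A - 1) (A' - 1) := mem_Box.2 ⟨by omega, by omega⟩
  have h4 := rev_mul Q1_box hGbox
  have eA : 1 + (A - 1) = A := by omega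
  have eA' : 1 + (A' - 1) = A' := by omega
  rw [eA, eA', h2, rev_Q1] at h4
  have h5 : Q2 ∣ s • (Q1 * G) := ⟨_, h4⟩
  have h6 : Q2 ∣ Q1 * G := by
    have h7 : Q1 * G = C s⁻¹ * (s • (Q1 * G)) := by
      rw [smul_eq_C_mul, ← mul_assoc, ← C_mul, inv_mul_cancel₀ hs, C_1, one_mul]
    rw [h7]
    exact h5.mul_left _
  rcases Q2_irr.prime.dvd_or_dvd h6 with h7 | h7
  · exfalso
    obtain ⟨R, hR⟩ := h7
    have hR0 : R ≠ 0 := by
      rintro rfl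
      rw [mul_zero] at hR
      exact Q1_ne_zero hR
    have h8 := mlt_Q1.2.1 0
    rw [hR, mlt_mul Q2_ne hR0, mlt_P1_Q2] at h8
    omega
  · exact mul_dvd_mul_left _ h7

private theorem sg_ne (z : Cl) : ((sg z : ℤ) : ℂ) ≠ 0 := by
  rcases sg_cases z with h | h <;> rw [h] <;> norm_num

private theorem sg_cast (z : Cl) : ((sg z : ℤ) : ℂ) = 1 ∨ ((sg z : ℤ) : ℂ) = -1 := by
  rcases sg_cases z with h | h <;> rw [h] <;> simp

/-- PERIOD: sections of a nonzero class with `k ≤ 0` are divisible by `Q1 * Q2` -/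
theorem dvd_of_k {z : Cl} (hk : k z ≤ 0) (h0 : 0 < t z) {F : Pol}
    (hF : F ∈ Sec z) : Q1 * Q2 ∣ F := by
  by_cases hF0 : F = 0
  · rw [hF0]
    exact dvd_zero _
  obtain ⟨ha, hb, hS, hc, -⟩ := (mem_Sec hF0).1 hF
  refine Q_dvd (sg_ne z) hS ?_
  by_contra hnd
  have hrel : IsRelPrime F Q1 := by
    rw [isRelPrime_comm, irreducible_Q1.isRelPrime_iff_not_dvd]
    exact hnd
  obtain ⟨h1, h2⟩ := period (sg_cast z) hF0 hS hrel
  have h3 : ∑ j, cc z j ≤ ∑ j, (mlt (P0 j) F : ℤ) := Finset.sum_le_sum fun j _ => hc j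
  have h4 : ((∑ j, mlt (P0 j) F : ℕ) : ℤ) = ∑ j, (mlt (P0 j) F : ℤ) := by push_cast; rfl
  unfold k at hk
  unfold t at h0
  have h5 : ∑ j, mlt (P0 j) F = (ca z).toNat + (cb z).toNat := by omega
  have h6 := h2 h5
  omega

private theorem sub_aux {z : Cl} (V : Submodule ℂ Pol) (hV : V ≤ Sec z)
    (h : ∀ F ∈ V, Q1 * Q2 ∣ F) : (Module.finrank ℂ V : ℤ) ≤ Rc.h (z - C0) := by
  have h1 : V ≤ (Sec (z - C0)).map (LinearMap.mulLeft ℂ (Q1 * Q2)) := by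
    intro F hF
    by_cases hF0 : F = 0
    · rw [hF0]
      exact Submodule.zero_mem _
    obtain ⟨H, hH⟩ := h F hF
    rw [Submodule.mem_map]
    refine ⟨H, ?_, hH.symm⟩
    have h2 := quot_mem_Sec (Or.inl rfl) Q_mem (hV hF) hF0 hH
    rwa [cls_Q] at h2
  have h2 := (Submodule.finrank_mono h1).trans (Submodule.finrank_map_le _ _)
  unfold Rc.h
  exact_mod_cast h2

theorem cost_period {z : Cl} (hk : k z ≤ 0) (h0 : 0 < t z) : h z ≤ h (z - C0) :=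
  sub_aux (Sec z) le_rfl fun _ hF => dvd_of_k hk h0 hF

private theorem P0_ne {c : ℂ} (hc : c = 2 ∨ c = 1 / 2) (j : Fin 5) : P0 j ≠ ![c, c] := by
  intro h
  have h0 := congrFun h 0
  have h1 : (![c, c] : Pt) 0 = c := rfl
  rw [P0_zero, h1] at h0
  have h2 : 2 * T0 j - 2 = ((2 * (j : ℕ) + 4 : ℕ) : ℂ) := by
    unfold T0
    push_cast
    ring
  have h3 : 4 * T0 j - 1 = ((4 * (j : ℕ) + 11 : ℕ) : ℂ) := by
    unfold T0
    push_cast
    ring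
  have h4 : ((2 * (j : ℕ) + 4 : ℕ) : ℂ) ≠ 0 := by
    rw [Nat.cast_ne_zero]
    omega
  rw [h2, h3, div_eq_iff h4] at h0
  rcases hc with rfl | rfl
  · have h5 : 4 * (j : ℕ) + 11 = 2 * (2 * (j : ℕ) + 4) := by exact_mod_cast h0
    omega
  · have h5 : (((4 * (j : ℕ) + 11) * 2 : ℕ) : ℂ) = ((2 * (j : ℕ) + 4 : ℕ) : ℂ) := by
      rw [Nat.cast_mul, h0]
      push_cast
      ring
    have h6 : (4 * (j : ℕ) + 11) * 2 = 2 * (j : ℕ) + 4 := by exact_mod_cast h5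
    omega

private theorem node_dvd {z : Cl} (hk : k z = 1) {F : Pol} (hF : F ∈ Sec z)
    (he : eval (![2, 2] : Pt) F = 0) : Q1 * Q2 ∣ F := by
  classical
  by_cases hF0 : F = 0
  · rw [hF0]
    exact dvd_zero _
  obtain ⟨ha, hb, hS, hc, -⟩ := (mem_Sec hF0).1 hF
  refine Q_dvd (sg_ne z) hS ?_
  by_contra hnd
  have hrel : IsRelPrime F Q1 := by
    rw [isRelPrime_comm, irreducible_Q1.isRelPrime_iff_not_dvd]
    exact hnd
  obtain ⟨hbox, hrev⟩ := mem_S.1 hS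
  -- the second point
  have he' : eval (![1 / 2, 1 / 2] : Pt) F = 0 := by
    have h1 := eval_rev hbox (p := ![2, 2]) ⟨by norm_num, by norm_num⟩
    have hinv : inv ![2, 2] = ![1 / 2, 1 / 2] := by
      unfold inv
      norm_num
    rw [hrev, hinv, smul_eval, he, mul_zero] at h1
    have e0 : (![2, 2] : Pt) 0 = 2 := rfl
    have e1 : (![2, 2] : Pt) 1 = 2 := rfl
    rw [e0, e1] at h1
    have h2 : (2 : ℂ) ^ (ca z).toNat * 2 ^ (cb z).toNat ≠ 0 :=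
      mul_ne_zero (pow_ne_zero _ two_ne_zero) (pow_ne_zero _ two_ne_zero)
    rcases mul_eq_zero.1 h1.symm with h | h
    · exact absurd h h2
    · exact h
  have m1 : 1 ≤ mlt (![2, 2] : Pt) F := (mlt_pos_iff hF0).2 he
  have m2 : 1 ≤ mlt (![1 / 2, 1 / 2] : Pt) F := (mlt_pos_iff hF0).2 he'
  have q1 : 1 ≤ mlt (![2, 2] : Pt) Q1 := by
    refine (mlt_pos_iff Q1_ne_zero).2 ?_
    rw [eval_Q1]
    have e0 : (![2, 2] : Pt) 0 = 2 := rfl
    have e1 : (![2, 2] : Pt) 1 = 2 := rfl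
    rw [e0, e1]
    norm_num
  have q2 : 1 ≤ mlt (![1 / 2, 1 / 2] : Pt) Q1 := by
    refine (mlt_pos_iff Q1_ne_zero).2 ?_
    rw [eval_Q1]
    have e0 : (![1 / 2, 1 / 2] : Pt) 0 = 1 / 2 := rfl
    have e1 : (![1 / 2, 1 / 2] : Pt) 1 = 1 / 2 := rfl
    rw [e0, e1]
    norm_num
  have hb1 := Pool.Agent.Lib.MP_ed661f_ag.R.bezout hF0 Q1_ne_zero hrel
    (insert ![2, 2] (insert ![1 / 2, 1 / 2] (Finset.univ.image P0)))
  have n2 : (![1 / 2, 1 / 2] : Pt) ∉ Finset.univ.image P0 := by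
    intro h
    obtain ⟨j, -, hj⟩ := Finset.mem_image.1 h
    exact P0_ne (Or.inr rfl) j hj
  have n1 : (![2, 2] : Pt) ∉ insert ![1 / 2, 1 / 2] (Finset.univ.image P0) := by
    intro h
    rcases Finset.mem_insert.1 h with h | h
    · have h1 := congrFun h 0
      have e0 : (![2, 2] : Pt) 0 = 2 := rfl
      have e1 : (![1 / 2, 1 / 2] : Pt) 0 = 1 / 2 := rfl
      rw [e0, e1] at h1
      norm_num at h1
    · obtain ⟨j, -, hj⟩ := Finset.mem_image.1 h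
      exact P0_ne (Or.inl rfl) j hj
  rw [Finset.sum_insert n1, Finset.sum_insert n2,
    Finset.sum_image (fun i _ j _ h => P0_injective h), degreeOf_Q1, degreeOf_Q1] at hb1
  have h2 : ∑ j, mlt (P0 j) F * mlt (P0 j) Q1 = ∑ j, mlt (P0 j) F := by
    refine Finset.sum_congr rfl fun j _ => ?_
    rw [mlt_Q1.1 j, mul_one]
  rw [h2] at hb1
  have g1 : 1 ≤ mlt (![2, 2] : Pt) F * mlt (![2, 2] : Pt) Q1 := Nat.mul_pos m1 q1
  have g2 : 1 ≤ mlt (![1 / 2, 1 / 2] : Pt) F * mlt (![1 / 2, 1 / 2] : Pt) Q1 := Nat.mul_pos m2 q2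
  have h3 : ∑ j, cc z j ≤ ∑ j, (mlt (P0 j) F : ℤ) := Finset.sum_le_sum fun j _ => hc j
  have h4 : ((∑ j, mlt (P0 j) F : ℕ) : ℤ) = ∑ j, (mlt (P0 j) F : ℤ) := by push_cast; rfl
  have h5 := mem_Box.1 hbox
  unfold k at hk
  omega

/-- NODE: `k z = 1`: the condition `F (2,2) = 0` implies `F (1/2,1/2) = 0`; both points are on
`Q1 = 0`, so `Q1 ∣ F` by Bezout -/
theorem cost_node {z : Cl} (hk : k z = 1) : h z ≤ h (z - C0) + 1 := by
  set f : Sec z →ₗ[ℂ] ℂ := (aeval (![2, 2] : Pt)).toLinearMap.comp (Sec z).subtype with hf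
  have h1 := LinearMap.finrank_range_add_finrank_ker f
  have h2 : Module.finrank ℂ (LinearMap.range f) ≤ 1 := by
    have := Submodule.finrank_le (LinearMap.range f)
    rwa [Module.finrank_self] at this
  have h3 : Module.finrank ℂ ((LinearMap.ker f).map (Sec z).subtype) =
      Module.finrank ℂ (LinearMap.ker f) :=
    (LinearEquiv.finrank_eq (Submodule.equivMapOfInjective (Sec z).subtype
      (Sec z).subtype_injective (LinearMap.ker f))).symm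
  have h4 := sub_aux (z := z) ((LinearMap.ker f).map (Sec z).subtype) (by
    rintro _ ⟨x, -, rfl⟩
    exact x.2) (by
    rintro _ ⟨x, hx, rfl⟩
    refine node_dvd hk x.2 ?_
    have h5 : f x = 0 := hx
    rw [hf] at h5
    simpa [aeval_eq_eval] using h5)
  rw [h3] at h4
  have h5 : h z = (Module.finrank ℂ (Sec z) : ℤ) := rfl
  rw [h5]
  omega

end Pool.Agent.Lib.MP_6b2d39_ag.Rc
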