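import Pool.Agent.Lib.MP_6b2d39_ag.Rc.Sec

/-!
ROUND (G1): removing an irreducible orbit.
-/

open MvPolynomial

namespace Pool.Agent.Lib.MP_6b2d39_ag.Rc

open Pool.Agent.Lib.MP_ed661f_ag.E Pool.Agent.Lib.MP_ed661f_ag.R

private theorem co_Y0_injective : Function.Injective Y0 := by
  intro i j h
  have h0 := congrFun h 0
  have h1 := congrFun h 1
  have hn : (1 : ℂ) ≠ -1 := by norm_num
  have hn' : (-1 : ℂ) ≠ 1 := by norm_num
  fin_cases i <;> fin_cases j <;> simp_all [Y0]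

/-- Bezout at the special points and at the pairs of the points `Q` -/
private theorem co_bezout {Z F G : Pol} {A A' : ℕ} {s t : ℂ} (hs : s ≠ 0) (ht : t ≠ 0)
    (hZF : Orb Z F) (hZ0 : Z ≠ 0) (hZ : Z ∈ S (Z.degreeOf 0) (Z.degreeOf 1) s)
    (Q : Finset Pt)
    (hQ : ∀ q ∈ Q, eval q F = 0 ∧ Tor q ∧
      q ∉ Finset.univ.image P0 ∪ (Finset.univ.image P0).image inv ∪ Finset.univ.image Y0 ∧
      inv q ∉ Finset.univ.image P0 ∪ (Finset.univ.image P0).image inv ∪ Finset.univ.image Y0)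
    (hQQ : ∀ q ∈ Q, ∀ q' ∈ Q, inv q ≠ q')
    (hG : G ∈ S A A' t) (hG0 : G ≠ 0) (hrel : IsRelPrime Z G) (hGQ : ∀ q ∈ Q, eval q G = 0) :
    2 * ∑ j, mlt (P0 j) Z * mlt (P0 j) G + ∑ i, mlt (Y0 i) Z * mlt (Y0 i) G + 2 * Q.card ≤
      Z.degreeOf 0 * A' + A * Z.degreeOf 1 := by
  classical
  have hinj : Function.Injective inv := fun x y h => by
    rw [← inv_inv' x, h, inv_inv']
  have hGB := mem_Box.mp (mem_S.mp hG).1
  set P : Finset Pt := Finset.univ.image P0 with hPdef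
  have hPP : ∀ p ∈ P, ∀ q ∈ P, inv p ≠ q := by
    intro p hp q hq
    obtain ⟨i, -, rfl⟩ := Finset.mem_image.mp hp
    obtain ⟨j, -, rfl⟩ := Finset.mem_image.mp hq
    exact inv_P0_ne i j
  have D1 : Disjoint P (P.image inv) := by
    rw [Finset.disjoint_left]
    intro x hx hx'
    obtain ⟨p, hp, rfl⟩ := Finset.mem_image.mp hx'
    exact hPP p hp _ hx rfl
  have D2 : Disjoint (P ∪ P.image inv) (Finset.univ.image Y0) := by
    rw [Finset.disjoint_left]
    intro x hx hx'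
    obtain ⟨i, -, rfl⟩ := Finset.mem_image.mp hx'
    rcases Finset.mem_union.mp hx with h | h
    · exact hPP _ h _ h (inv_Y0 i)
    · obtain ⟨p, hp, h2⟩ := Finset.mem_image.mp h
      have h3 : p = Y0 i := by
        rw [← inv_inv' p, h2, inv_Y0]
      rw [h3] at hp
      exact hPP _ hp _ hp (inv_Y0 i)
  have D3 : Disjoint (P ∪ P.image inv ∪ Finset.univ.image Y0) Q := by
    rw [Finset.disjoint_right]
    intro x hx hx'
    exact (hQ x hx).2.2.1 hx'
  have D4 : Disjoint (P ∪ P.image inv ∪ Finset.univ.image Y0 ∪ Q) (Q.image inv) := by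
    rw [Finset.disjoint_left]
    intro x hx hx'
    obtain ⟨q, hq, rfl⟩ := Finset.mem_image.mp hx'
    rcases Finset.mem_union.mp hx with h | h
    · exact (hQ q hq).2.2.2 h
    · exact hQQ q hq _ h rfl
  have hb := MP_ed661f_ag.R.bezout hZ0 hG0 hrel (P ∪ P.image inv ∪ Finset.univ.image Y0 ∪ Q ∪ Q.image inv)
  rw [Finset.sum_union D4, Finset.sum_union D3, Finset.sum_union D2, Finset.sum_union D1,
    Finset.sum_image (fun x _ y _ h => hinj h), Finset.sum_image (fun x _ y _ h => hinj h),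
    Finset.sum_image (fun x _ y _ h => co_Y0_injective h), hPdef,
    Finset.sum_image (fun x _ y _ h => P0_injective h),
    Finset.sum_image (fun x _ y _ h => P0_injective h)] at hb
  have e2 : ∑ j, mlt (inv (P0 j)) Z * mlt (inv (P0 j)) G =
      ∑ j, mlt (P0 j) Z * mlt (P0 j) G := by
    refine Finset.sum_congr rfl fun j _ => ?_
    rw [mlt_semi hZ hZ0 hs (tor_P0 j), mlt_semi hG hG0 ht (tor_P0 j)]
  have hFZ : F ∣ Z := by
    rcases hZF.2.2 with h | ⟨h, -⟩
    · rw [h]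
    · rw [h]
      exact Dvd.intro _ rfl
  have hq1 : ∀ q ∈ Q, 1 ≤ mlt q Z := by
    intro q hq
    rw [mlt_pos_iff hZ0]
    obtain ⟨H, hH⟩ := hFZ
    rw [hH, map_mul, (hQ q hq).1, zero_mul]
  have hq2 : ∀ q ∈ Q, 1 ≤ mlt q G := fun q hq => (mlt_pos_iff hG0).mpr (hGQ q hq)
  have e4 : Q.card ≤ ∑ q ∈ Q, mlt q Z * mlt q G := by
    rw [Finset.card_eq_sum_ones]
    exact Finset.sum_le_sum fun q hq => Nat.mul_pos (hq1 q hq) (hq2 q hq)
  have e5 : Q.card ≤ ∑ q ∈ Q, mlt (inv q) Z * mlt (inv q) G := by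
    rw [Finset.card_eq_sum_ones]
    refine Finset.sum_le_sum fun q hq => ?_
    rw [mlt_semi hZ hZ0 hs (hQ q hq).2.1, mlt_semi hG hG0 ht (hQ q hq).2.1]
    exact Nat.mul_pos (hq1 q hq) (hq2 q hq)
  have e6 : Z.degreeOf 0 * G.degreeOf 1 ≤ Z.degreeOf 0 * A' := Nat.mul_le_mul_left _ hGB.2
  have e7 : G.degreeOf 0 * Z.degreeOf 1 ≤ A * Z.degreeOf 1 := Nat.mul_le_mul_right _ hGB.1
  rw [e2] at hb
  omega

/-- choose `N` points on the orbit `Z` (`exists_points`, `R` = all special points and their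
images), impose vanishing at these points; then Bezout (see `adj_bezout` in `R/Adj`) and
`dvd_of_common`, `quot_mem_Sec` -/
theorem cost_orb {Z F : Pol} {s : ℤ} (hs : s = 1 ∨ s = -1) (hZF : Orb Z F)
    (hZ : Z ∈ S (Z.degreeOf 0) (Z.degreeOf 1) (s : ℂ)) {z : Cl} (N : ℕ)
    (hN : B z (cls Z) < 2 * N) : h z ≤ h (z - cls Z) + N := by
  classical
  have hs0 : (s : ℂ) ≠ 0 := by
    rcases hs with rfl | rfl <;> norm_num
  have ht0 : ((sg z : ℤ) : ℂ) ≠ 0 := by
    rcases sg_cases z with h1 | h1 <;> rw [h1] <;> norm_num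
  have hF0 : F ≠ 0 := hZF.1.ne_zero
  have hR0 : rev (F.degreeOf 0) (F.degreeOf 1) F ≠ 0 :=
    rev_ne_zero (mem_Box.mpr ⟨le_rfl, le_rfl⟩) hF0
  have hZ0 : Z ≠ 0 := by
    rcases hZF.2.2 with h | ⟨h, -⟩
    · rw [h]
      exact hF0
    · rw [h]
      exact mul_ne_zero hF0 hR0
  obtain ⟨Q, hQc, hQ1, hQ2⟩ := exists_points hZF.1 hZF.2.1
    (Finset.univ.image P0 ∪ (Finset.univ.image P0).image inv ∪ Finset.univ.image Y0) N
  let e : Fin N ≃ Q := (finCongr hQc.symm).trans Q.equivFin.symm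
  let φ : Pol →ₗ[ℂ] (Fin N → ℂ) :=
    LinearMap.pi fun i => (aeval (R := ℂ) (S₁ := ℂ) (e i).1).toLinearMap
  have hφ : ∀ G : Pol, φ G = 0 → ∀ q ∈ Q, eval q G = 0 := by
    intro G hG q hq
    have h1 := congrFun hG (e.symm ⟨q, hq⟩)
    rw [← coe_aeval_eq_eval]
    simpa [φ] using h1
  have key := finrank_le_add (V := Sec z) (W := (Sec (z - cls Z)).map (LinearMap.mulLeft ℂ Z)) φ
    (Sec z).subtype (Submodule.injective_subtype _) (by
      rintro ⟨G, hG⟩ hG1
      change G ∈ _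
      change φ G = 0 at hG1
      rcases eq_or_ne G 0 with rfl | hG0
      · exact zero_mem _
      have hG2 := (mem_Sec hG0).1 hG
      have hdvd : Z ∣ G := by
        by_contra hnd
        have hrel : IsRelPrime Z G := by
          by_contra h
          exact hnd (dvd_of_common hZF ht0 hZ hs0 hG2.2.2.1 h)
        have hbz := co_bezout hs0 ht0 hZF hZ0 hZ Q hQ1 hQ2 hG2.2.2.1 hG0 hrel (hφ G hG1)
        rw [hQc] at hbz
        have hbz' : 2 * ∑ j, (mlt (P0 j) Z : ℤ) * mlt (P0 j) G +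
            ∑ i, (mlt (Y0 i) Z : ℤ) * mlt (Y0 i) G + 2 * N ≤
            Z.degreeOf 0 * cb z + ca z * Z.degreeOf 1 := by
          have h1 := (Nat.cast_le (α := ℤ)).2 hbz
          push_cast at h1
          rw [Int.toNat_of_nonneg hG2.1, Int.toNat_of_nonneg hG2.2.1] at h1
          exact h1
        have e1 : ∑ j, cc z j * (mlt (P0 j) Z : ℤ) ≤ ∑ j, (mlt (P0 j) Z : ℤ) * mlt (P0 j) G := by
          refine Finset.sum_le_sum fun j _ => ?_
          rw [mul_comm]
          exact mul_le_mul_of_nonneg_left (hG2.2.2.2.1 j) (by positivity)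
        have e2 : ∑ i, cn z i * (mlt (Y0 i) Z : ℤ) ≤ ∑ i, (mlt (Y0 i) Z : ℤ) * mlt (Y0 i) G := by
          refine Finset.sum_le_sum fun i _ => ?_
          rw [mul_comm]
          exact mul_le_mul_of_nonneg_left (hG2.2.2.2.2 i) (by positivity)
        unfold B at hN
        simp only [ca_cls, cb_cls, cc_cls, cn_cls] at hN
        nlinarith [hbz', e1, e2, hN]
      obtain ⟨H, hH⟩ := hdvd
      rw [Submodule.mem_map]
      exact ⟨H, quot_mem_Sec hs hZ hG hG0 hH, by rw [LinearMap.mulLeft_apply, hH]⟩)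
  have hmap := Submodule.finrank_map_le (LinearMap.mulLeft ℂ Z) (Sec (z - cls Z))
  unfold h
  exact_mod_cast key.trans (Nat.add_le_add_right hmap N)

end Pool.Agent.Lib.MP_6b2d39_ag.Rc
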