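import Pool.Agent.Lib.MP_6b2d39_ag.Rc.Sec

/-!
ROUND (G1): raising one multiplicity.
-/

open MvPolynomial

namespace Pool.Agent.Lib.MP_6b2d39_ag.Rc

open Pool.Agent.Lib.MP_ed661f_ag.E Pool.Agent.Lib.MP_ed661f_ag.R

/-- the `m + 1` coefficients of degree `m` -/
private theorem costPt_lead (m : ℕ) (p : Pt) :
    ∃ φ : Pol →ₗ[ℂ] (Fin (m + 1) → ℂ), ∀ G, φ G = 0 → Bz.Ord m (tay p G) →
      Bz.Ord (m + 1) (tay p G) := by
  let φ : Pol →ₗ[ℂ] (Fin (m + 1) → ℂ) :=
    { toFun := fun G j => coeff (Finsupp.single 0 (j : ℕ) + Finsupp.single 1 (m - (j : ℕ)))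
        (tay p G)
      map_add' := fun G H => by
        funext j
        simp [tay]
      map_smul' := fun c G => by
        funext j
        simp [tay] }
  refine ⟨φ, fun G hG h e he => ?_⟩
  rcases Nat.lt_succ_iff_lt_or_eq.1 he with h2 | h2
  · exact h e h2
  · rw [Bz.degree_two'] at h2
    have h1 := congrFun hG ⟨e 0, by omega⟩
    have h3 : φ G ⟨e 0, by omega⟩ = coeff (Finsupp.single 0 (e 0) + Finsupp.single 1 (m - e 0))
      (tay p G) := rfl
    have h4 : Finsupp.single 0 (e 0) + Finsupp.single 1 (m - e 0) = e := by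
      ext i
      fin_cases i
      · simp
      · simp
        omega
    rw [h3, h4] at h1
    exact h1

private theorem costPt_step {z w : Cl} {m : ℕ} (p : Pt)
    (hm : ∀ F ∈ Sec z, F ≠ 0 → m ≤ mlt p F)
    (hw : ∀ F ∈ Sec z, F ≠ 0 → m + 1 ≤ mlt p F → F ∈ Sec w) : h z ≤ h w + (m + 1) := by
  obtain ⟨φ, hφ⟩ := costPt_lead m p
  have h1 := finrank_le_add (V := Sec z) (W := Sec w) φ (Sec z).subtype
    (Submodule.injective_subtype _) (by
      rintro ⟨F, hF⟩ h0
      change F ∈ Sec w
      rcases eq_or_ne F 0 with hF0 | hF0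
      · rw [hF0]
        exact zero_mem _
      · refine hw F hF hF0 ?_
        rw [le_mlt_iff hF0]
        exact hφ F h0 ((le_mlt_iff hF0 m).1 (hm F hF hF0)))
  unfold h
  exact_mod_cast h1

private theorem costPt_sg (z : Cl) (i : Fin 4) : sg (z - R0 i) = sg z := by
  have h1 : sg (R0 i) = 1 := by
    unfold sg
    rw [cn_R0]
    split_ifs with h2 h3
    · rfl
    · exact absurd (by decide) h3
    · rfl
    · rename_i h3
      exact absurd (by decide) h3
  rw [sg_sub, h1, mul_one]

private theorem costPt_R {z : Cl} (i : Fin 4) {F : Pol} (hF : F ∈ Sec z) (h0 : F ≠ 0)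
    (h : cn z i + 2 ≤ mlt (Y0 i) F) : F ∈ Sec (z - R0 i) := by
  obtain ⟨h1, h2, h3, h4, h5⟩ := (mem_Sec h0).1 hF
  rw [mem_Sec h0, costPt_sg]
  simp only [ca_sub, cb_sub, ca_R0, cb_R0, sub_zero]
  refine ⟨h1, h2, h3, fun j => ?_, fun i' => ?_⟩
  · rw [cc_sub, cc_R0, sub_zero]
    exact h4 j
  · rw [cn_sub, cn_R0]
    split_ifs with hi
    · rw [hi]
      omega
    · rw [sub_zero]
      exact h5 i'

/-- the `n + 1` coefficients of the leading form at a fixed point; then `parity_L` gives two more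
orders -/
theorem cost_R {z : Cl} (hz : L z) (i : Fin 4) (hi : -1 ≤ cn z i) :
    h z ≤ h (z - R0 i) + (cn z i + 1) := by
  rcases eq_or_lt_of_le hi with h1 | h1
  · rw [← h1]
    have h2 : Sec z ≤ Sec (z - R0 i) := by
      intro F hF
      rcases eq_or_ne F 0 with h0 | h0
      · rw [h0]
        exact zero_mem _
      · refine costPt_R i hF h0 ?_
        have h3 := parity_L hz hF h0 i
        rw [Int.even_iff] at h3
        omega
    have h3 := Submodule.finrank_mono h2
    unfold h
    norm_num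
    exact h3
  · obtain ⟨m, hm⟩ := Int.eq_ofNat_of_zero_le (by omega : 0 ≤ cn z i)
    rw [hm]
    refine costPt_step (Y0 i) ?_ ?_
    · intro F hF h0
      have := ((mem_Sec h0).1 hF).2.2.2.2 i
      omega
    · intro F hF h0 h2
      refine costPt_R i hF h0 ?_
      have h3 := parity_L hz hF h0 i
      rw [Int.even_iff] at h3
      omega

/-- the `c + 1` coefficients of the leading form at `P0 j` -/
theorem cost_E (z : Cl) (j : Fin 5) (hj : -1 ≤ cc z j) :
    h z ≤ h (z - E0 j) + (cc z j + 1) := by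
  have hsg : sg (z - E0 j) = sg z := by
    have h1 : sg (E0 j) = 1 := by
      unfold sg
      rw [cn_E0]
      exact if_pos (by decide)
    rw [sg_sub, h1, mul_one]
  have key : ∀ F ∈ Sec z, F ≠ 0 → cc z j + 1 ≤ mlt (P0 j) F → F ∈ Sec (z - E0 j) := by
    intro F hF h0 h
    obtain ⟨h1, h2, h3, h4, h5⟩ := (mem_Sec h0).1 hF
    rw [mem_Sec h0, hsg]
    simp only [ca_sub, cb_sub, ca_E0, cb_E0, sub_zero]
    refine ⟨h1, h2, h3, fun j' => ?_, fun i => ?_⟩
    · rw [cc_sub, cc_E0]
      split_ifs with hi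
      · rw [hi]
        omega
      · rw [sub_zero]
        exact h4 j'
    · rw [cn_sub, cn_E0, sub_zero]
      exact h5 i
  rcases eq_or_lt_of_le hj with h1 | h1
  · rw [← h1]
    have h2 : Sec z ≤ Sec (z - E0 j) := by
      intro F hF
      rcases eq_or_ne F 0 with h0 | h0
      · rw [h0]
        exact zero_mem _
      · refine key F hF h0 ?_
        omega
    have h3 := Submodule.finrank_mono h2
    unfold h
    norm_num
    exact h3
  · obtain ⟨m, hm⟩ := Int.eq_ofNat_of_zero_le (by omega : 0 ≤ cc z j)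
    rw [hm]
    refine costPt_step (P0 j) ?_ ?_
    · intro F hF h0
      have := ((mem_Sec h0).1 hF).2.2.2.1 j
      omega
    · intro F hF h0 h2
      refine key F hF h0 ?_
      omega

end Pool.Agent.Lib.MP_6b2d39_ag.Rc
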