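import Pool.Agent.Lib.MP_6b2d39_agCr.Lower

/-!
ROUND: nonspeciality is inherited by smaller multiplicities, emptiness by larger ones.
-/

open MvPolynomial

namespace Pool.Agent.Lib.MP_6b2d39_ag.Rc

open Pool.Agent.Lib.MP_6b2d39_agCr

private instance fin_rtd (d : ℕ) : FiniteDimensional ℂ (restrictTotalDegree (Fin 2) ℂ d) :=
  (MP_6b2d39_ag.jetEquiv d).symm.finiteDimensional

/-- the conditions -/
private noncomputable def cond (d : ℕ) {r : ℕ} (m : Fin r → ℕ) (p : Fin r → Fin 2 → ℂ) :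
    restrictTotalDegree (Fin 2) ℂ d →ₗ[ℂ] (∀ i, MP_6b2d39_ag.JetIdx (m i) → ℂ) :=
  LinearMap.pi fun i => ((MP_6b2d39_ag.jet (m i)).comp
    (MP_6b2d39_ag.trans (p i)).toLinearMap).comp (restrictTotalDegree (Fin 2) ℂ d).subtype

private theorem cond_apply (d : ℕ) {r : ℕ} (m : Fin r → ℕ) (p : Fin r → Fin 2 → ℂ)
    (f : restrictTotalDegree (Fin 2) ℂ d) (i : Fin r) (z : MP_6b2d39_ag.JetIdx (m i)) :
    cond d m p f i z = coeff (MP_6b2d39_ag.jetMon z) (MP_6b2d39_ag.trans (p i) f.1) := rfl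

private theorem finrank_ker_cond (d : ℕ) {r : ℕ} (m : Fin r → ℕ) (p : Fin r → Fin 2 → ℂ) :
    Module.finrank ℂ (LinearMap.ker (cond d m p)) =
      Module.finrank ℂ (MP_6b2d39_ag.fatSystem d m p) := by
  have hT : LinearMap.ker (cond d m p) = (MP_6b2d39_ag.fatSystem d m p).comap
      (restrictTotalDegree (Fin 2) ℂ d).subtype := by
    ext f
    rw [LinearMap.mem_ker, Submodule.mem_comap, MP_6b2d39_ag.mem_fatSystem_iff]
    constructor
    · intro h
      exact ⟨f.2, fun i => congrFun h i⟩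
    · intro h
      funext i
      exact h.2 i
  rw [hT]
  exact (Submodule.comapSubtypeEquivOfLe (MP_6b2d39_ag.fatSystem_le m p)).finrank_eq

private theorem finrank_target {r : ℕ} (m : Fin r → ℕ) :
    Module.finrank ℂ (∀ i, MP_6b2d39_ag.JetIdx (m i) → ℂ) = ∑ i, (m i + 1).choose 2 := by
  rw [Module.finrank_pi_fintype]
  refine Finset.sum_congr rfl fun i _ => ?_
  rw [Module.finrank_fintype_fun_eq_card, MP_6b2d39_ag.card_jetIdx]

/-- the conditions are independent iff the system has the expected dimension -/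
private theorem cond_surjective_iff (d : ℕ) {r : ℕ} (m : Fin r → ℕ) (p : Fin r → Fin 2 → ℂ) :
    Function.Surjective (cond d m p) ↔
      Module.finrank ℂ (MP_6b2d39_ag.fatSystem d m p) + ∑ i, (m i + 1).choose 2 =
        (d + 2).choose 2 := by
  have h1 := LinearMap.finrank_range_add_finrank_ker (cond d m p)
  rw [finrank_ker_cond, MP_6b2d39_ag.finrank_restrictTotalDegree] at h1
  rw [← LinearMap.range_eq_top]
  constructor
  · intro h
    rw [h, finrank_top, finrank_target] at h1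
    omega
  · intro h
    apply Submodule.eq_top_of_finrank_eq
    rw [finrank_target]
    omega

private def emb {a b : ℕ} (h : a ≤ b) (z : MP_6b2d39_ag.JetIdx a) : MP_6b2d39_ag.JetIdx b :=
  ⟨⟨z.1, lt_of_lt_of_le z.1.2 h⟩, z.2⟩

private theorem emb_injective {a b : ℕ} (h : a ≤ b) : Function.Injective (emb h) := by
  intro z w hzw
  apply MP_6b2d39_ag.jetMon_injective
  have h1 : MP_6b2d39_ag.jetMon (emb h z) = MP_6b2d39_ag.jetMon (emb h w) := by rw [hzw]
  exact h1

private theorem cond_surjective_mono (d : ℕ) {r : ℕ} {m m' : Fin r → ℕ} (hm : ∀ i, m' i ≤ m i)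
    (p : Fin r → Fin 2 → ℂ) (h : Function.Surjective (cond d m p)) :
    Function.Surjective (cond d m' p) := by
  intro g
  obtain ⟨f, hf⟩ := h fun i => Function.extend (emb (hm i)) (g i) 0
  refine ⟨f, ?_⟩
  funext i z
  have h1 := congrFun (congrFun hf i) (emb (hm i) z)
  rw [(emb_injective (hm i)).extend_apply] at h1
  rw [← h1]
  rfl

private theorem curves_eq_affine {r : ℕ} (d : ℕ) (m : Fin r → ℕ) {P : Fin r → Fin 3 → ℂ}
    (hP : ∀ l, P l 2 ≠ 0) : Module.finrank ℂ (curves d m P) =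
      Module.finrank ℂ (MP_6b2d39_ag.fatSystem d m fun l => ![P l 0 / P l 2, P l 1 / P l 2]) := by
  set p : Fin r → Fin 2 → ℂ := fun l => ![P l 0 / P l 2, P l 1 / P l 2] with hp
  have h1 : P = fun l => P l 2 • ![p l 0, p l 1, 1] := by
    funext l i
    have h2 := hP l
    fin_cases i
    · simp [hp]; field_simp
    · simp [hp]; field_simp
    · simp
  have h2 : curves d m P = curves d m (fun i => ![p i 0, p i 1, 1]) := by
    rw [h1]
    exact curves_smul hP
  rw [h2, finrank_curves_affine]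

private theorem fat_anti (d : ℕ) {r : ℕ} {m m' : Fin r → ℕ} (hm : ∀ i, m i ≤ m' i)
    (p : Fin r → Fin 2 → ℂ) :
    MP_6b2d39_ag.fatSystem d m' p ≤ MP_6b2d39_ag.fatSystem d m p := by
  unfold MP_6b2d39_ag.fatSystem
  refine inf_le_inf le_rfl (iInf_mono fun i => ?_)
  intro f hf
  exact Ideal.pow_le_pow_right (hm i) hf

private theorem vd_anti {r : ℕ} (d : ℕ) {m m' : Fin r → ℕ} (hm : ∀ i, m i ≤ m' i) :
    vd d m' ≤ vd d m := by
  unfold vd
  have h1 : ∑ i, ((m i + 1).choose 2 : ℤ) ≤ ∑ i, ((m' i + 1).choose 2 : ℤ) := by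
    refine Finset.sum_le_sum fun i _ => ?_
    exact_mod_cast Nat.choose_le_choose 2 (Nat.add_le_add_right (hm i) 1)
  linarith

/-- emptiness is inherited by larger multiplicities -/
theorem dom_empty {r : ℕ} (d : ℕ) {m m' : Fin r → ℕ} (hm : ∀ i, m i ≤ m' i) (hv : vd d m ≤ 0)
    (H : General (fun P => (Module.finrank ℂ (curves d m P) : ℤ) = max (vd d m) 0)) :
    General (fun P => (Module.finrank ℂ (curves d m' P) : ℤ) = max (vd d m') 0) := by
  refine (H.and (general_coord_ne 2)).mono ?_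
  rintro P ⟨h1, h2⟩
  have h3 := vd_anti d hm
  rw [max_eq_right (h3.trans hv)]
  rw [max_eq_right hv] at h1
  have h4 : Module.finrank ℂ (curves d m P) = 0 := by exact_mod_cast h1
  rw [curves_eq_affine d m h2] at h4
  rw [curves_eq_affine d m' h2]
  have h5 : FiniteDimensional ℂ (MP_6b2d39_ag.fatSystem d m
      fun l => ![P l 0 / P l 2, P l 1 / P l 2]) :=
    Submodule.finiteDimensional_of_le (MP_6b2d39_ag.fatSystem_le m _)
  have h6 := Submodule.finrank_mono (fat_anti d hm fun l => ![P l 0 / P l 2, P l 1 / P l 2])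
  have h7 : Module.finrank ℂ (MP_6b2d39_ag.fatSystem d m'
      fun l => ![P l 0 / P l 2, P l 1 / P l 2]) = 0 := by omega
  exact_mod_cast h7

/-- independence of the conditions is inherited by smaller multiplicities -/
theorem dom_regular {r : ℕ} (d : ℕ) {m m' : Fin r → ℕ} (hm : ∀ i, m' i ≤ m i) (hv : 0 ≤ vd d m)
    (H : General (fun P => (Module.finrank ℂ (curves d m P) : ℤ) = max (vd d m) 0)) :
    General (fun P => (Module.finrank ℂ (curves d m' P) : ℤ) = max (vd d m') 0) := by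
  refine (H.and (general_coord_ne 2)).mono ?_
  rintro P ⟨h1, h2⟩
  have h3 := vd_anti d hm
  rw [max_eq_left hv] at h1
  rw [max_eq_left (hv.trans h3)]
  rw [curves_eq_affine d m h2] at h1
  rw [curves_eq_affine d m' h2]
  have h4 := (cond_surjective_iff d m fun l => ![P l 0 / P l 2, P l 1 / P l 2]).2 (by
    have h5 : ((Module.finrank ℂ (MP_6b2d39_ag.fatSystem d m
        fun l => ![P l 0 / P l 2, P l 1 / P l 2]) + ∑ i, (m i + 1).choose 2 : ℕ) : ℤ) =
        (((d + 2).choose 2 : ℕ) : ℤ) := by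
      push_cast
      rw [h1]
      unfold vd
      ring
    exact_mod_cast h5)
  have h6 := (cond_surjective_iff d m' fun l => ![P l 0 / P l 2, P l 1 / P l 2]).1
    (cond_surjective_mono d hm _ h4)
  have h7 : ((Module.finrank ℂ (MP_6b2d39_ag.fatSystem d m'
      fun l => ![P l 0 / P l 2, P l 1 / P l 2]) + ∑ i, (m' i + 1).choose 2 : ℕ) : ℤ) =
      (((d + 2).choose 2 : ℕ) : ℤ) := by exact_mod_cast h6
  push_cast at h7
  unfold vd
  linarith

end Pool.Agent.Lib.MP_6b2d39_ag.Rc
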