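import Pool.Agent.Lib.MP_6b2d39_ag.Rc.Sec

/-!
ROUND (G4): classes of the round cone are nef.
-/

open MvPolynomial

namespace Pool.Agent.Lib.MP_6b2d39_ag.Rc

open Pool.Agent.Lib.MP_ed661f_ag.E Pool.Agent.Lib.MP_ed661f_ag.R

/-- the real form of the nef inequality for sections -/
private theorem nef_sec (a b : ℝ) (c : Fin 5 → ℝ) (r : Fin 4 → ℝ) (ha : 0 ≤ a) (hb : 0 ≤ b)
    (hc : ∀ j, 0 ≤ c j) (hr : ∀ i, 0 ≤ r i)
    (hab : a + b = ∑ j, c j) (hq : ∑ i, r i ^ 2 ≤ 2 * (a * b - ∑ j, c j ^ 2))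
    {z : Cl} {F : Pol} (hF : F ∈ Sec z) (h0 : F ≠ 0) :
    2 * ∑ j, c j * (cc z j : ℝ) + ∑ i, r i * (cn z i : ℝ) ≤ a * (cb z : ℝ) + b * (ca z : ℝ) := by
  obtain ⟨hz1, hz2, hS, hP, hY⟩ := (mem_Sec h0).1 hF
  have hs0 : ((sg z : ℤ) : ℂ) ≠ 0 := by
    rcases sg_cases z with h | h <;> rw [h] <;> simp
  have h1 := nef_special a b c r ha hb hab hq h0
  have h2 : ∀ j, mlt (P1 j) F = mlt (P0 j) F := fun j => mlt_semi hS h0 hs0 (tor_P0 j)
  obtain ⟨hd0, hd1⟩ := mem_Box.1 (mem_S.1 hS).1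
  have hd0' : (F.degreeOf 0 : ℝ) ≤ (ca z : ℝ) := by
    have : (F.degreeOf 0 : ℤ) ≤ ca z := by omega
    exact_mod_cast this
  have hd1' : (F.degreeOf 1 : ℝ) ≤ (cb z : ℝ) := by
    have : (F.degreeOf 1 : ℤ) ≤ cb z := by omega
    exact_mod_cast this
  have h3 : 2 * ∑ j, c j * (cc z j : ℝ) ≤
      ∑ j, c j * ((mlt (P0 j) F : ℝ) + (mlt (P1 j) F : ℝ)) := by
    rw [Finset.mul_sum]
    refine Finset.sum_le_sum fun j _ => ?_
    rw [h2]
    have h4 : (cc z j : ℝ) ≤ (mlt (P0 j) F : ℝ) := by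
      exact_mod_cast hP j
    have h5 := mul_le_mul_of_nonneg_left h4 (hc j)
    linarith
  have h4 : ∑ i, r i * (cn z i : ℝ) ≤ ∑ i, r i * (mlt (Y0 i) F : ℝ) := by
    refine Finset.sum_le_sum fun i _ => ?_
    have h5 : (cn z i : ℝ) ≤ (mlt (Y0 i) F : ℝ) := by
      exact_mod_cast hY i
    exact mul_le_mul_of_nonneg_left h5 (hr i)
  have h5 := mul_le_mul_of_nonneg_left hd1' ha
  have h6 := mul_le_mul_of_nonneg_left hd0' hb
  linarith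

/-- `nef_special` for sections -/
theorem nefB {N z : Cl} (hk : k N = 0) (ht : 0 < t N) (hB : 0 ≤ B N N) (hn : ∀ i, 0 ≤ cn N i)
    {F : Pol} (hF : F ∈ Sec z) (h0 : F ≠ 0) : 0 ≤ B N z := by
  obtain ⟨ha, hb, hc⟩ := cone_ge hk ht hB
  have hab : ((ca N : ℤ) : ℝ) + (cb N : ℤ) = ∑ j, ((cc N j : ℤ) : ℝ) := by
    unfold k at hk
    have : ca N + cb N = ∑ j, cc N j := by linarith
    exact_mod_cast this
  have hq : ∑ i, ((cn N i : ℤ) : ℝ) ^ 2 ≤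
      2 * (((ca N : ℤ) : ℝ) * (cb N : ℤ) - ∑ j, ((cc N j : ℤ) : ℝ) ^ 2) := by
    have : ∑ i, cn N i ^ 2 ≤ 2 * (ca N * cb N - ∑ j, cc N j ^ 2) := by
      unfold B at hB
      simp only [Fin.sum_univ_five, Fin.sum_univ_four] at hB ⊢
      linarith
    exact_mod_cast this
  have h1 := nef_sec (ca N : ℝ) (cb N : ℝ) (fun j => (cc N j : ℝ)) (fun i => (cn N i : ℝ))
    (by exact_mod_cast (by omega : (0 : ℤ) ≤ ca N)) (by exact_mod_cast (by omega : (0 : ℤ) ≤ cb N))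
    (fun j => by exact_mod_cast hc j) (fun i => by exact_mod_cast hn i) hab hq hF h0
  have h2 : 2 * ∑ j, cc N j * cc z j + ∑ i, cn N i * cn z i ≤ ca N * cb z + cb N * ca z := by
    exact_mod_cast h1
  unfold B
  linarith

private theorem real_aux {S a b x y₁ y₂ y₃ y₄ : ℝ} (hS : a + b = S) (hS0 : 0 < S)
    (hx : x + y₁ + y₂ + y₃ + y₄ = S)
    (hq : x ^ 2 + y₁ ^ 2 + y₂ ^ 2 + y₃ ^ 2 + y₄ ^ 2 ≤ a * b) : 0 ≤ x := by
  by_contra hneg
  push Not at hneg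
  have h1 : 4 * (a * b) ≤ S ^ 2 := by
    rw [← hS]
    linarith [sq_nonneg (a - b)]
  have h2 : (S - x) ^ 2 ≤ 4 * (y₁ ^ 2 + y₂ ^ 2 + y₃ ^ 2 + y₄ ^ 2) := by
    have h3 : S - x = y₁ + y₂ + y₃ + y₄ := by linarith
    rw [h3]
    linarith [sq_nonneg (y₁ - y₂), sq_nonneg (y₁ - y₃), sq_nonneg (y₁ - y₄),
      sq_nonneg (y₂ - y₃), sq_nonneg (y₂ - y₄), sq_nonneg (y₃ - y₄)]
  have h3 : S * x < 0 := mul_neg_of_pos_of_neg hS0 hneg
  linarith [sq_nonneg x]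

private theorem real_cone {a b : ℝ} {c : Fin 5 → ℝ} {r : Fin 4 → ℝ} (hab : a + b = ∑ j, c j)
    (ht : 0 < a + b) (hq : ∑ i, r i ^ 2 ≤ 2 * (a * b - ∑ j, c j ^ 2)) :
    0 ≤ a ∧ 0 ≤ b ∧ ∀ j, 0 ≤ c j := by
  have h1 : 0 ≤ ∑ i, r i ^ 2 := Finset.sum_nonneg fun i _ => sq_nonneg _
  have h2 : 0 ≤ ∑ j, c j ^ 2 := Finset.sum_nonneg fun i _ => sq_nonneg _
  have h3 : ∑ j, c j ^ 2 ≤ a * b := by linarith
  have h4 : 0 ≤ a * b := h2.trans h3
  have ha : 0 ≤ a := by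
    by_contra hneg
    push Not at hneg
    have hb : 0 < b := by linarith
    have := mul_neg_of_neg_of_pos hneg hb
    linarith
  have hb : 0 ≤ b := by
    by_contra hneg
    push Not at hneg
    have ha' : 0 < a := by linarith
    have := mul_neg_of_pos_of_neg ha' hneg
    linarith
  refine ⟨ha, hb, fun j => ?_⟩
  simp only [Fin.sum_univ_five] at hab h3
  fin_cases j
  · exact real_aux (x := c 0) (y₁ := c 1) (y₂ := c 2) (y₃ := c 3) (y₄ := c 4) hab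
      (by rwa [← hab]) (by ring) (by linarith)
  · exact real_aux (x := c 1) (y₁ := c 0) (y₂ := c 2) (y₃ := c 3) (y₄ := c 4) hab
      (by rwa [← hab]) (by ring) (by linarith)
  · exact real_aux (x := c 2) (y₁ := c 0) (y₂ := c 1) (y₃ := c 3) (y₄ := c 4) hab
      (by rwa [← hab]) (by ring) (by linarith)
  · exact real_aux (x := c 3) (y₁ := c 0) (y₂ := c 1) (y₃ := c 2) (y₄ := c 4) hab
      (by rwa [← hab]) (by ring) (by linarith)
  · exact real_aux (x := c 4) (y₁ := c 0) (y₂ := c 1) (y₃ := c 2) (y₄ := c 3) hab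
      (by rwa [← hab]) (by ring) (by linarith)

/-- classes outside of the round cone have no sections. `N = M + κ C0 + λ (1,1;2/5;0)` (real
coefficients) with `λ > 0`, `B N N = 0`, in `nef_special` -/
theorem h_eq_zero {M : Cl} {κ : ℤ} (hk : k M = κ) (hn : ∀ i, 0 ≤ cn M i)
    (hB : B (M + κ • C0) (M + κ • C0) < 0) : h M = 0 := by
  unfold h
  rw [Int.natCast_eq_zero, Submodule.finrank_eq_zero, eq_bot_iff]
  intro F hF
  rw [Submodule.mem_bot]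
  by_contra h0
  -- real parameters
  obtain ⟨T, hT⟩ : ∃ T : ℝ, T = (ca M : ℝ) + cb M + 4 * κ := ⟨_, rfl⟩
  obtain ⟨q, hq⟩ : ∃ q : ℝ, q = -((B (M + κ • C0) (M + κ • C0) : ℤ) : ℝ) := ⟨_, rfl⟩
  have hq0 : 0 < q := by
    rw [hq]
    have : ((B (M + κ • C0) (M + κ • C0) : ℤ) : ℝ) < 0 := by exact_mod_cast hB
    linarith
  obtain ⟨l, hl0, hT2, hl⟩ : ∃ l : ℝ, 0 < l ∧ 0 < T + 2 * l ∧ 2 * (l ^ 2 + T * l) = 5 * q := by
    have h1 : |T| < √(T ^ 2 + 10 * q) := by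
      apply Real.lt_sqrt_of_sq_lt
      rw [sq_abs]
      linarith
    refine ⟨(√(T ^ 2 + 10 * q) - T) / 2, ?_, ?_, ?_⟩
    · have := le_abs_self T
      linarith
    · have := abs_nonneg T
      linarith
    · have h1 : √(T ^ 2 + 10 * q) ^ 2 = T ^ 2 + 10 * q := Real.sq_sqrt (by positivity)
      linear_combination (1 / 2 : ℝ) * h1
  have hkR : (ca M : ℝ) + cb M - ∑ j, (cc M j : ℝ) = κ := by
    unfold k at hk
    exact_mod_cast hk
  have hqR : -q = 2 * ((ca M : ℝ) + 2 * κ) * ((cb M : ℝ) + 2 * κ) -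
      2 * ∑ j, ((cc M j : ℝ) + κ) ^ 2 - ∑ i, (cn M i : ℝ) ^ 2 := by
    have : B (M + κ • C0) (M + κ • C0) = 2 * (ca M + 2 * κ) * (cb M + 2 * κ) -
      2 * ∑ j, (cc M j + κ) ^ 2 - ∑ i, cn M i ^ 2 := by
      unfold B
      simp only [Fin.sum_univ_five, Fin.sum_univ_four, ca_add, cb_add, cc_add, cn_add, ca_smul,
        cb_smul, cc_smul, cn_smul, ca_C0, cb_C0, cc_C0, cn_C0]
      ring
    rw [hq, this]
    push_cast
    ring
  have hab : ((ca M : ℝ) + 2 * κ + l) + ((cb M : ℝ) + 2 * κ + l) =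
      ∑ j, ((cc M j : ℝ) + κ + 2 / 5 * l) := by
    simp only [Fin.sum_univ_five] at hkR ⊢
    linarith
  have hqq : ∑ i, (cn M i : ℝ) ^ 2 ≤ 2 * (((ca M : ℝ) + 2 * κ + l) * ((cb M : ℝ) + 2 * κ + l) -
      ∑ j, ((cc M j : ℝ) + κ + 2 / 5 * l) ^ 2) := by
    apply le_of_eq
    simp only [Fin.sum_univ_five, Fin.sum_univ_four] at hkR hqR ⊢
    linear_combination hqR - (1 / 5 : ℝ) * hl - (8 / 5 * l : ℝ) * hkR + 2 / 5 * l * hT
  obtain ⟨p1, p2, p3⟩ := real_cone hab (by linarith) hqq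
  have h1 := nef_sec ((ca M : ℝ) + 2 * κ + l) ((cb M : ℝ) + 2 * κ + l)
    (fun j => (cc M j : ℝ) + κ + 2 / 5 * l) (fun i => (cn M i : ℝ)) p1 p2 p3
    (fun i => by exact_mod_cast hn i) hab hqq hF h0
  -- `B(N, M) = - λ t(N) / 5`
  have h2 : ((ca M : ℝ) + 2 * κ + l) * (cb M : ℝ) + ((cb M : ℝ) + 2 * κ + l) * (ca M : ℝ) -
      (2 * ∑ j, ((cc M j : ℝ) + κ + 2 / 5 * l) * (cc M j : ℝ) +
        ∑ i, (cn M i : ℝ) * (cn M i : ℝ)) = -(l * (T + 2 * l) / 5) := by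
    simp only [Fin.sum_univ_five, Fin.sum_univ_four] at hkR hqR ⊢
    linear_combination -hqR + (4 / 5 * l - 2 * κ : ℝ) * hkR - 1 / 5 * l * hT + (1 / 5 : ℝ) * hl
  have h3 : 0 < l * (T + 2 * l) / 5 := by positivity
  linarith

end Pool.Agent.Lib.MP_6b2d39_ag.Rc
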