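import Pool.Agent.Lib.MP_6b2d39_ag.Rc.Sec

/-!
ROUND (G3): Riemann-Roch inequality.
-/

open MvPolynomial

namespace Pool.Agent.Lib.MP_6b2d39_ag.Rc

open Pool.Agent.Lib.MP_ed661f_ag.E Pool.Agent.Lib.MP_ed661f_ag.R

private theorem rr_le {U : Type*} [AddCommGroup U] [Module ℂ U] [FiniteDimensional ℂ U]
    {V W : Submodule ℂ Pol} [FiniteDimensional ℂ V] [FiniteDimensional ℂ W] (φ : Pol →ₗ[ℂ] U)
    (hV : ∀ x ∈ V, φ x = 0 → x ∈ W) :
    Module.finrank ℂ V ≤ Module.finrank ℂ W + Module.finrank ℂ U := by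
  set κ : Submodule ℂ V := LinearMap.ker (φ.comp V.subtype) with hκ
  have hk : ∀ x : κ, (V.subtype.comp κ.subtype) x ∈ W := by
    intro x
    exact hV _ x.1.2 (LinearMap.mem_ker.mp x.2)
  have h1 : Module.finrank ℂ κ ≤ Module.finrank ℂ W := by
    refine LinearMap.finrank_le_finrank_of_injective
      (f := LinearMap.codRestrict W (V.subtype.comp κ.subtype) hk) ?_
    intro x y hxy
    have h2 := congrArg Subtype.val hxy
    exact Subtype.ext (Subtype.ext h2)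
  have h2 := LinearMap.finrank_range_add_finrank_ker (φ.comp V.subtype)
  have h3 := Submodule.finrank_le (LinearMap.range (φ.comp V.subtype))
  rw [← hκ] at h2
  omega

private theorem rr_pw {x y : ℕ} (h : Even (x + y)) : (-1 : ℂ) ^ x = (-1) ^ y := by
  have h1 : (-1 : ℂ) ^ x * (-1) ^ y = 1 := by
    rw [← pow_add]
    exact h.neg_one_pow
  have h2 : (-1 : ℂ) ^ y * (-1) ^ y = 1 := by
    rw [← pow_add]
    exact (Even.neg_one_pow ⟨y, rfl⟩)
  have h3 : (-1 : ℂ) ^ y ≠ 0 := pow_ne_zero _ (by norm_num)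
  exact mul_right_cancel₀ h3 (h1.trans h2.symm)

private theorem rr_sg {z : Cl} (hn : 0 ≤ cn z 0) :
    ((sg z : ℤ) : ℂ) = (-1) ^ (cn z 0).toNat := by
  unfold sg
  have h1 : ((cn z 0).toNat : ℤ) = cn z 0 := Int.toNat_of_nonneg hn
  split_ifs with h
  · rw [← h1, Int.even_coe_nat] at h
    rw [h.neg_one_pow]
    norm_num
  · rw [← h1, Int.even_coe_nat, Nat.not_even_iff_odd] at h
    rw [h.neg_one_pow]
    norm_num

private theorem rr_par {z : Cl} (hz : L z) (ha : 0 ≤ ca z) (hb : 0 ≤ cb z) (hn : ∀ i, 0 ≤ cn z i)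
    (i : Fin 4) : ((sg z : ℤ) : ℂ) * (Y0 i 0 ^ (ca z).toNat * Y0 i 1 ^ (cb z).toNat) =
      (-1) ^ (cn z i).toNat := by
  obtain ⟨g1, g2, g3⟩ := hz
  have e0 : ((cn z 0).toNat : ℤ) = cn z 0 := Int.toNat_of_nonneg (hn 0)
  have e1 : ((cn z 1).toNat : ℤ) = cn z 1 := Int.toNat_of_nonneg (hn 1)
  have e2 : ((cn z 2).toNat : ℤ) = cn z 2 := Int.toNat_of_nonneg (hn 2)
  have e3 : ((cn z 3).toNat : ℤ) = cn z 3 := Int.toNat_of_nonneg (hn 3)
  have ea : ((ca z).toNat : ℤ) = ca z := Int.toNat_of_nonneg ha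
  have eb : ((cb z).toNat : ℤ) = cb z := Int.toNat_of_nonneg hb
  rw [rr_sg (hn 0)]
  rw [Int.even_iff] at g1 g2 g3
  fin_cases i
  · simp [Y0]
  · simp only [Y0, Fin.mk_one, Matrix.cons_val_one, Matrix.cons_val_zero, one_pow, one_mul]
    rw [← pow_add]
    refine rr_pw ?_
    rw [Nat.even_iff]
    omega
  · simp only [Y0, Fin.reduceFinMk, Matrix.cons_val_one, Matrix.cons_val_zero, one_pow, mul_one,
      Matrix.cons_val]
    rw [← pow_add]
    refine rr_pw ?_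
    rw [Nat.even_iff]
    omega
  · simp only [Y0, Fin.reduceFinMk, Matrix.cons_val_one, Matrix.cons_val_zero, Matrix.cons_val]
    rw [← pow_add, ← pow_add]
    refine rr_pw ?_
    rw [Nat.even_iff]
    omega

/-- `finrank_S_ge`, `fix_conditions`, `pt_conditions` (with `m = c + 1`), `sum_fix` -/
theorem rr {z : Cl} (hz : L z) (ha : 0 ≤ ca z) (hb : 0 ≤ cb z) (hn : ∀ i, 0 ≤ cn z i)
    (hc : ∀ j, -1 ≤ cc z j) : 4 + B z z + 2 * k z ≤ 4 * h z := by
  have hpar := rr_par hz ha hb hn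
  have hfix := sum_fix (sg_cases z) (fun i => (cn z i).toNat) hpar
  have hS := finrank_S_ge (ca z).toNat (cb z).toNat (sg_cases z)
  choose φ hφ using fun j : Fin 5 => pt_conditions (cc z j + 1).toNat (P0 j)
  choose ψ hψ using fun i : Fin 4 => fix_conditions (A := (ca z).toNat) (B := (cb z).toNat)
    (s := ((sg z : ℤ) : ℂ)) i (hpar i)
  let Φ := (LinearMap.pi fun j : Fin 5 => φ j).prod (LinearMap.pi fun i : Fin 4 => ψ i)
  have hU : Module.finrank ℂ ((∀ j : Fin 5, Fin ((cc z j + 1).toNat * ((cc z j + 1).toNat - 1) / 2) → ℂ) ×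
      (∀ i : Fin 4, Fin ((cn z i).toNat ^ 2 / 4) → ℂ)) =
      ∑ j, (cc z j + 1).toNat * ((cc z j + 1).toNat - 1) / 2 + ∑ i, (cn z i).toNat ^ 2 / 4 := by
    rw [Module.finrank_prod, Module.finrank_pi_fintype, Module.finrank_pi_fintype]
    simp only [Module.finrank_fin_fun]
  have hle := rr_le (V := S (ca z).toNat (cb z).toNat ((sg z : ℤ) : ℂ)) (W := Sec z) Φ (by
    intro x hx h0
    rcases eq_or_ne x 0 with hx0 | hx0
    · rw [hx0]
      exact zero_mem _
    · have h1 := congrArg Prod.fst h0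
      have h2 := congrArg Prod.snd h0
      rw [mem_Sec hx0]
      refine ⟨ha, hb, hx, fun j => ?_, fun i => ?_⟩
      · have h3 := (le_mlt_iff hx0 _).mpr (hφ j x (congrFun h1 j))
        have h4 := hc j
        omega
      · have h3 := (le_mlt_iff hx0 _).mpr (hψ i x hx (congrFun h2 i))
        have h4 := hn i
        omega)
  rw [hU] at hle
  have hcj : ∀ j, 2 * (((cc z j + 1).toNat * ((cc z j + 1).toNat - 1) / 2 : ℕ) : ℤ) =
      cc z j ^ 2 + cc z j := by
    intro j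
    have h1 : 2 * ((cc z j + 1).toNat * ((cc z j + 1).toNat - 1) / 2) =
        (cc z j + 1).toNat * ((cc z j + 1).toNat - 1) :=
      Nat.mul_div_cancel' (Nat.even_mul_pred_self _).two_dvd
    have h2 : ((cc z j + 1).toNat : ℤ) = cc z j + 1 := Int.toNat_of_nonneg (by have := hc j; omega)
    rcases Nat.eq_zero_or_pos (cc z j + 1).toNat with h3 | h3
    · have h4 : cc z j = -1 := by
        rw [h3] at h2
        push_cast at h2
        omega
      rw [h3, h4]
      norm_num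
    · have h4 : (((cc z j + 1).toNat - 1 : ℕ) : ℤ) = cc z j := by omega
      calc 2 * (((cc z j + 1).toNat * ((cc z j + 1).toNat - 1) / 2 : ℕ) : ℤ)
          = ((2 * ((cc z j + 1).toNat * ((cc z j + 1).toNat - 1) / 2) : ℕ) : ℤ) := by push_cast; ring
        _ = (((cc z j + 1).toNat * ((cc z j + 1).toNat - 1) : ℕ) : ℤ) := by rw [h1]
        _ = (cc z j + 1) * cc z j := by rw [Nat.cast_mul, h2, h4]
        _ = cc z j ^ 2 + cc z j := by ring
  have hsum : 2 * ((∑ j, (cc z j + 1).toNat * ((cc z j + 1).toNat - 1) / 2 : ℕ) : ℤ) =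
      ∑ j, (cc z j ^ 2 + cc z j) := by
    rw [Nat.cast_sum, Finset.mul_sum]
    exact Finset.sum_congr rfl fun j _ => hcj j
  have hsq : ∑ i, (((cn z i).toNat : ℕ) : ℤ) ^ 2 = ∑ i, cn z i * cn z i :=
    Finset.sum_congr rfl fun i _ => by rw [Int.toNat_of_nonneg (hn i)]; ring
  have hsc : ∑ j, (cc z j ^ 2 + cc z j) = ∑ j, cc z j * cc z j + ∑ j, cc z j := by
    rw [← Finset.sum_add_distrib]
    exact Finset.sum_congr rfl fun j _ => by ring
  have ea : ((ca z).toNat : ℤ) = ca z := Int.toNat_of_nonneg ha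
  have eb : ((cb z).toNat : ℤ) = cb z := Int.toNat_of_nonneg hb
  have hle' : (Module.finrank ℂ (S (ca z).toNat (cb z).toNat ((sg z : ℤ) : ℂ)) : ℤ) ≤
      h z + (((∑ j, (cc z j + 1).toNat * ((cc z j + 1).toNat - 1) / 2 : ℕ) : ℤ) +
        ((∑ i, (cn z i).toNat ^ 2 / 4 : ℕ) : ℤ)) := by
    unfold h
    exact_mod_cast hle
  rw [hsq] at hfix
  rw [hsc] at hsum
  rw [ea, eb] at hS
  have hfix' : 4 * ((∑ i, (cn z i).toNat ^ 2 / 4 : ℕ) : ℤ) =
      ∑ i, cn z i * cn z i - 2 + 2 * tau (ca z).toNat (cb z).toNat (sg z) := by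
    rw [← hfix, Nat.cast_sum]
  unfold B k
  nlinarith [hle', hsum, hfix', hS]

end Pool.Agent.Lib.MP_6b2d39_ag.Rc
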