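import Pool.Agent.Lib.MP_6b2d39_ag.Rc.CostC
import Pool.Agent.Lib.MP_6b2d39_ag.Rc.RR
import Pool.Agent.Lib.MP_6b2d39_ag.Rc.NefB

/-!
ROUND (G5): the exceptional curve, from the existence and the numerical properties of orbits.
-/

open MvPolynomial

namespace Pool.Agent.Lib.MP_6b2d39_ag.Rc

open Pool.Agent.Lib.MP_ed661f_ag.E Pool.Agent.Lib.MP_ed661f_ag.R

/-- `nef_special` in integers -/
private theorem nef_int {W : Cl} (hk : k W = 0) (hB : 0 ≤ B W W) (ha : 0 ≤ ca W) (hb : 0 ≤ cb W)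
    {F : Pol} (hF : F ≠ 0) :
    ∑ j, cc W j * ((mlt (P0 j) F : ℤ) + mlt (P1 j) F) + ∑ i, cn W i * (mlt (Y0 i) F : ℤ) ≤
      ca W * F.degreeOf 1 + cb W * F.degreeOf 0 := by
  have h1 : (ca W : ℝ) + cb W = ∑ j, (cc W j : ℝ) := by
    unfold k at hk
    have h : ca W + cb W = ∑ j, cc W j := by linarith
    exact_mod_cast h
  have h2 : ∑ i, (cn W i : ℝ) ^ 2 ≤ 2 * ((ca W : ℝ) * cb W - ∑ j, (cc W j : ℝ) ^ 2) := by
    have h : ∑ i, cn W i ^ 2 ≤ 2 * (ca W * cb W - ∑ j, cc W j ^ 2) := by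
      unfold B at hB
      have e1 : ∑ j, cc W j ^ 2 = ∑ j, cc W j * cc W j :=
        Finset.sum_congr rfl fun j _ => sq (cc W j)
      have e2 : ∑ i, cn W i ^ 2 = ∑ i, cn W i * cn W i :=
        Finset.sum_congr rfl fun i _ => sq (cn W i)
      rw [e1, e2]
      nlinarith
    exact_mod_cast h
  have h3 := nef_special (ca W : ℝ) (cb W : ℝ) (fun j => (cc W j : ℝ)) (fun i => (cn W i : ℝ))
    (by exact_mod_cast ha) (by exact_mod_cast hb) h1 h2 hF
  exact_mod_cast h3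

private theorem mlt_X_tor {p : Pt} (hp : Tor p) (i : Fin 2) : mlt p (X i) = 0 := by
  by_contra h
  have h1 := (mlt_pos_iff (p := p) (X_ne_zero i)).1 (by omega)
  rw [eval_X] at h1
  fin_cases i
  · exact hp.1 h1
  · exact hp.2 h1

private theorem sg_ne (z : Cl) : ((sg z : ℤ) : ℂ) ≠ 0 := by
  rcases sg_cases z with h | h <;> rw [h] <;> simp

/-- the variables do not divide the sections of a class orthogonal to `W` -/
private theorem not_X {W z : Cl} (hW : Prim W) (hz : B W z ≤ 0) {F : Pol} (hF : F ∈ Sec z)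
    (h0 : F ≠ 0) (i : Fin 2) : ¬ (X i ∣ F) := by
  obtain ⟨hL, hk, hB, ht, hn, hmin⟩ := hW
  obtain ⟨ha, hb, hc⟩ := cone_ge hk ht hB.ge
  rintro ⟨G, rfl⟩
  have hG : G ≠ 0 := right_ne_zero_of_mul h0
  obtain ⟨hza, hzb, hS, hzc, hzn⟩ := (mem_Sec h0).1 hF
  have hdeg := mem_Box.1 (mem_S.1 hS).1
  have e0 : ∀ p : Pt, Tor p → mlt p (X i * G) = mlt p G := by
    intro p hp
    rw [mlt_mul (X_ne_zero i) hG, mlt_X_tor hp, zero_add]
  have e1 : ∀ j, mlt (P1 j) (X i * G) = mlt (P0 j) (X i * G) := fun j =>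
    mlt_semi hS h0 (sg_ne z) (tor_P0 j)
  have key := nef_int hk hB.ge (by linarith) (by linarith) hG
  have l1 : ∑ j, 2 * (cc W j * cc z j) ≤
      ∑ j, cc W j * ((mlt (P0 j) G : ℤ) + mlt (P1 j) G) := by
    refine Finset.sum_le_sum fun j _ => ?_
    have g1 := hzc j
    have g2 := e1 j
    rw [e0 _ (tor_P1 j), e0 _ (tor_P0 j)] at g2
    rw [e0 _ (tor_P0 j)] at g1
    rw [g2]
    nlinarith [hc j]
  have l2 : ∑ i, cn W i * cn z i ≤ ∑ i, cn W i * (mlt (Y0 i) G : ℤ) := by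
    refine Finset.sum_le_sum fun l _ => ?_
    have g1 := hzn l
    rw [e0 _ (tor_Y0 l)] at g1
    exact mul_le_mul_of_nonneg_left g1 (hn l)
  rw [← Finset.mul_sum] at l1
  have d0 := hdeg.1
  have d1 := hdeg.2
  rw [degreeOf_mul_eq (X_ne_zero i) hG, degreeOf_X] at d0 d1
  have hd : ca W * (G.degreeOf 1 : ℤ) + cb W * (G.degreeOf 0 : ℤ) + 2 ≤
      ca W * cb z + cb W * ca z := by
    have f0 : ((G.degreeOf 0 : ℕ) : ℤ) ≤ ca z - (if (0 : Fin 2) = i then 1 else 0) := by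
      split_ifs at d0 ⊢ <;> omega
    have f1 : ((G.degreeOf 1 : ℕ) : ℤ) ≤ cb z - (if (1 : Fin 2) = i then 1 else 0) := by
      split_ifs at d1 ⊢ <;> omega
    have g0 := mul_le_mul_of_nonneg_left f0 (by linarith : (0 : ℤ) ≤ cb W)
    have g1 := mul_le_mul_of_nonneg_left f1 (by linarith : (0 : ℤ) ≤ ca W)
    have hi : (if (0 : Fin 2) = i then (1 : ℤ) else 0) + (if (1 : Fin 2) = i then 1 else 0) = 1 := by
      fin_cases i <;> simp
    split_ifs at hi g0 g1 with h1 h2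
    · omega
    · linarith
    · linarith
    · omega
  unfold B at hz
  linarith

private theorem Sec_nonneg {z : Cl} {F : Pol} (hF : F ∈ Sec z) (h0 : F ≠ 0) : 0 ≤ ca z :=
  ((mem_Sec h0).1 hF).1

/-- (G5) -/
theorem exists_exc_of
    (hO : ∀ {A A' : ℕ} {s : ℤ}, (s = 1 ∨ s = -1) → ∀ {F : Pol}, F ≠ 0 → F ∈ S A A' (s : ℂ) →
      NoX F → ¬ (F.degreeOf 0 = 0 ∧ F.degreeOf 1 = 0) →
      ∃ (Z F1 : Pol) (s' : ℤ), (s' = 1 ∨ s' = -1) ∧ Orb Z F1 ∧ Z ≠ 0 ∧
        Z ∈ S (Z.degreeOf 0) (Z.degreeOf 1) (s' : ℂ) ∧ Z ∣ F)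
    (hN : ∀ {Z F1 : Pol} {s : ℤ}, (s = 1 ∨ s = -1) → Orb Z F1 → Z ≠ 0 →
      Z ∈ S (Z.degreeOf 0) (Z.degreeOf 1) (s : ℂ) → ¬ Q1 ∣ Z →
      L (cls Z) ∧ 1 ≤ k (cls Z) ∧ 2 * k (cls Z) - 4 ≤ B (cls Z) (cls Z))
    {W : Cl} (hW : Prim W) (hc : ∀ j, 1 ≤ cc W j) :
    ∃ (Z F1 : Pol) (s : ℤ), (s = 1 ∨ s = -1) ∧ Orb Z F1 ∧
      Z ∈ S (Z.degreeOf 0) (Z.degreeOf 1) (s : ℂ) ∧ cls Z = W - C0 := by
  classical
  have hWW := hW
  obtain ⟨hL, hk, hB, ht, hn, hmin⟩ := hW
  obtain ⟨ha, hb, -⟩ := cone_ge hk ht hB.ge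
  -- a nonzero section of `W - C0`
  have hone : ∃ F ∈ Sec (W - C0), F ≠ 0 := by
    have h1 := rr (hL.sub L_C0) (by simp only [ca_sub, ca_C0]; linarith)
      (by simp only [cb_sub, cb_C0]; linarith)
      (fun i => by simp only [cn_sub, cn_C0]; linarith [hn i])
      (fun j => by simp only [cc_sub, cc_C0]; linarith [hc j])
    have h2 : B (W - C0) (W - C0) = -2 := by
      rw [B_sub_left, B_sub_right, B_sub_right, B_C0, B_C0', B_C0, hB, hk, k_C0]
      norm_num
    rw [h2, k_sub, hk, k_C0] at h1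
    have h3 : 0 < h (W - C0) := by linarith
    have h4 : Sec (W - C0) ≠ ⊥ := by
      intro hbot
      unfold h at h3
      rw [hbot, finrank_bot] at h3
      simp at h3
    obtain ⟨F, hF, hF0⟩ := Submodule.exists_mem_ne_zero_of_ne_bot h4
    exact ⟨F, hF, hF0⟩
  -- remove `Q1 * Q2` as often as possible
  let P : ℕ → Prop := fun n => ∃ F ∈ Sec (W - ((n : ℤ) + 1) • C0), F ≠ 0
  have hP0 : P 0 := by
    obtain ⟨F, hF, hF0⟩ := hone
    refine ⟨F, ?_, hF0⟩
    simpa using hF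
  have hex : ∃ n, P n ∧ ¬ P (n + 1) := by
    by_contra hno
    push Not at hno
    have hall : ∀ n, P n := by
      intro n
      induction n with
      | zero => exact hP0
      | succ n ih => exact hno n ih
    obtain ⟨F, hF, hF0⟩ := hall (ca W).toNat
    have h1 := Sec_nonneg hF hF0
    simp only [ca_sub, ca_smul, ca_C0] at h1
    omega
  obtain ⟨n, ⟨F, hF, hF0⟩, hn1⟩ := hex
  set z := W - ((n : ℤ) + 1) • C0 with hz
  have hBz : B W z = 0 := by
    rw [hz, B_sub_right, B_smul_right, B_C0, hB, hk]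
    ring
  obtain ⟨hza, hzb, hS, hzc, hzn⟩ := (mem_Sec hF0).1 hF
  have hXF : NoX F := ⟨not_X hWW hBz.le hF hF0 0, not_X hWW hBz.le hF hF0 1⟩
  have hQF : ¬ Q1 ∣ F := by
    intro hd
    obtain ⟨H, hH⟩ := Q_dvd (sg_ne z) hS hd
    apply hn1
    have h1 := quot_mem_Sec (Or.inl rfl) Q_mem hF hF0 hH
    rw [cls_Q] at h1
    refine ⟨H, ?_, ?_⟩
    · have e : W - (((n + 1 : ℕ) : ℤ) + 1) • C0 = z - C0 := by
        rw [hz]
        push_cast
        rw [add_smul, one_smul, sub_sub]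
      rw [e]
      exact h1
    · rintro rfl
      exact hF0 (by rw [hH, mul_zero])
  have hnc : ¬ (F.degreeOf 0 = 0 ∧ F.degreeOf 1 = 0) := by
    rintro ⟨h0, h1⟩
    have hunit : IsUnit F := by
      have hF' : F = C (coeff 0 F) := by
        ext e
        rw [coeff_C]
        split_ifs with he
        · rw [he]
        · by_contra hne
          apply he
          have hm : e ∈ F.support := mem_support_iff.2 hne
          ext l
          have hl : e l ≤ F.degreeOf l := degreeOf_le_iff.1 le_rfl e hm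
          have hl0 : F.degreeOf l = 0 := by
            fin_cases l
            · exact h0
            · exact h1
          rw [Finsupp.coe_zero, Pi.zero_apply]
          omega
      rw [hF']
      refine (isUnit_iff_ne_zero.2 ?_).map C
      intro hco
      apply hF0
      rw [hF', hco, map_zero]
    have hm : ∀ p, mlt p F = 0 := fun p => mlt_unit hunit
    have hc' : ∀ j, cc z j ≤ 0 := fun j => by
      have := hzc j
      rw [hm] at this
      exact_mod_cast this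
    have hn' : ∀ i, cn z i ≤ 0 := fun i => by
      have := hzn i
      rw [hm] at this
      exact_mod_cast this
    have s1 : ∑ j, cc W j * cc z j ≤ ∑ j, cc z j := by
      refine Finset.sum_le_sum fun j _ => ?_
      nlinarith [hc j, hc' j]
    have s2 : ∑ i, cn W i * cn z i ≤ 0 :=
      Finset.sum_nonpos fun i _ => mul_nonpos_of_nonneg_of_nonpos (hn i) (hn' i)
    have s3 : k z = (n : ℤ) + 1 := by
      rw [hz, k_sub, k_smul, k_C0, hk]
      ring
    have s4 : ∑ j, cc z j ≤ 0 := Finset.sum_nonpos fun j _ => hc' j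
    have s5 := hBz
    unfold B at s5
    have s6 : 0 ≤ ca W * cb z := by
      apply mul_nonneg <;> linarith
    have s7 : 0 ≤ cb W * ca z := by
      apply mul_nonneg <;> linarith
    have s8 : ∑ j, cc z j = 0 := by linarith
    have s9 : ca W * cb z = 0 := by linarith
    have s10 : cb W * ca z = 0 := by linarith
    have s11 : cb z = 0 := by
      rcases mul_eq_zero.1 s9 with h | h
      · omega
      · exact h
    have s12 : ca z = 0 := by
      rcases mul_eq_zero.1 s10 with h | h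
      · omega
      · exact h
    unfold k at s3
    rw [s8, s11, s12] at s3
    omega
  obtain ⟨Z, F1, s, hs, hZF, hZ0, hZS, hZd⟩ := hO (sg_cases z) hF0 hS hXF hnc
  obtain ⟨gL, gk, gB⟩ := hN hs hZF hZ0 hZS fun h => hQF (h.trans hZd)
  obtain ⟨H, hH⟩ := hZd
  have hH0 : H ≠ 0 := by
    rintro rfl
    exact hF0 (by rw [hH, mul_zero])
  have hHS := quot_mem_Sec hs hZS hF hF0 hH
  have b1 : B W (cls Z) ≤ 0 := by
    have := nefB hk ht hB.ge hn hHS hH0
    rw [B_sub_right, hBz] at this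
    linarith
  have hZSec : Z ∈ Sec (cls Z) := by
    rw [mem_Sec hZ0]
    refine ⟨by simp, by simp, ?_, fun j => le_rfl, fun i => le_rfl⟩
    rw [(L_cls hs hZS hZ0).2]
    simpa using hZS
  have b2 : 0 ≤ B W (cls Z) := nefB hk ht hB.ge hn hZSec hZ0
  have b3 : B W (cls Z) = 0 := le_antisymm b1 b2
  -- degrees
  have hdeg := mem_Box.1 (mem_S.1 hS).1
  have t1 : t (cls Z) ≤ t z := by
    rw [hH, degreeOf_mul_eq hZ0 hH0, degreeOf_mul_eq hZ0 hH0] at hdeg
    unfold t
    rw [ca_cls, cb_cls]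
    omega
  have t2 : t z = t W - 4 * ((n : ℤ) + 1) := by
    rw [hz, t_sub, t_smul, t_C0]
    ring
  have t3 : 0 ≤ t (cls Z) := by
    unfold t
    rw [ca_cls, cb_cls]
    positivity
  set g := cls Z with hg
  set y := g + k g • C0 with hy
  have yk : k y = 0 := by
    rw [hy, k_add, k_smul, k_C0]
    ring
  have yB : B y y = B g g + 2 * k g ^ 2 := by
    rw [hy, B_add_left, B_add_right, B_add_right, B_smul_left, B_smul_right, B_smul_left,
      B_smul_right, B_C0, B_C0', B_C0, k_C0]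
    ring
  have yt : t y = t g + 4 * k g := by
    rw [hy, t_add, t_smul, t_C0]
    ring
  have yW : B y W = 0 := by
    rw [hy, B_add_left, B_smul_left, B_C0', hk, B_comm, b3]
    ring
  have yB0 : 0 ≤ B y y := by
    rw [yB]
    nlinarith
  have yt0 : 0 < t y := by
    rw [yt]
    linarith
  obtain ⟨p1, p2, -⟩ := lor_eq yt0 ht yB0 hB.ge yW.le
  have kg : k g = 1 := by
    rw [yB] at p2
    nlinarith
  have p3 := hmin y (gL.add (L_C0.smul _)) yk p2 yt0 p1
  have p4 : t y = t W := by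
    rw [yt, kg] at p3 ⊢
    have : (0 : ℤ) ≤ n := Int.natCast_nonneg n
    linarith
  have p5 : y = W := by
    rw [p4] at p1
    exact smul_right_injective Cl ht.ne' p1
  refine ⟨Z, F1, s, hs, hZF, hZS, ?_⟩
  rw [← hg, ← p5, hy, kg, one_smul, add_sub_cancel_right]

end Pool.Agent.Lib.MP_6b2d39_ag.Rc
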