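import Pool.Agent.Lib.MP_6b2d39_ag.Rc.CostOrb
import Pool.Agent.Lib.MP_6b2d39_ag.Rc.CostPt
import Pool.Agent.Lib.MP_6b2d39_ag.Rc.CostC

/-!
ROUND (G6), (G7): removing the exceptional curve of class `W - C0`; isotropic classes. The
existence of the exceptional curve is a hypothesis here.
-/

open MvPolynomial

namespace Pool.Agent.Lib.MP_6b2d39_ag.Rc

open Pool.Agent.Lib.MP_ed661f_ag.E Pool.Agent.Lib.MP_ed661f_ag.R

/-- removing the exceptional curve -/
theorem cost_exc_of {W : Cl} (hW : Prim W) (hexc : (∀ j, 1 ≤ cc W j) →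
    ∃ (Z F1 : Pol) (s : ℤ), (s = 1 ∨ s = -1) ∧ Orb Z F1 ∧
      Z ∈ S (Z.degreeOf 0) (Z.degreeOf 1) (s : ℂ) ∧ cls Z = W - C0)
    {z : Cl} (hz : L z) (hB : -2 ≤ B z (W - C0)) :
    2 * h z ≤ 2 * h (z - (W - C0)) + B z (W - C0) + 2 := by
  by_cases hc : ∀ j, 1 ≤ cc W j
  · obtain ⟨Z, F1, s, hs, hZF, hZ, hcl⟩ := hexc hc
    obtain ⟨m, hm⟩ := even_B hz (hW.1.sub L_C0)
    have h1 : ((m + 1).toNat : ℤ) = m + 1 := Int.toNat_of_nonneg (by omega)
    have h2 := cost_orb hs hZF hZ (z := z) (m + 1).toNat (by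
      rw [hcl, h1, hm]
      linarith)
    rw [hcl, h1] at h2
    rw [hm]
    linarith
  · push Not at hc
    obtain ⟨j, hj⟩ := hc
    have h1 : W = W0 j := hW.eq_W0 (by omega)
    have h2 : W - C0 = E0 j := by
      rw [h1, W0]
      exact add_sub_cancel_left _ _
    rw [h2, B_E0] at hB ⊢
    have h3 := cost_E z j (by linarith)
    linarith

/-- (G7) -/
theorem iso_of (hexc : ∀ W : Cl, Prim W → (∀ j, 1 ≤ cc W j) →
    ∃ (Z F1 : Pol) (s : ℤ), (s = 1 ∨ s = -1) ∧ Orb Z F1 ∧
      Z ∈ S (Z.degreeOf 0) (Z.degreeOf 1) (s : ℂ) ∧ cls Z = W - C0) :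
    ∀ (n : ℕ) (N : Cl), (t N).toNat ≤ n → L N → k N = 0 → 0 < t N → (∀ i, 0 ≤ cn N i) →
      B N N = 0 → h (N - C0) ≤ 1 := by
  intro n
  induction n with
  | zero =>
    intro N hn _ _ ht
    omega
  | succ n ih =>
    intro N hn hL hk ht hcn hB
    obtain ⟨W, hW, hWN, hWt⟩ := exists_prim_ray hL hk ht hcn hB
    have hcost : ∀ z : Cl, L z → -2 ≤ B z (W - C0) →
        2 * h z ≤ 2 * h (z - (W - C0)) + B z (W - C0) + 2 :=
      fun z hz hzB => cost_exc_of hW (hexc W hW) hz hzB
    obtain ⟨hWL, hWk, hWB, hWpos, hWcn, -⟩ := hW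
    have hNW : B N W = 0 := by
      have h1 := congrArg (fun y => B y W) hWN
      simp only [B_smul_left, hWB, mul_zero] at h1
      exact (mul_eq_zero.1 h1).resolve_left hWpos.ne'
    have hBz : B (N - C0) (W - C0) = -2 := by
      rw [B_sub_left, B_sub_right, B_sub_right, B_C0, B_C0, B_C0', hNW, hk, hWk, k_C0]
      ring
    have h1 := hcost (N - C0) (hL.sub L_C0) (by rw [hBz])
    rw [hBz] at h1
    have h2 : N - C0 - (W - C0) = N - W := by abel
    rw [h2] at h1
    have h3 : h (N - W) ≤ 1 := by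
      rcases eq_or_lt_of_le hWt with h4 | h4
      · have h5 : N = W := by
          rw [← h4] at hWN
          exact smul_right_injective Cl hWpos.ne' hWN
        rw [h5, sub_self, h_zero]
      · have ht' : 0 < t (N - W) := by
          rw [t_sub]
          linarith
        have hk' : k (N - W) = 0 := by
          rw [k_sub, hk, hWk, sub_zero]
        have hcn' : ∀ i, 0 ≤ cn (N - W) i := by
          intro i
          have h5 := congrFun (congrArg cn hWN) i
          simp only [cn_smul] at h5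
          rw [cn_sub]
          have h6 : t W * (cn N i - cn W i) = (t N - t W) * cn W i := by
            linear_combination h5
          have h7 : 0 ≤ t W * (cn N i - cn W i) := by
            rw [h6]
            exact mul_nonneg (by linarith) (hWcn i)
          exact nonneg_of_mul_nonneg_right h7 hWpos
        have hB' : B (N - W) (N - W) = 0 := by
          rw [B_sub_left, B_sub_right, B_sub_right, hB, hWB, hNW, B_comm W N, hNW]
          ring
        have h5 := ih (N - W) (by
          rw [t_sub]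
          omega) (hL.sub hWL) hk' ht' hcn' hB'
        exact (cost_period hk'.le ht').trans h5
    linarith

end Pool.Agent.Lib.MP_6b2d39_ag.Rc
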