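import Pool.Agent.Lib.MP_6b2d39_ag.Rc.CostOrb
import Pool.Agent.Lib.MP_6b2d39_ag.Rc.CostPt
import Pool.Agent.Lib.MP_6b2d39_ag.Rc.CostC
import Pool.Agent.Lib.MP_6b2d39_ag.Rc.RR
import Pool.Agent.Lib.MP_6b2d39_ag.Rc.NefB
import Pool.Agent.Lib.MP_6b2d39_ag.Rc.ExcB
import Pool.Agent.Lib.MP_6b2d39_ag.Rc.ExcC

/-!
ROUND (G5), (G6): the exceptional curve of class `W - C0`, `W` primitive isotropic.
-/

open MvPolynomial

namespace Pool.Agent.Lib.MP_6b2d39_ag.Rc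

open Pool.Agent.Lib.MP_ed661f_ag.E Pool.Agent.Lib.MP_ed661f_ag.R

/-- the irreducible factors give orbits -/
private theorem exc_orbit {F1 : Pol} (h1 : Irreducible F1) (hX : NoX F1) :
    ∃ (Z : Pol) (s' : ℤ), (s' = 1 ∨ s' = -1) ∧ Orb Z F1 ∧ Z ≠ 0 ∧
      Z ∈ S (Z.degreeOf 0) (Z.degreeOf 1) (s' : ℂ) ∧ F1 ∣ Z := by
  obtain ⟨F', hF'⟩ : ∃ F', F' = rev (F1.degreeOf 0) (F1.degreeOf 1) F1 := ⟨_, rfl⟩
  have hF0 := h1.ne_zero
  have hbox : F1 ∈ Box (F1.degreeOf 0) (F1.degreeOf 1) := self_mem_Box F1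
  have hrr : rev (F1.degreeOf 0) (F1.degreeOf 1) F' = F1 := by rw [hF']; exact rev_rev hbox
  have hF'0 : F' ≠ 0 := by
    rw [hF']
    exact rev_ne_zero hbox hF0
  have hF'deg : ∀ i, F'.degreeOf i = F1.degreeOf i := by
    intro i
    rw [hF']
    exact degreeOf_rev hX i
  by_cases hFF : Associated F1 F'
  · obtain ⟨u, hu⟩ := hFF
    obtain ⟨v, hv, hv'⟩ := MvPolynomial.isUnit_iff_eq_C_of_isReduced.1 u.isUnit
    have e1 : rev (F1.degreeOf 0) (F1.degreeOf 1) F1 = C v * F1 := by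
      rw [← hF', ← hu, hv', mul_comm]
    have e2 : C (v * v) * F1 = F1 := by
      conv_rhs => rw [← hrr, hF', e1, rev_C_mul, e1, ← mul_assoc, ← C_mul]
    have e3 : v * v = 1 := by
      have : C (v * v) * F1 = C 1 * F1 := by rw [e2, C_1, one_mul]
      exact C_injective _ _ (mul_right_cancel₀ hF0 this)
    have e4 : v = 1 ∨ v = -1 := by
      have : (v - 1) * (v + 1) = 0 := by linear_combination e3
      rcases mul_eq_zero.1 this with h | h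
      · left; linear_combination h
      · right; linear_combination h
    obtain ⟨s, hs, hsv⟩ : ∃ s : ℤ, (s = 1 ∨ s = -1) ∧ (s : ℂ) = v := by
      rcases e4 with h | h
      · exact ⟨1, Or.inl rfl, by rw [h]; simp⟩
      · exact ⟨-1, Or.inr rfl, by rw [h]; simp⟩
    refine ⟨F1, s, hs, ⟨h1, hX, Or.inl rfl⟩, hF0, ?_, dvd_rfl⟩
    rw [mem_S]
    refine ⟨hbox, ?_⟩
    rw [hsv, smul_eq_C_mul]
    exact e1
  · have hZ0 : F1 * F' ≠ 0 := mul_ne_zero hF0 hF'0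
    have hZd : ∀ i, (F1 * F').degreeOf i = F1.degreeOf i + F1.degreeOf i := by
      intro i
      rw [degreeOf_mul_eq hF0 hF'0, hF'deg]
    have hbox' : F' ∈ Box (F1.degreeOf 0) (F1.degreeOf 1) := by
      rw [hF']
      exact rev_mem _
    refine ⟨F1 * F', 1, Or.inl rfl, ⟨h1, hX, Or.inr ⟨by rw [hF'], by rwa [← hF']⟩⟩, hZ0, ?_,
      dvd_mul_right _ _⟩
    rw [mem_S]
    refine ⟨self_mem_Box _, ?_⟩
    rw [hZd, hZd, rev_mul hbox hbox', hrr, ← hF', Int.cast_one, one_smul, mul_comm]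

/-- an orbit dividing a semi-invariant which is not constant and not divisible by the variables -/
theorem exists_orbit {A A' : ℕ} {s : ℤ} (hs : s = 1 ∨ s = -1) {F : Pol} (hF0 : F ≠ 0)
    (hF : F ∈ S A A' (s : ℂ)) (hX : NoX F) (hc : ¬ (F.degreeOf 0 = 0 ∧ F.degreeOf 1 = 0)) :
    ∃ (Z F1 : Pol) (s' : ℤ), (s' = 1 ∨ s' = -1) ∧ Orb Z F1 ∧ Z ≠ 0 ∧
      Z ∈ S (Z.degreeOf 0) (Z.degreeOf 1) (s' : ℂ) ∧ Z ∣ F := by
  have hu : ¬ IsUnit F := by
    intro hu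
    obtain ⟨v, -, hv⟩ := MvPolynomial.isUnit_iff_eq_C_of_isReduced.1 hu
    apply hc
    rw [hv]
    exact ⟨degreeOf_C _ _, degreeOf_C _ _⟩
  obtain ⟨F1, h1, h2⟩ := WfDvdMonoid.exists_irreducible_factor hu hF0
  have hX1 : NoX F1 := ⟨fun h => hX.1 (h.trans h2), fun h => hX.2 (h.trans h2)⟩
  obtain ⟨Z, s', hs', hO, hZ0, hZ, h3⟩ := exc_orbit h1 hX1
  have c1 : (s : ℂ) ≠ 0 := by rcases hs with rfl | rfl <;> simp
  have c2 : (s' : ℂ) ≠ 0 := by rcases hs' with rfl | rfl <;> simp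
  exact ⟨Z, F1, s', hs', hO, hZ0, hZ, dvd_of_common hO c1 hZ c2 hF fun h => h1.not_isUnit (h h3 h2)⟩

/-- numerical properties of orbits different from `Q1 * Q2`: `period` and `adj` -/
theorem orbit_num {Z F1 : Pol} {s : ℤ} (hs : s = 1 ∨ s = -1) (hZF : Orb Z F1) (hZ0 : Z ≠ 0)
    (hZ : Z ∈ S (Z.degreeOf 0) (Z.degreeOf 1) (s : ℂ)) (hQ : ¬ Q1 ∣ Z) :
    L (cls Z) ∧ 1 ≤ k (cls Z) ∧ 2 * k (cls Z) - 4 ≤ B (cls Z) (cls Z) := by
  classical
  refine ⟨(L_cls hs hZ hZ0).1, ?_, ?_⟩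
  · have hrel : IsRelPrime Z Q1 := by
      rw [isRelPrime_comm, irreducible_Q1.isRelPrime_iff_not_dvd]
      exact hQ
    have hs' : (s : ℂ) = 1 ∨ (s : ℂ) = -1 := by
      rcases hs with rfl | rfl <;> simp
    obtain ⟨hp1, hp2⟩ := period hs' hZ0 hZ hrel
    have hnc : ¬ (Z.degreeOf 0 = 0 ∧ Z.degreeOf 1 = 0) := by
      rintro ⟨d0, d1⟩
      have hdvd : F1 ∣ Z := by
        rcases hZF.2.2 with h | ⟨h, -⟩
        · rw [h]
        · rw [h]
          exact dvd_mul_right _ _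
      obtain ⟨H, hH⟩ := hdvd
      have hH0 : H ≠ 0 := by
        rintro rfl
        rw [mul_zero] at hH
        exact hZ0 hH
      have g0 := degreeOf_mul_eq (n := (0 : Fin 2)) hZF.1.ne_zero hH0
      have g1 := degreeOf_mul_eq (n := (1 : Fin 2)) hZF.1.ne_zero hH0
      rw [← hH] at g0 g1
      exact not_const_of_irreducible hZF.1 ⟨by omega, by omega⟩
    have hk : ∑ j, mlt (P0 j) Z + 1 ≤ Z.degreeOf 0 + Z.degreeOf 1 := by
      rcases Nat.lt_or_ge (∑ j, mlt (P0 j) Z) (Z.degreeOf 0 + Z.degreeOf 1) with h | h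
      · omega
      · exact absurd (hp2 (le_antisymm hp1 h)) hnc
    have hk' : (∑ j, (mlt (P0 j) Z : ℤ)) + 1 ≤ Z.degreeOf 0 + Z.degreeOf 1 := by exact_mod_cast hk
    unfold k
    simp only [ca_cls, cb_cls, cc_cls]
    linarith
  · have hadj := adj hs hZF hZ (Finset.univ.image P0) (by
      intro p hp
      obtain ⟨j, -, rfl⟩ := Finset.mem_image.1 hp
      exact tor_P0 j) (by
      intro p hp q hq
      obtain ⟨i, -, rfl⟩ := Finset.mem_image.1 hp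
      obtain ⟨j, -, rfl⟩ := Finset.mem_image.1 hq
      exact inv_P0_ne i j)
    rw [Finset.sum_image (fun i _ j _ h => P0_injective h),
      Finset.sum_image (fun i _ j _ h => P0_injective h)] at hadj
    unfold B k
    simp only [ca_cls, cb_cls, cc_cls, cn_cls]
    simp only [pow_two] at hadj
    linarith

/-- the exceptional curve -/
theorem exists_exc {W : Cl} (hW : Prim W) (hc : ∀ j, 1 ≤ cc W j) :
    ∃ (Z F1 : Pol) (s : ℤ), (s = 1 ∨ s = -1) ∧ Orb Z F1 ∧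
      Z ∈ S (Z.degreeOf 0) (Z.degreeOf 1) (s : ℂ) ∧ cls Z = W - C0 :=
  exists_exc_of @exists_orbit @orbit_num hW hc

/-- removing the exceptional curve -/
theorem cost_exc {W : Cl} (hW : Prim W) {z : Cl} (hz : L z) (hB : -2 ≤ B z (W - C0)) :
    2 * h z ≤ 2 * h (z - (W - C0)) + B z (W - C0) + 2 :=
  cost_exc_of hW (fun hc => exists_exc hW hc) hz hB

/-- (G7) -/
theorem iso {N : Cl} (hL : L N) (hk : k N = 0) (ht : 0 < t N) (hn : ∀ i, 0 ≤ cn N i)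
    (hB : B N N = 0) : h (N - C0) ≤ 1 :=
  iso_of (fun _ hW hc => exists_exc hW hc) _ N le_rfl hL hk ht hn hB

end Pool.Agent.Lib.MP_6b2d39_ag.Rc
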