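import Pool.Agent.Lib.MP_6b2d39_ag.Rc.Plane
import Pool.Agent.Lib.MP_6b2d39_ag.Rc.Dom

/-!
ROUND: the theorem.
-/

open MvPolynomial

namespace Pool.Agent.Lib.MP_6b2d39_ag.Rc

open Pool.Agent.Lib.MP_6b2d39_agCr

theorem round_family (p q s : ℕ) (c n : Fin 4 → ℕ) {κ : ℕ} (hκ : p + q + s = ∑ j, c j + κ)
    (hκ2 : κ ≤ 2) {v E : ℤ} (hv : v = vd (p + q + s) (mm p q s c n))
    (hE : E = (-1) ^ n 0 * (2 * n 0 + 1) + (-1) ^ (q + s + n 1) * (2 * n 1 + 1) +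
      (-1) ^ (p + s + n 2) * (2 * n 2 + 1) + (-1) ^ (p + q + n 3) * (2 * n 3 + 1))
    (h1 : |E| ≤ 4 * |v|) (h2 : κ = 2 → |E| = 4 * |v| → ∀ g : ℕ, g ∣ p + 2 → g ∣ q + 2 →
      g ∣ s + 2 → (∀ j, g ∣ c j + 2) →
      (∃ e : ℤ, (e = 1 ∨ e = -1) ∧ ∀ i, (g : ℤ) ∣ up (p + s) (q + s) e n i) → g = 1) :
    General (fun P => (Module.finrank ℂ (curves (p + q + s) (mm p q s c n) P) : ℤ) =
      max (vd (p + q + s) (mm p q s c n)) 0) := by
  have hEE : EE (p + s) (q + s) n = E := by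
    rw [hE]
    unfold EE
    rw [Fin.sum_univ_four]
    have e0 : ep (p + s) (q + s) 0 = 1 := rfl
    have e1 : ep (p + s) (q + s) 1 = (-1) ^ (q + s) := rfl
    have e2 : ep (p + s) (q + s) 2 = (-1) ^ (p + s) := rfl
    have e3 : ep (p + s) (q + s) 3 = (-1) ^ (p + q) := by
      have h : ep (p + s) (q + s) 3 = (-1) ^ ((p + s) + (q + s)) := rfl
      rw [h, show (p + s) + (q + s) = (p + q) + 2 * s by ring, pow_add, pow_mul, neg_one_sq,
        one_pow, mul_one]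
    rw [e0, e1, e2, e3, one_mul, ← pow_add, ← pow_add, ← pow_add]
  apply general_nonspecial_of_le PP
  refine (Int.ofNat_le.mpr (finrank_plane_le p q s c n)).trans ?_
  rw [vd_eq] at hv ⊢
  refine finrank_V_le (p + s) (q + s) (Fin.cons s c) n (κ := κ) ?_ hκ2 ?_ ?_
  · rw [Fin.sum_univ_succ]
    simp only [Fin.cons_zero, Fin.cons_succ]
    omega
  · rw [hEE, ← hv]
    exact h1
  · rw [hEE, ← hv]
    intro hk he g g1 g2 g3 g6
    have g4 : g ∣ s + 2 := g3 0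
    have g5 : ∀ j : Fin 4, g ∣ c j + 2 := fun j => g3 j.succ
    refine h2 hk he g ?_ ?_ g4 g5 g6
    · have : p + s + 4 = (p + 2) + (s + 2) := by ring
      rw [this] at g1
      exact (Nat.dvd_add_left g4).1 g1
    · have : q + s + 4 = (q + 2) + (s + 2) := by ring
      rw [this] at g2
      exact (Nat.dvd_add_left g4).1 g2

theorem round_empty (p q s : ℕ) (c n : Fin 4 → ℕ) {κ : ℤ}
    (hκ : ((p + q + s : ℕ) : ℤ) = ∑ j, (c j : ℤ) + κ)
    {v E : ℤ} (hv : v = vd (p + q + s) (mm p q s c n))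
    (hE : E = (-1) ^ n 0 * (2 * n 0 + 1) + (-1) ^ (q + s + n 1) * (2 * n 1 + 1) +
      (-1) ^ (p + s + n 2) * (2 * n 2 + 1) + (-1) ^ (p + q + n 3) * (2 * n 3 + 1))
    (h1 : 4 * v + |E| < 8 + 4 * κ - 4 * κ ^ 2) :
    General (fun P => (Module.finrank ℂ (curves (p + q + s) (mm p q s c n) P) : ℤ) =
      max (vd (p + q + s) (mm p q s c n)) 0) := by
  have hEE : EE (p + s) (q + s) n = E := by
    rw [hE]
    unfold EE
    rw [Fin.sum_univ_four]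
    have e0 : ep (p + s) (q + s) 0 = 1 := rfl
    have e1 : ep (p + s) (q + s) 1 = (-1) ^ (q + s) := rfl
    have e2 : ep (p + s) (q + s) 2 = (-1) ^ (p + s) := rfl
    have e3 : ep (p + s) (q + s) 3 = (-1) ^ (p + q) := by
      have h : ep (p + s) (q + s) 3 = (-1) ^ ((p + s) + (q + s)) := rfl
      rw [h, show (p + s) + (q + s) = (p + q) + 2 * s by ring, pow_add, pow_mul, neg_one_sq,
        one_pow, mul_one]
    rw [e0, e1, e2, e3, one_mul, ← pow_add, ← pow_add, ← pow_add]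
  apply general_nonspecial_of_le PP
  refine (Int.ofNat_le.mpr (finrank_plane_le p q s c n)).trans ?_
  rw [vd_eq] at hv
  have h2 : Module.finrank ℂ (V (p + s) (q + s) (Fin.cons s c) n) = 0 := by
    refine finrank_V_zero (p + s) (q + s) (Fin.cons s c) n (κ := κ) ?_ ?_
    · rw [Fin.sum_univ_succ]
      simp only [Fin.cons_zero, Fin.cons_succ]
      push_cast at hκ ⊢
      linarith
    · rw [hEE, ← hv]
      exact h1
  rw [h2]
  exact le_max_right _ _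

theorem round_main (p q s : ℕ) (c n : Fin 4 → ℕ) {κ : ℕ} (hκ : p + q + s = ∑ j, c j + κ)
    (hκ2 : κ ≤ 2) {v E : ℤ} (hv : v = vd (p + q + s) (mm p q s c n))
    (hE : E = (-1) ^ n 0 * (2 * n 0 + 1) + (-1) ^ (q + s + n 1) * (2 * n 1 + 1) +
      (-1) ^ (p + s + n 2) * (2 * n 2 + 1) + (-1) ^ (p + q + n 3) * (2 * n 3 + 1))
    (h1 : |E| ≤ 4 * |v|) (h2 : κ = 2 → |E| = 4 * |v| → ∀ g : ℕ, g ∣ p + 2 → g ∣ q + 2 →
      g ∣ s + 2 → (∀ j, g ∣ c j + 2) →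
      (∃ e : ℤ, (e = 1 ∨ e = -1) ∧ ∀ i, (g : ℤ) ∣ up (p + s) (q + s) e n i) → g = 1) (m : Fin 15 → ℕ)
    (hm : (0 ≤ v ∧ ∀ i, m i ≤ mm p q s c n i) ∨ (v ≤ 0 ∧ ∀ i, mm p q s c n i ≤ m i)) :
    General (fun P => (Module.finrank ℂ (curves (p + q + s) m P) : ℤ) =
      max (vd (p + q + s) m) 0) := by
  have h := round_family p q s c n hκ hκ2 hv hE h1 h2
  rcases hm with ⟨h3, h4⟩ | ⟨h3, h4⟩
  · exact dom_regular _ h4 (by rw [← hv]; exact h3) h
  · exact dom_empty _ h4 (by rw [← hv]; exact h3) h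

end Pool.Agent.Lib.MP_6b2d39_ag.Rc
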