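import Pool.Agent.Lib.MP_6b2d39_ag.Rc.Num

/-!
ROUND, the lattice lemma (N3): the hyperbolic lattice `k = 0` has, below every vector of
square at least two, an isotropic vector `W` with `2 M W ≤ M M`.
First the unimodular coordinates `(alpha, beta; m_1..m_9)`, then the coordinates of the
orbit classes.
-/

namespace Pool.Agent.Lib.MP_6b2d39_ag.Rc

/-- the end of the reduction: in the chamber the square is at least `m_9 ^ 2` -/
theorem lat_end {α β m0 m1 m2 m3 m4 m5 m6 m7 m8 : ℤ}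
    (h01 : m1 ≤ m0) (h12 : m2 ≤ m1) (h23 : m3 ≤ m2) (h34 : m4 ≤ m3) (h45 : m5 ≤ m4)
    (h56 : m6 ≤ m5) (h67 : m7 ≤ m6) (h78 : m8 ≤ m7) (h8 : 0 ≤ m8)
    (hab : β ≤ α) (hb : m0 + m1 ≤ β)
    (hk : 2 * (α + β) = m0 + m1 + m2 + m3 + m4 + m5 + m6 + m7 + m8) :
    m8 ^ 2 ≤ 2 * α * β - (m0 ^ 2 + m1 ^ 2 + m2 ^ 2 + m3 ^ 2 + m4 ^ 2 + m5 ^ 2 + m6 ^ 2 + m7 ^ 2
      + m8 ^ 2) := by
  have hq : ∀ x : ℤ, m8 ≤ x → x ≤ m1 → x ^ 2 ≤ (m1 + m8) * x - m1 * m8 := by
    intro x h1 h2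
    nlinarith [mul_nonneg (sub_nonneg.2 h1) (sub_nonneg.2 h2)]
  have e2 := hq m2 (by linarith) (by linarith)
  have e3 := hq m3 (by linarith) (by linarith)
  have e4 := hq m4 (by linarith) (by linarith)
  have e5 := hq m5 (by linarith) (by linarith)
  have e6 := hq m6 (by linarith) (by linarith)
  have e7 := hq m7 (by linarith) (by linarith)
  -- 2 α β ≥ (m0 + m1) (T - m0 - m1)
  have hT : 3 * (m0 + m1) ≤ m2 + m3 + m4 + m5 + m6 + m7 + m8 := by linarith
  have hprod : (m0 + m1) * (m2 + m3 + m4 + m5 + m6 + m7 + m8 - m0 - m1) ≤ 2 * α * β := by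
    have h1 : 0 ≤ (β - (m0 + m1)) * (α - (m0 + m1)) :=
      mul_nonneg (by linarith) (by linarith)
    have h2 : m2 + m3 + m4 + m5 + m6 + m7 + m8 = 2 * (α + β) - (m0 + m1) := by linarith
    rw [h2]
    nlinarith [h1]
  have hTm : 3 * (m0 + m1) * (m0 - m8)
      ≤ (m2 + m3 + m4 + m5 + m6 + m7 + m8) * (m0 - m8) :=
    mul_le_mul_of_nonneg_right hT (by linarith)
  have hf1 : 0 ≤ (m0 - m1) * (m0 + 2 * m1 - 3 * m8) :=
    mul_nonneg (by linarith) (by linarith)
  have hf2 : 0 ≤ m8 * (m1 - m8) := mul_nonneg h8 (by linarith)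
  nlinarith [e2, e3, e4, e5, e6, e7, hprod, hTm, hf1, hf2]

/-- a light-cone inequality in the unimodular coordinates -/
theorem lat_two {α β x y : ℤ} (h0 : 0 < α + β) (h : x ^ 2 + y ^ 2 ≤ 2 * α * β) :
    x + y < α + 2 * β := by
  have hab : 0 ≤ α * β := by nlinarith [sq_nonneg x, sq_nonneg y]
  have ha : 0 ≤ α := by
    by_contra hc
    push Not at hc
    have : 0 < β := by linarith
    nlinarith
  have hb : 0 ≤ β := by
    by_contra hc
    push Not at hc
    have : 0 < α := by linarith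
    nlinarith
  by_contra hc
  push Not at hc
  have h1 : (x + y) ^ 2 ≤ 4 * (α * β) := by nlinarith [sq_nonneg (x - y)]
  have h2 : (α + 2 * β) ^ 2 ≤ (x + y) ^ 2 := by
    apply pow_le_pow_left₀ (by linarith) hc
  have h3 : α ^ 2 + 4 * β ^ 2 ≤ 0 := by nlinarith
  have h4 : α = 0 := by nlinarith [sq_nonneg α, sq_nonneg β]
  have h5 : β = 0 := by nlinarith [sq_nonneg α, sq_nonneg β]
  rw [h4, h5] at h0
  simp at h0

/-- the pairing in the unimodular coordinates -/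
def lpair (α β : ℤ) (m : Fin 9 → ℤ) (α' β' : ℤ) (m' : Fin 9 → ℤ) : ℤ :=
  α * β' + α' * β - ∑ i, m i * m' i

/-- the conclusion of the lattice lemma -/
def LGood (α β : ℤ) (m : Fin 9 → ℤ) : Prop :=
  ∃ (α' β' : ℤ) (m' : Fin 9 → ℤ), 0 < α' + β' ∧ 2 * (α' + β') = ∑ i, m' i ∧
    2 * α' * β' = ∑ i, m' i ^ 2 ∧ 2 * lpair α β m α' β' m' ≤ 2 * α * β - ∑ i, m i ^ 2

theorem LGood.swap {α β : ℤ} {m : Fin 9 → ℤ} (h : LGood β α m) : LGood α β m := by
  obtain ⟨α', β', m', h1, h2, h3, h4⟩ := h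
  refine ⟨β', α', m', by linarith, by linarith, by linarith, ?_⟩
  unfold lpair at h4 ⊢
  linarith

theorem LGood.perm {α β : ℤ} {m : Fin 9 → ℤ} (σ : Equiv.Perm (Fin 9))
    (h : LGood α β (fun i => m (σ i))) : LGood α β m := by
  obtain ⟨α', β', m', h1, h2, h3, h4⟩ := h
  refine ⟨α', β', fun i => m' (σ.symm i), h1, ?_, ?_, ?_⟩
  · rw [h2]
    exact (Equiv.sum_comp σ.symm m').symm
  · rw [h3]
    exact (Equiv.sum_comp σ.symm (fun i => m' i ^ 2)).symm
  · unfold lpair at h4 ⊢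
    have e1 : ∑ i, m i * m' (σ.symm i) = ∑ i, m (σ i) * m' i := by
      rw [← Equiv.sum_comp σ (fun i => m i * m' (σ.symm i))]
      simp
    have e2 : ∑ i, m i ^ 2 = ∑ i, m (σ i) ^ 2 :=
      (Equiv.sum_comp σ (fun i => m i ^ 2)).symm
    rw [e1, e2]
    exact h4

/-- the reflection in `(1,0;1,1,0,..)` -/
theorem LGood.refl {α β : ℤ} {m : Fin 9 → ℤ}
    (h : LGood (α + β - m 0 - m 1) β
      ![β - m 1, β - m 0, m 2, m 3, m 4, m 5, m 6, m 7, m 8]) : LGood α β m := by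
  obtain ⟨α', β', m', h1, h2, h3, h4⟩ := h
  have hs : m' 0 ^ 2 + m' 1 ^ 2 ≤ 2 * α' * β' := by
    rw [h3]
    simp only [Fin.sum_univ_succ, Fin.sum_univ_zero]
    simp
    nlinarith [sq_nonneg (m' 2), sq_nonneg (m' 3), sq_nonneg (m' 4), sq_nonneg (m' 5),
      sq_nonneg (m' 6), sq_nonneg (m' 7), sq_nonneg (m' 8)]
  have hpos := lat_two h1 hs
  refine ⟨α' + β' - m' 0 - m' 1, β',
    ![β' - m' 1, β' - m' 0, m' 2, m' 3, m' 4, m' 5, m' 6, m' 7, m' 8], by linarith, ?_, ?_, ?_⟩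
  · simp [Fin.sum_univ_succ] at h2 ⊢
    linarith
  · simp [Fin.sum_univ_succ] at h3 ⊢
    linarith
  · unfold lpair at h4 ⊢
    simp [Fin.sum_univ_succ] at h4 ⊢
    linarith

/-- the positive isotropic vector `(2,2;1^8,0)` -/
theorem lat_base {α β : ℤ} {m : Fin 9 → ℤ} (ha : 0 < α) (hb : 0 < β)
    (hm : ∀ i j : Fin 9, i ≤ j → m j ≤ m i) (hab : β ≤ α) (hb2 : m 0 + m 1 ≤ β)
    (hk : 2 * (α + β) = ∑ i, m i) (h2 : 2 ≤ 2 * α * β - ∑ i, m i ^ 2) : LGood α β m := by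
  have hS : ∑ i, m i = m 0 + m 1 + m 2 + m 3 + m 4 + m 5 + m 6 + m 7 + m 8 := by
    simp [Fin.sum_univ_succ]
    ring
  have hQ : ∑ i, m i ^ 2 = m 0 ^ 2 + m 1 ^ 2 + m 2 ^ 2 + m 3 ^ 2 + m 4 ^ 2 + m 5 ^ 2 + m 6 ^ 2
      + m 7 ^ 2 + m 8 ^ 2 := by
    simp [Fin.sum_univ_succ]
    ring
  by_cases h8 : 0 ≤ m 8
  · refine ⟨2, 2, ![1, 1, 1, 1, 1, 1, 1, 1, 0], by norm_num, by simp [Fin.sum_univ_succ],
      by simp [Fin.sum_univ_succ], ?_⟩
    have hend := lat_end (hm 0 1 (by decide)) (hm 1 2 (by decide)) (hm 2 3 (by decide))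
      (hm 3 4 (by decide)) (hm 4 5 (by decide)) (hm 5 6 (by decide)) (hm 6 7 (by decide))
      (hm 7 8 (by decide)) h8 hab hb2 (by rw [hk, hS])
    have hp : lpair α β m 2 2 ![1, 1, 1, 1, 1, 1, 1, 1, 0] = m 8 := by
      unfold lpair
      simp [Fin.sum_univ_succ]
      rw [hS] at hk
      linarith
    rw [hp]
    rw [hQ] at h2 ⊢
    by_cases h82 : m 8 ≤ 1
    · linarith
    · push Not at h82
      nlinarith
  · -- `m 8 < 0` is impossible: the pairing with `(2,2;1^8,0)` would be negative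
    exfalso
    push Not at h8
    have h1 : 2 * (α + β) < m 0 + m 1 + m 2 + m 3 + m 4 + m 5 + m 6 + m 7 := by
      rw [hk, hS]; linarith
    have h3 : (m 0 + m 1 + m 2 + m 3 + m 4 + m 5 + m 6 + m 7) ^ 2
        ≤ 8 * (m 0 ^ 2 + m 1 ^ 2 + m 2 ^ 2 + m 3 ^ 2 + m 4 ^ 2 + m 5 ^ 2 + m 6 ^ 2
          + m 7 ^ 2) := by
      nlinarith [sq_nonneg (m 0 - m 1), sq_nonneg (m 0 - m 2), sq_nonneg (m 0 - m 3),
        sq_nonneg (m 0 - m 4), sq_nonneg (m 0 - m 5), sq_nonneg (m 0 - m 6),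
        sq_nonneg (m 0 - m 7), sq_nonneg (m 1 - m 2), sq_nonneg (m 1 - m 3),
        sq_nonneg (m 1 - m 4), sq_nonneg (m 1 - m 5), sq_nonneg (m 1 - m 6),
        sq_nonneg (m 1 - m 7), sq_nonneg (m 2 - m 3), sq_nonneg (m 2 - m 4),
        sq_nonneg (m 2 - m 5), sq_nonneg (m 2 - m 6), sq_nonneg (m 2 - m 7),
        sq_nonneg (m 3 - m 4), sq_nonneg (m 3 - m 5), sq_nonneg (m 3 - m 6),
        sq_nonneg (m 3 - m 7), sq_nonneg (m 4 - m 5), sq_nonneg (m 4 - m 6),
        sq_nonneg (m 4 - m 7), sq_nonneg (m 5 - m 6), sq_nonneg (m 5 - m 7),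
        sq_nonneg (m 6 - m 7)]
    have h4 : (2 * (α + β)) ^ 2 ≤ (m 0 + m 1 + m 2 + m 3 + m 4 + m 5 + m 6 + m 7) ^ 2 :=
      pow_le_pow_left₀ (by linarith) h1.le 2
    rw [hQ] at h2
    nlinarith [sq_nonneg (α - β), sq_nonneg (m 8)]

/-- the lattice lemma in the unimodular coordinates -/
theorem lat_core (N : ℕ) : ∀ (α β : ℤ) (m : Fin 9 → ℤ), 0 < α → 0 < β → α + β ≤ N →
    2 * (α + β) = ∑ i, m i → 2 ≤ 2 * α * β - ∑ i, m i ^ 2 → LGood α β m := by
  induction N with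
  | zero =>
    intro α β m ha hb h
    exfalso
    push_cast at h
    linarith
  | succ N ih =>
    intro α β m ha hb hN hk h2
    -- sort
    let σ : Equiv.Perm (Fin 9) := Tuple.sort (fun i => - m i)
    have hσ : ∀ i j : Fin 9, i ≤ j → m (σ j) ≤ m (σ i) := by
      intro i j hij
      have := Tuple.monotone_sort (fun i => - m i) hij
      simp only [Function.comp] at this
      have h3 : - m (σ i) ≤ - m (σ j) := this
      linarith
    apply LGood.perm σ
    have hk' : 2 * (α + β) = ∑ i, m (σ i) := by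
      rw [hk]
      exact (Equiv.sum_comp σ m).symm
    have h2' : 2 ≤ 2 * α * β - ∑ i, m (σ i) ^ 2 := by
      have : ∑ i, m (σ i) ^ 2 = ∑ i, m i ^ 2 := Equiv.sum_comp σ (fun i => m i ^ 2)
      rw [this]
      exact h2
    -- one reflection or the end, for the larger coordinate first
    have key : ∀ (α β : ℤ) (m : Fin 9 → ℤ), 0 < α → 0 < β → α + β ≤ (N + 1 : ℕ) →
        2 * (α + β) = ∑ i, m i → 2 ≤ 2 * α * β - ∑ i, m i ^ 2 →
        (∀ i j : Fin 9, i ≤ j → m j ≤ m i) → β ≤ α → LGood α β m := by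
      intro α β m ha hb hN hk h2 hm hab
      by_cases hb2 : m 0 + m 1 ≤ β
      · exact lat_base ha hb hm hab hb2 hk h2
      · push Not at hb2
        apply LGood.refl
        have hQ : ∑ i, m i ^ 2 = m 0 ^ 2 + m 1 ^ 2 + m 2 ^ 2 + m 3 ^ 2 + m 4 ^ 2 + m 5 ^ 2
            + m 6 ^ 2 + m 7 ^ 2 + m 8 ^ 2 := by
          simp [Fin.sum_univ_succ]
          ring
        have hS : ∑ i, m i = m 0 + m 1 + m 2 + m 3 + m 4 + m 5 + m 6 + m 7 + m 8 := by
          simp [Fin.sum_univ_succ]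
          ring
        have hα : 0 < α + β - m 0 - m 1 := by
          -- the square of the new vector is positive, and its second coordinate is `β`
          have hlt : m 0 + m 1 < α + β + β := by
            have := lat_two (x := m 0) (y := m 1) (α := α) (β := β) (by linarith) (by
              rw [hQ] at h2
              nlinarith [sq_nonneg (m 2), sq_nonneg (m 3), sq_nonneg (m 4), sq_nonneg (m 5),
                sq_nonneg (m 6), sq_nonneg (m 7), sq_nonneg (m 8)])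
            linarith
          by_contra hc
          push Not at hc
          rw [hQ] at h2
          have hsq : 2 ≤ 2 * (α + β - m 0 - m 1) * β - ((β - m 1) ^ 2 + (β - m 0) ^ 2) := by
            nlinarith [sq_nonneg (m 2), sq_nonneg (m 3), sq_nonneg (m 4), sq_nonneg (m 5),
              sq_nonneg (m 6), sq_nonneg (m 7), sq_nonneg (m 8)]
          nlinarith [sq_nonneg (β - m 1), sq_nonneg (β - m 0)]
        apply ih _ _ _ hα hb
        · push_cast at hN
          linarith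
        · rw [hS] at hk
          simp [Fin.sum_univ_succ]
          linarith
        · rw [hQ] at h2
          simp [Fin.sum_univ_succ]
          linarith
    rcases le_total β α with hab | hab
    · exact key α β _ ha hb hN hk' h2' hσ hab
    · apply LGood.swap
      exact key β α _ hb ha (by linarith) (by rw [← hk']; ring) (by
        have : 2 * β * α = 2 * α * β := by ring
        rw [this]; exact h2') hσ hab

/-- the quadratic form of `ℙ¹ × ℙ¹` blown up in nine points -/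
def q9 (α β : ℤ) (m : Fin 9 → ℤ) : ℤ := 2 * α * β - ∑ i, m i ^ 2

/-- reduced classes: the smallest multiplicity is small -/
theorem reduced_ge {α β : ℤ} {m : Fin 9 → ℤ} (hk : 2 * α + 2 * β = ∑ i, m i)
    (hab : β ≤ α) (hm : Antitone m) (h8 : 0 ≤ m 8) (hred : m 0 + m 1 ≤ β) :
    m 8 ^ 2 ≤ q9 α β m := by
  have hS : ∑ i, m i = m 0 + m 1 + m 2 + m 3 + m 4 + m 5 + m 6 + m 7 + m 8 := by
    simp [Fin.sum_univ_succ]
    ring
  have hQ : ∑ i, m i ^ 2 = m 0 ^ 2 + m 1 ^ 2 + m 2 ^ 2 + m 3 ^ 2 + m 4 ^ 2 + m 5 ^ 2 + m 6 ^ 2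
      + m 7 ^ 2 + m 8 ^ 2 := by
    simp [Fin.sum_univ_succ]
    ring
  unfold q9
  rw [hQ]
  exact lat_end (hm (by decide)) (hm (by decide)) (hm (by decide)) (hm (by decide))
    (hm (by decide)) (hm (by decide)) (hm (by decide)) (hm (by decide)) h8 hab hred
    (by rw [hS] at hk; linarith)

/-- every class of positive square in the orthogonal complement of the canonical class has
intersection number at most half of its square with some isotropic class -/
theorem lattice9 (α β : ℤ) (m : Fin 9 → ℤ) (hk : 2 * α + 2 * β = ∑ i, m i) (ht : 0 < α + β)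
    (hq : 2 ≤ q9 α β m) :
    ∃ (α' β' : ℤ) (m' : Fin 9 → ℤ), 2 * α' + 2 * β' = ∑ i, m' i ∧ q9 α' β' m' = 0 ∧
      0 < α' + β' ∧ 2 * (α * β' + α' * β - ∑ i, m i * m' i) ≤ q9 α β m := by
  unfold q9 at hq
  have hs : 0 ≤ ∑ i, m i ^ 2 := Finset.sum_nonneg fun _ _ => sq_nonneg _
  have hab : 0 < α * β := by nlinarith
  have ha : 0 < α := by
    by_contra hc
    push Not at hc
    have hb : 0 < β := by linarith
    nlinarith
  have hb : 0 < β := by
    by_contra hc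
    push Not at hc
    nlinarith
  obtain ⟨α', β', m', h1, h2, h3, h4⟩ := lat_core (α + β).toNat α β m ha hb
    (by rw [Int.toNat_of_nonneg ht.le]) (by rw [← hk]; ring) hq
  refine ⟨α', β', m', by linarith, ?_, h1, ?_⟩
  · unfold q9
    linarith
  · unfold lpair at h4
    unfold q9
    exact h4

/-- a polarisation -/
def LH : Cl := (2, 2, fun _ => 0, fun _ => 1)

theorem LH_pair (z : Cl) : B z LH = 2 * (ca z + cb z) - ∑ i, cn z i := by
  unfold B LH ca cb cc cn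
  simp only [Fin.sum_univ_five, Fin.sum_univ_four]
  ring

theorem LH_t : t LH = 4 := by
  simp [t, ca, cb, LH]

theorem LH_self : B LH LH = 4 := by
  rw [LH_pair]
  simp [ca, cb, cn, LH]

/-- the absolute values of the multiplicities at the fixed points -/
def absn (z : Cl) : Cl := (ca z, cb z, cc z, fun i => |cn z i|)

theorem ca_absn (z : Cl) : ca (absn z) = ca z := rfl
theorem cb_absn (z : Cl) : cb (absn z) = cb z := rfl
theorem cc_absn (z : Cl) : cc (absn z) = cc z := rfl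
theorem cn_absn (z : Cl) (i : Fin 4) : cn (absn z) i = |cn z i| := rfl

theorem abs_par (x : ℤ) : ∃ y, |x| = x + 2 * y := by
  rcases abs_choice x with h | h
  · exact ⟨0, by rw [h]; ring⟩
  · exact ⟨-x, by rw [h]; ring⟩

theorem absn_L {z : Cl} (h : L z) : L (absn z) := by
  obtain ⟨⟨x1, h1⟩, ⟨x2, h2⟩, ⟨x3, h3⟩⟩ := h
  obtain ⟨y0, g0⟩ := abs_par (cn z 0)
  obtain ⟨y1, g1⟩ := abs_par (cn z 1)
  obtain ⟨y2, g2⟩ := abs_par (cn z 2)
  obtain ⟨y3, g3⟩ := abs_par (cn z 3)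
  refine ⟨⟨x1 + y0 + y1, ?_⟩, ⟨x2 + y0 + y2, ?_⟩, ⟨x3 + y0 + y3, ?_⟩⟩
  · rw [cn_absn, cn_absn, cb_absn, g0, g1]
    linarith
  · rw [cn_absn, cn_absn, ca_absn, g0, g2]
    linarith
  · rw [cn_absn, cn_absn, ca_absn, cb_absn, g0, g3]
    linarith

theorem absn_self (z : Cl) : B (absn z) (absn z) = B z z := by
  unfold B
  simp only [ca_absn, cb_absn, cc_absn, cn_absn, abs_mul_abs_self]

theorem absn_le {z w : Cl} (h : ∀ i, 0 ≤ cn z i) : B z (absn w) ≤ B z w := by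
  unfold B
  simp only [ca_absn, cb_absn, cc_absn, cn_absn]
  have : ∑ i, cn z i * cn w i ≤ ∑ i, cn z i * |cn w i| :=
    Finset.sum_le_sum fun i _ => mul_le_mul_of_nonneg_left (le_abs_self _) (h i)
  linarith

/-- the class with given unimodular coordinates -/
def ofl (α β : ℤ) (m : Fin 9 → ℤ) : Cl :=
  (α + β - m 0 - m 1, α + β - m 2 - m 3, ![m 4, m 5, m 6, m 7, m 8],
    ![α - m 0 - m 2, β - m 0 - m 3, β - m 1 - m 2, α - m 1 - m 3])

theorem ofl_L (α β : ℤ) (m : Fin 9 → ℤ) : L (ofl α β m) := by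
  refine ⟨⟨α + β - m 0 - m 2 - m 3, ?_⟩, ⟨α + β - m 0 - m 1 - m 2, ?_⟩,
    ⟨2 * α + β - m 0 - m 1 - m 2 - m 3, ?_⟩⟩
  all_goals
    simp [ofl, ca, cb, cn]
    ring

theorem ofl_k (α β : ℤ) (m : Fin 9 → ℤ) : k (ofl α β m) = 2 * α + 2 * β - ∑ i, m i := by
  simp [ofl, k, ca, cb, cc, Fin.sum_univ_succ]
  ring

theorem ofl_H (α β : ℤ) (m : Fin 9 → ℤ) : B (ofl α β m) LH = 2 * (α + β) := by
  rw [LH_pair]
  simp [ofl, ca, cb, cn, Fin.sum_univ_succ]
  ring

theorem ofl_B (α β α' β' : ℤ) (m m' : Fin 9 → ℤ) : B (ofl α β m) (ofl α' β' m') =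
    2 * (α * β' + α' * β - ∑ i, m i * m' i) := by
  simp [ofl, B, ca, cb, cc, cn, Fin.sum_univ_succ]
  ring

/-- the unimodular coordinates of a class -/
theorem exists_ofl {z : Cl} (h : L z) : ∃ α β m, z = ofl α β m := by
  obtain ⟨⟨x1, h1⟩, ⟨x2, h2⟩, ⟨x3, h3⟩⟩ := h
  refine ⟨ca z + cb z + cn z 0 - x1 - x2, ca z + cb z - x3,
    ![cb z - x1, ca z + cb z + cn z 0 - x2 - x3, ca z - x2, ca z + cb z + cn z 0 - x1 - x3,
      cc z 0, cc z 1, cc z 2, cc z 3, cc z 4], ?_⟩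
  apply Cl.ext
  · show ca z = _
    simp [ofl, ca]
    ring_nf
  · show cb z = _
    simp [ofl, cb]
    ring_nf
  · intro j
    fin_cases j <;> simp [ofl, cc]
  · intro i
    simp only [ca, cb, cn] at h1 h2 h3
    fin_cases i <;> simp [ofl, ca, cb, cn] <;> linarith

/-- LATTICE LEMMA. Coordinates: `α = (a+b-n₁-n₂)/2`, `β = (a+b-n₀-n₃)/2`,
`m = ((b-n₀-n₁)/2, (b-n₂-n₃)/2, (a-n₀-n₂)/2, (a-n₁-n₃)/2, c)`; then `B z z = 2 q9`,
`k z = 2α + 2β - ∑ m`; `α, β > 0` for classes in the round cone; at the end replace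
`cn W` by its absolute value. -/
theorem lattice {M : Cl} (hL : L M) (hk : k M = 0) (ht : 0 < t M) (hn : ∀ i, 0 ≤ cn M i)
    (hB : 4 ≤ B M M) :
    ∃ W, L W ∧ k W = 0 ∧ 0 < t W ∧ (∀ i, 0 ≤ cn W i) ∧ B W W = 0 ∧ 2 * B M W ≤ B M M := by
  obtain ⟨α, β, m, hM⟩ := exists_ofl hL
  have hq : B M M = 2 * q9 α β m := by
    rw [hM, ofl_B]
    unfold q9
    have : ∑ i, m i * m i = ∑ i, m i ^ 2 := Finset.sum_congr rfl fun i _ => (sq _).symm
    rw [this]
    ring
  have hH : 0 < B M LH := by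
    by_contra hc
    push Not at hc
    have := (lor_eq ht (by rw [LH_t]; norm_num) (by linarith) (by rw [LH_self]; norm_num) hc).2.1
    linarith
  obtain ⟨α', β', m', h1, h2, h3, h4⟩ := lattice9 α β m
    (by rw [hM, ofl_k] at hk; linarith) (by rw [hM, ofl_H] at hH; linarith) (by linarith)
  have hB' : B (ofl α' β' m') (ofl α' β' m') = 0 := by
    rw [ofl_B]
    unfold q9 at h2
    have : ∑ i, m' i * m' i = ∑ i, m' i ^ 2 := Finset.sum_congr rfl fun i _ => (sq _).symm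
    rw [this]
    linarith
  have hH' : 0 < B (ofl α' β' m') LH := by
    rw [ofl_H]
    linarith
  have ht' : 0 < t (ofl α' β' m') := by
    by_contra hc
    push Not at hc
    rcases eq_or_lt_of_le hc with h0 | h0
    · have := eq_zero_of_t h0 hB'.ge
      rw [this, B_zero'] at hH'
      exact lt_irrefl _ hH'
    · have h5 : 0 < t ((-1 : ℤ) • ofl α' β' m') := by
        rw [t_smul]
        linarith
      have h6 := lor_nonneg h5 (by rw [LH_t]; norm_num : 0 < t LH)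
        (by rw [B_smul_left, B_smul_right, hB']; norm_num) (by rw [LH_self]; norm_num)
      rw [B_smul_left] at h6
      linarith
  refine ⟨absn (ofl α' β' m'), absn_L (ofl_L _ _ _), ?_, ht', ?_, ?_, ?_⟩
  · have : k (absn (ofl α' β' m')) = k (ofl α' β' m') := rfl
    rw [this, ofl_k]
    linarith
  · intro i
    rw [cn_absn]
    exact abs_nonneg _
  · rw [absn_self, hB']
  · have h5 := absn_le (w := ofl α' β' m') hn
    have h6 : B M (ofl α' β' m') = 2 * (α * β' + α' * β - ∑ i, m i * m' i) := by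
      rw [hM, ofl_B]
    linarith

/-- the isotropic class can be taken primitive -/
theorem exists_prim {M : Cl} (hL : L M) (hk : k M = 0) (ht : 0 < t M) (hn : ∀ i, 0 ≤ cn M i)
    (hB : 4 ≤ B M M) : ∃ W, Prim W ∧ 0 < B M W ∧ 2 * B M W ≤ B M M := by
  obtain ⟨W, hWL, hWk, hWt, hWn, hWB, hMW⟩ := lattice hL hk ht hn hB
  have hpos : ∀ y, 0 < t y → B y y = 0 → 0 < B M y := by
    intro y hy hyB
    by_contra hneg
    push Not at hneg
    have h := (lor_eq ht hy (by linarith) hyB.ge hneg).2.1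
    linarith
  obtain ⟨V, hV, hVW, hVt⟩ := exists_prim_ray hWL hWk hWt hWn hWB
  refine ⟨V, hV, hpos V hV.2.2.2.1 hV.2.2.1, ?_⟩
  have h1 : t V * B M W = t W * B M V := by
    have := congrArg (B M) hVW
    rwa [B_smul_right, B_smul_right] at this
  have h2 := hpos W hWt hWB
  have h3 := hpos V hV.2.2.2.1 hV.2.2.1
  have h4 : B M V ≤ B M W := by
    by_contra hlt
    push Not at hlt
    have h5 := hV.2.2.2.1
    nlinarith
  linarith

end Pool.Agent.Lib.MP_6b2d39_ag.Rc
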