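import Pool.Agent.Lib.MP_6b2d39_ag.Rc.Exc
import Pool.Agent.Lib.MP_6b2d39_ag.Rc.Lat

/-!
ROUND (T), first part: the steps of the chain and the chain.
-/

namespace Pool.Agent.Lib.MP_6b2d39_ag.Rc

/-- `h (A - C0) ≤ p_a A` -/
def Pa (A : Cl) : Prop := 4 * h (A - C0) ≤ 4 + B A A - 2 * k A

private theorem L_exc {W : Cl} (hW : Prim W) : L (W - C0) := hW.1.sub L_C0

private theorem k_exc {W : Cl} (hW : Prim W) : k (W - C0) = 1 := by
  rw [k_sub, hW.2.1, k_C0]
  norm_num

private theorem B_exc {W : Cl} (hW : Prim W) : B (W - C0) (W - C0) = -2 := by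
  rw [B_sub_left, B_sub_right, B_C0, B_C0', k_sub, hW.2.1, hW.2.2.1, k_C0]
  norm_num

private theorem B_add_self (A G : Cl) : B (A + G) (A + G) = B A A + 2 * B A G + B G G := by
  rw [B_add_left, B_add_right, B_add_right, B_comm G A]
  ring

theorem Pa.exc {W A : Cl} (hW : Prim W) (hA : L A) (hB : 0 < B A (W - C0)) (h : Pa A) :
    Pa (A + (W - C0)) := by
  unfold Pa at h ⊢
  have he : Even (B A (W - C0)) := even_B hA (L_exc hW)
  have hB2 : 2 ≤ B A (W - C0) := by
    obtain ⟨x, hx⟩ := he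
    omega
  have hz : L (A + (W - C0) - C0) := (hA.add (L_exc hW)).sub L_C0
  have h1 : B (A + (W - C0) - C0) (W - C0) = B A (W - C0) - 4 := by
    rw [B_sub_left, B_add_left, B_C0', B_exc hW, k_exc hW]
    ring
  have h2 := cost_exc hW hz (by rw [h1]; linarith)
  have h3 : A + (W - C0) - C0 - (W - C0) = A - C0 := by abel
  rw [h1, h3] at h2
  rw [B_add_self, B_exc hW, k_add, k_exc hW]
  linarith

theorem Pa.fix {A : Cl} (hA : L A) (i : Fin 4) (hi : 0 < cn A i) (h : Pa A) :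
    Pa (A + R0 i) := by
  unfold Pa at h ⊢
  have hz : L (A + R0 i - C0) := (hA.add (L_R0 i)).sub L_C0
  have h1 : cn (A + R0 i - C0) i = cn A i - 2 := by
    rw [cn_sub, cn_add, cn_C0, cn_R0, if_pos rfl]
    ring
  have h2 := cost_R hz i (by rw [h1]; linarith)
  have h3 : A + R0 i - C0 - R0 i = A - C0 := by abel
  rw [h1, h3] at h2
  rw [B_add_self, B_R0, B_R0, cn_R0, if_pos rfl, k_add, k_R0]
  linarith

theorem Pa.can {A : Cl} (hk : k A = 1) (h : Pa A) : Pa (A + C0) := by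
  unfold Pa at h ⊢
  have h1 := cost_node hk
  have h3 : A + C0 - C0 = A := by abel
  rw [h3, B_add_self, B_C0, B_C0, k_add, k_C0, hk]
  rw [hk] at h
  linarith

/-- the remaining components -/
def rest (W : Cl) (x y : ℤ) (ρ : Fin 4 → ℤ) : Cl := x • C0 + y • (W - C0) + ∑ i, ρ i • R0 i

private theorem k_rest {W : Cl} (hW : Prim W) (x y : ℤ) (ρ : Fin 4 → ℤ) :
    k (rest W x y ρ) = y - x := by
  unfold rest
  simp only [Fin.sum_univ_four, k_add, k_smul, k_C0, k_R0, k_exc hW]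
  ring

private theorem t_rest (W : Cl) (x y : ℤ) (ρ : Fin 4 → ℤ) :
    t (rest W x y ρ) = 4 * x + y * (t W - 4) := by
  unfold rest
  simp only [Fin.sum_univ_four, t_add, t_smul, t_C0, t_R0, t_sub]
  ring

private theorem B_rest (W z : Cl) (x y : ℤ) (ρ : Fin 4 → ℤ) :
    B z (rest W x y ρ) = x * (2 * k z) + y * B z (W - C0) + ∑ i, ρ i * (2 * cn z i) := by
  unfold rest
  simp only [Fin.sum_univ_four, B_add_right, B_smul_right, B_C0, B_R0]

private theorem L_rest {W : Cl} (hW : Prim W) (x y : ℤ) (ρ : Fin 4 → ℤ) : L (rest W x y ρ) := by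
  unfold rest
  rw [Fin.sum_univ_four]
  exact ((L_C0.smul _).add ((L_exc hW).smul _)).add
    (((((L_R0 0).smul _).add ((L_R0 1).smul _)).add ((L_R0 2).smul _)).add ((L_R0 3).smul _))

private theorem rest_C (W : Cl) (x y : ℤ) (ρ : Fin 4 → ℤ) :
    rest W (x + 1) y ρ = rest W x y ρ + C0 := by
  unfold rest
  rw [add_smul, one_smul]
  abel

private theorem rest_exc (W : Cl) (x y : ℤ) (ρ : Fin 4 → ℤ) :
    rest W x (y + 1) ρ = rest W x y ρ + (W - C0) := by
  unfold rest
  rw [add_smul, one_smul]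
  abel

private theorem rest_R (W : Cl) (x y : ℤ) (ρ : Fin 4 → ℤ) (i : Fin 4) :
    rest W x y (ρ + Pi.single i 1) = rest W x y ρ + R0 i := by
  unfold rest
  have h1 : ∑ j, (ρ + Pi.single i 1 : Fin 4 → ℤ) j • R0 j = ∑ j, ρ j • R0 j + R0 i := by
    have h2 : ∀ j, (ρ + Pi.single i 1 : Fin 4 → ℤ) j • R0 j =
        ρ j • R0 j + (Pi.single i (1 : ℤ) : Fin 4 → ℤ) j • R0 j := by
      intro j
      rw [Pi.add_apply, add_smul]
    rw [Finset.sum_congr rfl fun j _ => h2 j, Finset.sum_add_distrib]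
    congr 1
    rw [Finset.sum_eq_single i]
    · rw [Pi.single_eq_same, one_smul]
    · intro j _ hj
      rw [Pi.single_eq_of_ne hj, zero_smul]
    · intro hi
      exact absurd (Finset.mem_univ _) hi
  rw [h1, ← add_assoc]

/-- `rest = 0` only trivially -/
private theorem rest_zero {W : Cl} (hW : Prim W) {x y : ℤ} {ρ : Fin 4 → ℤ}
    (h : rest W x y ρ = 0) : x = 0 ∧ y = 0 ∧ ∀ i, ρ i = 0 := by
  have h1 := k_rest hW x y ρ
  have h2 := t_rest W x y ρ
  rw [h, k_zero] at h1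
  rw [h, t_zero] at h2
  have hy : y = x := by linarith
  have hx : x = 0 := by
    rw [hy] at h2
    have h3 : x * t W = 0 := by linarith
    rcases mul_eq_zero.1 h3 with h4 | h4
    · exact h4
    · exact absurd h4 hW.2.2.2.1.ne'
  rw [hx] at hy
  refine ⟨hx, hy, ?_⟩
  intro i
  rw [hx, hy] at h
  have h4 := congrFun (congrArg cn h) i
  unfold rest at h4
  rw [zero_smul, zero_smul, zero_add, zero_add] at h4
  simp only [Fin.sum_univ_four, cn_add, cn_smul, cn_R0, cn_zero] at h4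
  fin_cases i <;> simp at h4 <;> simpa using h4

/-- CONNECTEDNESS (numerical): `D = A + rest`, `A = M' + used` -/
theorem connected {W M' : Cl} (hW : Prim W) (hM't : 0 < t M') {x y x' y' : ℤ} {ρ ρ' : Fin 4 → ℤ}
    (hx : 0 ≤ x) (hy : 0 ≤ y) (hρ : ∀ i, 0 ≤ ρ i) (hx' : 0 ≤ x') (hy' : 0 ≤ y')
    (hρ' : ∀ i, 0 ≤ ρ' i) (hne : ¬ (x = 0 ∧ y = 0 ∧ ∀ i, ρ i = 0)) {D : Cl}
    (hD : D = M' + rest W x' y' ρ' + rest W x y ρ) (hDD : 0 < B D D) (h1 : 0 ≤ B M' D)
    (h2 : 0 ≤ k D) (h3 : 0 ≤ B (W - C0) D) (h4 : ∀ i, 0 ≤ cn D i) :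
    0 < B (M' + rest W x' y' ρ') (rest W x y ρ) := by
  by_contra hneg
  push Not at hneg
  have hWt : 4 ≤ t W := by
    obtain ⟨g1, g2, -⟩ := cone_ge hW.2.1 hW.2.2.2.1 hW.2.2.1.ge
    unfold t
    linarith
  have hpos : ∀ (x y : ℤ) (ρ : Fin 4 → ℤ), 0 ≤ x → 0 ≤ y → (∀ i, 0 ≤ ρ i) →
      0 ≤ B D (rest W x y ρ) := by
    intro x y ρ hx hy hρ
    rw [B_rest]
    have g1 : 0 ≤ x * (2 * k D) := mul_nonneg hx (by linarith)
    have g2 : 0 ≤ y * B D (W - C0) := mul_nonneg hy (by rw [B_comm]; exact h3)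
    have g3 : 0 ≤ ∑ i, ρ i * (2 * cn D i) :=
      Finset.sum_nonneg fun i _ => mul_nonneg (hρ i) (by linarith [h4 i])
    linarith
  have htpos : ∀ (x y : ℤ) (ρ : Fin 4 → ℤ), 0 ≤ x → 0 ≤ y → 0 ≤ t (rest W x y ρ) := by
    intro x y ρ hx hy
    rw [t_rest]
    have := mul_nonneg hy (by linarith : (0 : ℤ) ≤ t W - 4)
    linarith
  generalize hA : M' + rest W x' y' ρ' = A at hD hneg
  generalize hR : rest W x y ρ = R at hD hneg
  have hAt : 0 < t A := by
    rw [← hA, t_add]
    have := htpos x' y' ρ' hx' hy'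
    linarith
  have hRt : 0 ≤ t R := by
    rw [← hR]
    exact htpos x y ρ hx hy
  have hDA : 0 ≤ B D A := by
    rw [← hA, B_add_right, B_comm D M']
    have := hpos x' y' ρ' hx' hy' hρ'
    linarith
  have hDR : 0 ≤ B D R := by
    rw [← hR]
    exact hpos x y ρ hx hy hρ
  have e1 : B D A = B A A + B A R := by
    rw [hD, B_add_left, B_comm R A]
  have e2 : B D R = B A R + B R R := by
    rw [hD, B_add_left]
  have hAA : 0 ≤ B A A := by linarith
  have hRR : 0 ≤ B R R := by linarith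
  rcases eq_or_lt_of_le hRt with h0 | h0
  · have hR0 := eq_zero_of_t h0.symm hRR
    exact hne (rest_zero hW (hR.trans hR0))
  · obtain ⟨-, g1, g2⟩ := lor_eq hAt h0 hAA hRR hneg
    have g3 : B D D = B A A + 2 * B A R + B R R := by
      rw [hD, B_add_self]
    linarith

/-- the chain, by induction on the number of remaining components -/
private theorem chain_aux {W M' : Cl} (hW : Prim W) (hM'L : L M') (hM'k : k M' = 0)
    (hM't : 0 < t M') {D : Cl} (hDD : 0 < B D D) (h1 : 0 ≤ B M' D) (h2 : 0 ≤ k D)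
    (h3 : 0 ≤ B (W - C0) D) (h4 : ∀ i, 0 ≤ cn D i) (n : ℕ) :
    ∀ (x y x' y' : ℤ) (ρ ρ' : Fin 4 → ℤ), 0 ≤ x → 0 ≤ y → (∀ i, 0 ≤ ρ i) → 0 ≤ x' → 0 ≤ y' →
      (∀ i, 0 ≤ ρ' i) → x + x' ≤ 1 → y + y' ≤ 1 → x + y + ∑ i, ρ i = n →
      D = M' + rest W x' y' ρ' + rest W x y ρ → Pa (M' + rest W x' y' ρ') → Pa D := by
  induction n with
  | zero =>
    intro x y x' y' ρ ρ' hx hy hρ hx' hy' hρ' hxx hyy hn hD hP
    have hs : 0 ≤ ∑ i, ρ i := Finset.sum_nonneg fun i _ => hρ i
    push_cast at hn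
    have hx0 : x = 0 := by linarith
    have hy0 : y = 0 := by linarith
    have hs0 : ∑ i, ρ i = 0 := by linarith
    have hρ0 : ∀ i, ρ i = 0 := fun i =>
      (Finset.sum_eq_zero_iff_of_nonneg fun i _ => hρ i).1 hs0 i (Finset.mem_univ i)
    have hr : rest W x y ρ = 0 := by
      unfold rest
      rw [hx0, hy0, zero_smul, zero_smul, zero_add, zero_add]
      exact Finset.sum_eq_zero fun i _ => by rw [hρ0 i, zero_smul]
    rw [hr, add_zero] at hD
    rw [hD]
    exact hP
  | succ n ih =>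
    intro x y x' y' ρ ρ' hx hy hρ hx' hy' hρ' hxx hyy hn hD hP
    push_cast at hn
    have hne : ¬ (x = 0 ∧ y = 0 ∧ ∀ i, ρ i = 0) := by
      rintro ⟨g1, g2, g3⟩
      have : ∑ i, ρ i = 0 := Finset.sum_eq_zero fun i _ => g3 i
      rw [g1, g2, this] at hn
      have : (0 : ℤ) ≤ (n : ℤ) := Int.natCast_nonneg n
      linarith
    have hc := connected hW hM't hx hy hρ hx' hy' hρ' hne hD hDD h1 h2 h3 h4
    have hAL : L (M' + rest W x' y' ρ') := hM'L.add (L_rest hW _ _ _)
    have hAk : k (M' + rest W x' y' ρ') = y' - x' := by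
      rw [k_add, hM'k, k_rest hW]
      ring
    rw [B_rest] at hc
    by_cases hxc : 0 < x ∧ 0 < k (M' + rest W x' y' ρ')
    · -- add `C0`
      have hkA : k (M' + rest W x' y' ρ') = 1 := by
        have := hxc.2
        rw [hAk] at this ⊢
        linarith [hxc.1]
      have hP' := Pa.can hkA hP
      rw [add_assoc, ← rest_C] at hP'
      refine ih (x - 1) y (x' + 1) y' ρ ρ' (by linarith [hxc.1]) hy hρ (by linarith) hy' hρ'
        (by linarith) hyy (by linarith) ?_ hP'
      have e : rest W x y ρ = rest W (x - 1) y ρ + C0 := by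
        rw [← rest_C, sub_add_cancel]
      rw [hD, rest_C, e]
      abel
    by_cases hyc : 0 < y ∧ 0 < B (M' + rest W x' y' ρ') (W - C0)
    · -- add the exceptional curve
      have hP' := Pa.exc hW hAL hyc.2 hP
      rw [add_assoc, ← rest_exc] at hP'
      refine ih x (y - 1) x' (y' + 1) ρ ρ' hx (by linarith [hyc.1]) hρ hx' (by linarith) hρ'
        hxx (by linarith) (by linarith) ?_ hP'
      have e : rest W x y ρ = rest W x (y - 1) ρ + (W - C0) := by
        rw [← rest_exc, sub_add_cancel]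
      rw [hD, rest_exc, e]
      abel
    by_cases hic : ∃ i, 0 < ρ i ∧ 0 < cn (M' + rest W x' y' ρ') i
    · -- add `R0 i`
      obtain ⟨i, hi1, hi2⟩ := hic
      have hP' := Pa.fix hAL i hi2 hP
      rw [add_assoc, ← rest_R] at hP'
      have hs1 : ∀ j, 0 ≤ (Pi.single i (1 : ℤ) : Fin 4 → ℤ) j := by
        intro j
        by_cases hj : j = i
        · rw [hj, Pi.single_eq_same]
          norm_num
        · rw [Pi.single_eq_of_ne hj]
      refine ih x y x' y' (ρ - Pi.single i 1) (ρ' + Pi.single i 1) hx hy ?_ hx' hy' ?_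
        hxx hyy ?_ ?_ hP'
      · intro j
        by_cases hj : j = i
        · rw [hj, Pi.sub_apply, Pi.single_eq_same]
          linarith
        · rw [Pi.sub_apply, Pi.single_eq_of_ne hj, sub_zero]
          exact hρ j
      · intro j
        rw [Pi.add_apply]
        exact add_nonneg (hρ' j) (hs1 j)
      · have e : ∑ j, (ρ - Pi.single i 1 : Fin 4 → ℤ) j = ∑ j, ρ j - 1 := by
          simp only [Pi.sub_apply, Finset.sum_sub_distrib]
          rw [Finset.sum_pi_single']
          simp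
        rw [e]
        linarith
      · have e : rest W x y ρ = rest W x y (ρ - Pi.single i 1) + R0 i := by
          rw [← rest_R, sub_add_cancel]
        rw [hD, rest_R, e]
        abel
    · exfalso
      have g1 : x * (2 * k (M' + rest W x' y' ρ')) ≤ 0 := by
        rcases eq_or_lt_of_le hx with h0 | h0
        · rw [← h0, zero_mul]
        · have : k (M' + rest W x' y' ρ') ≤ 0 := by
            by_contra hcon
            push Not at hcon
            exact hxc ⟨h0, hcon⟩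
          exact mul_nonpos_of_nonneg_of_nonpos hx (by linarith)
      have g2 : y * B (M' + rest W x' y' ρ') (W - C0) ≤ 0 := by
        rcases eq_or_lt_of_le hy with h0 | h0
        · rw [← h0, zero_mul]
        · have : B (M' + rest W x' y' ρ') (W - C0) ≤ 0 := by
            by_contra hcon
            push Not at hcon
            exact hyc ⟨h0, hcon⟩
          exact mul_nonpos_of_nonneg_of_nonpos hy this
      have g3 : ∑ i, ρ i * (2 * cn (M' + rest W x' y' ρ') i) ≤ 0 := by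
        refine Finset.sum_nonpos fun i _ => ?_
        rcases eq_or_lt_of_le (hρ i) with h0 | h0
        · rw [← h0, zero_mul]
        · have : cn (M' + rest W x' y' ρ') i ≤ 0 := by
            by_contra hcon
            push Not at hcon
            exact hic ⟨i, h0, hcon⟩
          exact mul_nonpos_of_nonneg_of_nonpos (hρ i) (by linarith)
      linarith

/-- the chain -/
theorem chain {W M' : Cl} (hW : Prim W) (hM'L : L M') (hM'k : k M' = 0) (hM't : 0 < t M')
    {x0 : ℤ} (hx0 : x0 = 0 ∨ x0 = 1) {r : Fin 4 → ℤ} (hr : ∀ i, 0 ≤ r i) {D : Cl}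
    (hD : D = M' + rest W x0 1 r) (hDD : 0 < B D D) (h1 : 0 ≤ B M' D)
    (h3 : 0 ≤ B (W - C0) D) (h4 : ∀ i, 0 ≤ cn D i) (hP : Pa M') : Pa D := by
  have hx0' : 0 ≤ x0 ∧ x0 ≤ 1 := by
    rcases hx0 with rfl | rfl <;> norm_num
  have h2 : 0 ≤ k D := by
    rw [hD, k_add, hM'k, k_rest hW]
    linarith [hx0'.2]
  have h0 : rest W 0 0 (fun _ => 0) = 0 := by
    unfold rest
    simp only [zero_smul, Finset.sum_const_zero, add_zero]
  have hs : 0 ≤ x0 + 1 + ∑ i, r i := by
    have : 0 ≤ ∑ i, r i := Finset.sum_nonneg fun i _ => hr i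
    linarith [hx0'.1]
  refine chain_aux hW hM'L hM'k hM't hDD h1 h2 h3 h4 (x0 + 1 + ∑ i, r i).toNat x0 1 0 0 r
    (fun _ => 0) hx0'.1 (by norm_num) hr le_rfl le_rfl (fun _ => le_rfl) (by linarith [hx0'.2])
    (by norm_num) (by rw [Int.toNat_of_nonneg hs]) ?_ ?_
  · rw [h0, add_zero]
    exact hD
  · rw [h0, add_zero]
    exact hP

end Pool.Agent.Lib.MP_6b2d39_ag.Rc
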