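import Pool.Agent.Lib.MP_6b2d39_ag.Rc.MainA

/-!
ROUND (T): the dimension of the spaces `Sec (M - C0)` and `Sec (M - 2 C0)`.
-/

namespace Pool.Agent.Lib.MP_6b2d39_ag.Rc

/-- a sum of multiples of the classes `R0 i` -/
private theorem L_sum_R (r : Fin 4 → ℤ) : L (∑ i, r i • R0 i) := by
  rw [Fin.sum_univ_four]
  exact ((((L_R0 0).smul _).add ((L_R0 1).smul _)).add ((L_R0 2).smul _)).add ((L_R0 3).smul _)

private theorem ca_sum_R (r : Fin 4 → ℤ) : ca (∑ i, r i • R0 i) = 0 := by
  simp only [Fin.sum_univ_four, ca_add, ca_smul, ca_R0, mul_zero, add_zero]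

private theorem cb_sum_R (r : Fin 4 → ℤ) : cb (∑ i, r i • R0 i) = 0 := by
  simp only [Fin.sum_univ_four, cb_add, cb_smul, cb_R0, mul_zero, add_zero]

private theorem cc_sum_R (r : Fin 4 → ℤ) (j : Fin 5) : cc (∑ i, r i • R0 i) j = 0 := by
  simp only [Fin.sum_univ_four, cc_add, cc_smul, cc_R0, mul_zero, add_zero]

private theorem cn_sum_R (r : Fin 4 → ℤ) (i : Fin 4) : cn (∑ i, r i • R0 i) i = -2 * r i := by
  simp only [Fin.sum_univ_four, cn_add, cn_smul, cn_R0]
  fin_cases i <;> simp <;> ring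

private theorem k_sum_R (r : Fin 4 → ℤ) : k (∑ i, r i • R0 i) = 0 := by
  simp only [Fin.sum_univ_four, k_add, k_smul, k_R0, mul_zero, add_zero]

private theorem t_sum_R (r : Fin 4 → ℤ) : t (∑ i, r i • R0 i) = 0 := by
  simp only [Fin.sum_univ_four, t_add, t_smul, t_R0, mul_zero, add_zero]

/-- removing the fixed components over the fixed points -/
private theorem exists_nefpart {Y : Cl} (hL : L Y) (hk : k Y = 0) (hB : 0 ≤ B Y Y) :
    ∃ (M' : Cl) (r : Fin 4 → ℤ), (∀ i, 0 ≤ r i) ∧ Y = M' + ∑ i, r i • R0 i ∧ L M' ∧ k M' = 0 ∧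
      t M' = t Y ∧ (∀ i, 0 ≤ cn M' i) ∧ 0 ≤ B M' M' := by
  let r : Fin 4 → ℤ := fun i => if 0 ≤ cn Y i then 0 else -(cn Y i / 2)
  have hr : ∀ i, 0 ≤ r i := by
    intro i
    show 0 ≤ if 0 ≤ cn Y i then 0 else -(cn Y i / 2)
    split_ifs with h
    · exact le_rfl
    · omega
  have hcn : ∀ i, cn (Y - ∑ i, r i • R0 i) i = cn Y i + 2 * r i := by
    intro i
    rw [cn_sub, cn_sum_R]
    ring
  have hx : ∀ i, 0 ≤ cn Y i + 2 * r i ∧ (cn Y i + 2 * r i) * (cn Y i + 2 * r i) ≤
      cn Y i * cn Y i := by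
    intro i
    have h1 : r i = if 0 ≤ cn Y i then 0 else -(cn Y i / 2) := rfl
    by_cases h : 0 ≤ cn Y i
    · rw [if_pos h] at h1
      rw [h1]
      constructor
      · linarith
      · linarith [mul_zero (2 : ℤ)]
    · rw [if_neg h] at h1
      have h2 : cn Y i + 2 * r i = cn Y i % 2 := by
        rw [h1]
        omega
      rw [h2]
      have h3 : 0 ≤ cn Y i % 2 := by omega
      have h4 : cn Y i % 2 ≤ 1 := by omega
      have h5 : cn Y i ≤ -1 := by omega
      refine ⟨h3, ?_⟩
      nlinarith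
  refine ⟨Y - ∑ i, r i • R0 i, r, hr, by rw [sub_add_cancel], hL.sub (L_sum_R r), ?_, ?_, ?_, ?_⟩
  · rw [k_sub, k_sum_R, hk, sub_zero]
  · rw [t_sub, t_sum_R, sub_zero]
  · intro i
    rw [hcn]
    exact (hx i).1
  · have h1 : ∑ i, cn (Y - ∑ i, r i • R0 i) i * cn (Y - ∑ i, r i • R0 i) i ≤
        ∑ i, cn Y i * cn Y i := by
      refine Finset.sum_le_sum fun i _ => ?_
      rw [hcn]
      exact (hx i).2
    have h2 : ∀ j, cc (Y - ∑ i, r i • R0 i) j = cc Y j := by
      intro j
      rw [cc_sub, cc_sum_R, sub_zero]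
    have h3 : ca (Y - ∑ i, r i • R0 i) = ca Y := by rw [ca_sub, ca_sum_R, sub_zero]
    have h4 : cb (Y - ∑ i, r i • R0 i) = cb Y := by rw [cb_sub, cb_sum_R, sub_zero]
    unfold B at hB ⊢
    rw [h3, h4]
    simp only [h2]
    linarith

/-- MAIN THEOREM on the quotient -/
theorem main {M : Cl} (hL : L M) (hk : k M = 0) (ht : 0 < t M) (hn : ∀ i, 0 ≤ cn M i)
    (hB : 4 ≤ B M M) : 4 * h (M - C0) ≤ 4 + B M M ∧ 4 * h (M - C0 - C0) ≤ B M M := by
  obtain ⟨m, hm⟩ : ∃ m : ℕ, t M = m := ⟨(t M).toNat, by rw [Int.toNat_of_nonneg ht.le]⟩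
  induction m using Nat.strong_induction_on generalizing M with
  | _ m ih =>
    obtain ⟨W, hW, hMW, hMW2⟩ := exists_prim hL hk ht hn hB
    have hWL := hW.1
    have hWk := hW.2.1
    have hWB := hW.2.2.1
    have hWt := hW.2.2.2.1
    have hYL : L (M - W) := hL.sub hWL
    have hYk : k (M - W) = 0 := by rw [k_sub, hk, hWk, sub_zero]
    have hYB : 0 ≤ B (M - W) (M - W) := by
      rw [B_sub_left, B_sub_right, B_sub_right, hWB, B_comm W M]
      linarith
    have hYW : 0 < B (M - W) W := by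
      rw [B_sub_left, hWB, sub_zero]
      exact hMW
    have hYt : 0 < t (M - W) := by
      by_contra hneg
      push Not at hneg
      rcases eq_or_lt_of_le hneg with h0 | h0
      · rw [eq_zero_of_t h0 hYB, B_zero'] at hYW
        exact lt_irrefl _ hYW
      · have h1 : 0 ≤ B ((-1 : ℤ) • (M - W)) W := by
          refine lor_nonneg ?_ hWt ?_ hWB.ge
          · rw [t_smul]
            linarith
          · rw [B_smul_left, B_smul_right]
            linarith
        rw [B_smul_left] at h1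
        linarith
    obtain ⟨M', r, hr, hY, hM'L, hM'k, hM't, hM'n, hM'B⟩ := exists_nefpart hYL hYk hYB
    have hM't0 : 0 < t M' := by
      rw [hM't]
      exact hYt
    have hPa : Pa M' := by
      unfold Pa
      rw [hM'k]
      rcases eq_or_lt_of_le hM'B with h0 | h0
      · have h1 := iso hM'L hM'k hM't0 hM'n h0.symm
        linarith
      · have h4 : 4 ≤ B M' M' := by
          obtain ⟨x, hx⟩ := four_dvd hM'L hM'k
          omega
        have htM : t M' = t M - t W := by rw [hM't, t_sub]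
        have h5 := ih (t M').toNat (by omega) hM'L hM'k hM't0 hM'n h4
          (by rw [Int.toNat_of_nonneg hM't0.le])
        linarith [h5.1]
    have hrest1 : M = M' + rest W 1 1 r := by
      have h1 : M = (M - W) + W := by rw [sub_add_cancel]
      rw [h1, hY]
      unfold rest
      rw [one_smul, one_smul]
      abel
    have hrest0 : M - C0 = M' + rest W 0 1 r := by
      rw [hrest1]
      unfold rest
      rw [one_smul, one_smul, zero_smul]
      abel
    have hBM'M : 0 ≤ B M' M := lor_nonneg hM't0 ht hM'B (by linarith)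
    have hMWe : 2 ≤ B M W := by
      obtain ⟨x, hx⟩ := even_B hL hWL
      omega
    constructor
    · have h1 := chain hW hM'L hM'k hM't0 (Or.inr rfl) hr hrest1 (by linarith) hBM'M
        (by rw [B_sub_left, B_C0', hk, B_comm W M]; linarith) hn hPa
      unfold Pa at h1
      rw [hk] at h1
      linarith
    · have hDD : B (M - C0) (M - C0) = B M M - 2 := by
        rw [B_sub_left, B_sub_right, B_sub_right, B_C0, B_C0', B_C0, hk, k_C0]
        ring
      have h1 := chain hW hM'L hM'k hM't0 (Or.inl rfl) hr hrest0 (by rw [hDD]; linarith)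
        (by rw [B_sub_right, B_C0, hM'k]; linarith)
        (by
          rw [B_sub_left, B_sub_right, B_sub_right, B_C0, B_C0', B_C0, hk, hWk, k_C0, B_comm W M]
          linarith)
        (by
          intro i
          rw [cn_sub, cn_C0, sub_zero]
          exact hn i) hPa
      unfold Pa at h1
      rw [hDD, k_sub, hk, k_C0] at h1
      linarith

end Pool.Agent.Lib.MP_6b2d39_ag.Rc
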