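import Mathlib

/-!
ROUND: classes `(a, b; c; n)` and the intersection form (twice the form on the quotient).
-/

namespace Pool.Agent.Lib.MP_6b2d39_ag.Rc

/-- classes `(a, b; c; n)` -/
abbrev Cl : Type := ℤ × ℤ × (Fin 5 → ℤ) × (Fin 4 → ℤ)

/-- the first degree -/
def ca (z : Cl) : ℤ := z.1

/-- the second degree -/
def cb (z : Cl) : ℤ := z.2.1

/-- the multiplicities at the five pairs of points -/
def cc (z : Cl) : Fin 5 → ℤ := z.2.2.1

/-- the multiplicities at the four fixed points -/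
def cn (z : Cl) : Fin 4 → ℤ := z.2.2.2

/-- the intersection form -/
def B (z w : Cl) : ℤ :=
  ca z * cb w + cb z * ca w - 2 * ∑ j, cc z j * cc w j - ∑ i, cn z i * cn w i

/-- half of the intersection number with `C0` -/
def k (z : Cl) : ℤ := ca z + cb z - ∑ j, cc z j

/-- the sum of the degrees -/
def t (z : Cl) : ℤ := ca z + cb z

/-- the parity conditions -/
def L (z : Cl) : Prop :=
  Even (cn z 0 + cn z 1 + cb z) ∧ Even (cn z 0 + cn z 2 + ca z) ∧
    Even (cn z 0 + cn z 3 + ca z + cb z)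

/-- the class of `Q1 * Q2` -/
def C0 : Cl := (2, 2, fun _ => 1, fun _ => 0)

/-- the class of the exceptional curve over a fixed point (counted twice) -/
def R0 (i : Fin 4) : Cl := (0, 0, fun _ => 0, fun i' => if i' = i then -2 else 0)

/-- the class of the exceptional curves over the `j`-th pair of points -/
def E0 (j : Fin 5) : Cl := (0, 0, fun j' => if j' = j then -1 else 0, fun _ => 0)

/-- `W = C0 + E0 j` -/
def W0 (j : Fin 5) : Cl := C0 + E0 j

section basic

variable (z w y : Cl)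

@[simp] theorem ca_add : ca (z + w) = ca z + ca w := rfl
@[simp] theorem cb_add : cb (z + w) = cb z + cb w := rfl
@[simp] theorem cc_add (j : Fin 5) : cc (z + w) j = cc z j + cc w j := rfl
@[simp] theorem cn_add (i : Fin 4) : cn (z + w) i = cn z i + cn w i := rfl
@[simp] theorem ca_sub : ca (z - w) = ca z - ca w := rfl
@[simp] theorem cb_sub : cb (z - w) = cb z - cb w := rfl
@[simp] theorem cc_sub (j : Fin 5) : cc (z - w) j = cc z j - cc w j := rfl
@[simp] theorem cn_sub (i : Fin 4) : cn (z - w) i = cn z i - cn w i := rfl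
@[simp] theorem ca_smul (m : ℤ) : ca (m • z) = m * ca z := rfl
@[simp] theorem cb_smul (m : ℤ) : cb (m • z) = m * cb z := rfl
@[simp] theorem cc_smul (m : ℤ) (j : Fin 5) : cc (m • z) j = m * cc z j := rfl
@[simp] theorem cn_smul (m : ℤ) (i : Fin 4) : cn (m • z) i = m * cn z i := rfl
@[simp] theorem ca_zero : ca 0 = 0 := rfl
@[simp] theorem cb_zero : cb 0 = 0 := rfl
@[simp] theorem cc_zero (j : Fin 5) : cc 0 j = 0 := rfl
@[simp] theorem cn_zero (i : Fin 4) : cn 0 i = 0 := rfl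
@[simp] theorem ca_C0 : ca C0 = 2 := rfl
@[simp] theorem cb_C0 : cb C0 = 2 := rfl
@[simp] theorem cc_C0 (j : Fin 5) : cc C0 j = 1 := rfl
@[simp] theorem cn_C0 (i : Fin 4) : cn C0 i = 0 := rfl
@[simp] theorem ca_R0 (i : Fin 4) : ca (R0 i) = 0 := rfl
@[simp] theorem cb_R0 (i : Fin 4) : cb (R0 i) = 0 := rfl
@[simp] theorem cc_R0 (i : Fin 4) (j : Fin 5) : cc (R0 i) j = 0 := rfl
theorem cn_R0 (i i' : Fin 4) : cn (R0 i) i' = if i' = i then -2 else 0 := rfl
@[simp] theorem ca_E0 (j : Fin 5) : ca (E0 j) = 0 := rfl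
@[simp] theorem cb_E0 (j : Fin 5) : cb (E0 j) = 0 := rfl
theorem cc_E0 (j j' : Fin 5) : cc (E0 j) j' = if j' = j then -1 else 0 := rfl
@[simp] theorem cn_E0 (j : Fin 5) (i : Fin 4) : cn (E0 j) i = 0 := rfl

variable {z w} in
theorem Cl.ext (ha : ca z = ca w) (hb : cb z = cb w) (hc : ∀ j, cc z j = cc w j)
    (hn : ∀ i, cn z i = cn w i) : z = w := by
  obtain ⟨a, b, c, n⟩ := z
  obtain ⟨a', b', c', n'⟩ := w
  have h1 : a = a' := ha
  have h2 : b = b' := hb
  have h3 : c = c' := funext hc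
  have h4 : n = n' := funext hn
  rw [h1, h2, h3, h4]

theorem B_comm : B z w = B w z := by
  unfold B
  simp only [Fin.sum_univ_five, Fin.sum_univ_four]
  ring

theorem B_add_left : B (z + w) y = B z y + B w y := by
  unfold B
  simp only [Fin.sum_univ_five, Fin.sum_univ_four, ca_add, cb_add, cc_add, cn_add]
  ring

theorem B_add_right : B y (z + w) = B y z + B y w := by
  rw [B_comm, B_add_left, B_comm z, B_comm w]

theorem B_sub_left : B (z - w) y = B z y - B w y := by
  unfold B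
  simp only [Fin.sum_univ_five, Fin.sum_univ_four, ca_sub, cb_sub, cc_sub, cn_sub]
  ring

theorem B_sub_right : B y (z - w) = B y z - B y w := by
  rw [B_comm, B_sub_left, B_comm z, B_comm w]

theorem B_smul_left (m : ℤ) : B (m • z) y = m * B z y := by
  unfold B
  simp only [Fin.sum_univ_five, Fin.sum_univ_four, ca_smul, cb_smul, cc_smul, cn_smul]
  ring

theorem B_smul_right (m : ℤ) : B y (m • z) = m * B y z := by
  rw [B_comm, B_smul_left, B_comm z]

@[simp] theorem B_C0 : B z C0 = 2 * k z := by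
  unfold B k
  simp only [Fin.sum_univ_five, Fin.sum_univ_four, ca_C0, cb_C0, cc_C0, cn_C0]
  ring

@[simp] theorem B_C0' : B C0 z = 2 * k z := by rw [B_comm, B_C0]

@[simp] theorem B_R0 (i : Fin 4) : B z (R0 i) = 2 * cn z i := by
  unfold B
  simp only [Fin.sum_univ_five, Fin.sum_univ_four, ca_R0, cb_R0, cc_R0, cn_R0]
  fin_cases i <;> simp <;> ring

@[simp] theorem B_R0' (i : Fin 4) : B (R0 i) z = 2 * cn z i := by rw [B_comm, B_R0]

@[simp] theorem B_E0 (j : Fin 5) : B z (E0 j) = 2 * cc z j := by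
  unfold B
  simp only [Fin.sum_univ_five, Fin.sum_univ_four, ca_E0, cb_E0, cc_E0, cn_E0]
  fin_cases j <;> simp

@[simp] theorem B_E0' (j : Fin 5) : B (E0 j) z = 2 * cc z j := by rw [B_comm, B_E0]

@[simp] theorem k_add : k (z + w) = k z + k w := by
  unfold k
  simp only [Fin.sum_univ_five, ca_add, cb_add, cc_add]
  ring

@[simp] theorem k_sub : k (z - w) = k z - k w := by
  unfold k
  simp only [Fin.sum_univ_five, ca_sub, cb_sub, cc_sub]
  ring

@[simp] theorem k_smul (m : ℤ) : k (m • z) = m * k z := by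
  unfold k
  simp only [Fin.sum_univ_five, ca_smul, cb_smul, cc_smul]
  ring

@[simp] theorem k_zero : k 0 = 0 := by simp [k]
@[simp] theorem k_C0 : k C0 = -1 := by simp [k]
@[simp] theorem k_R0 (i : Fin 4) : k (R0 i) = 0 := by simp [k]
@[simp] theorem k_E0 (j : Fin 5) : k (E0 j) = 1 := by simp [k, cc_E0]

@[simp] theorem t_add : t (z + w) = t z + t w := by
  unfold t
  simp only [ca_add, cb_add]
  ring

@[simp] theorem t_sub : t (z - w) = t z - t w := by
  unfold t
  simp only [ca_sub, cb_sub]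
  ring

@[simp] theorem t_smul (m : ℤ) : t (m • z) = m * t z := by
  unfold t
  simp only [ca_smul, cb_smul]
  ring

@[simp] theorem t_zero : t 0 = 0 := by simp [t]
@[simp] theorem t_C0 : t C0 = 4 := by simp [t]
@[simp] theorem t_R0 (i : Fin 4) : t (R0 i) = 0 := by simp [t]
@[simp] theorem t_E0 (j : Fin 5) : t (E0 j) = 0 := by simp [t]
@[simp] theorem B_zero : B z 0 = 0 := by simp [B]
@[simp] theorem B_zero' : B 0 z = 0 := by simp [B]

end basic

theorem L_zero : L 0 := by simp [L]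

theorem L_C0 : L C0 := by
  refine ⟨?_, ?_, ?_⟩ <;> simp only [cn_C0, ca_C0, cb_C0] <;> decide

theorem L_R0 (i : Fin 4) : L (R0 i) := by
  fin_cases i <;> (refine ⟨?_, ?_, ?_⟩ <;> simp [cn_R0])

theorem L_E0 (j : Fin 5) : L (E0 j) := by
  refine ⟨?_, ?_, ?_⟩ <;> simp

theorem L.add {z w : Cl} (hz : L z) (hw : L w) : L (z + w) := by
  obtain ⟨h1, h2, h3⟩ := hz
  obtain ⟨g1, g2, g3⟩ := hw
  refine ⟨?_, ?_, ?_⟩
  · have e : cn (z + w) 0 + cn (z + w) 1 + cb (z + w) =
        (cn z 0 + cn z 1 + cb z) + (cn w 0 + cn w 1 + cb w) := by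
      simp only [cn_add, cb_add]
      ring
    rw [e]
    exact h1.add g1
  · have e : cn (z + w) 0 + cn (z + w) 2 + ca (z + w) =
        (cn z 0 + cn z 2 + ca z) + (cn w 0 + cn w 2 + ca w) := by
      simp only [cn_add, ca_add]
      ring
    rw [e]
    exact h2.add g2
  · have e : cn (z + w) 0 + cn (z + w) 3 + ca (z + w) + cb (z + w) =
        (cn z 0 + cn z 3 + ca z + cb z) + (cn w 0 + cn w 3 + ca w + cb w) := by
      simp only [cn_add, ca_add, cb_add]
      ring
    rw [e]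
    exact h3.add g3

theorem L.smul {z : Cl} (hz : L z) (m : ℤ) : L (m • z) := by
  obtain ⟨h1, h2, h3⟩ := hz
  refine ⟨?_, ?_, ?_⟩
  · have e : cn (m • z) 0 + cn (m • z) 1 + cb (m • z) = m * (cn z 0 + cn z 1 + cb z) := by
      simp only [cn_smul, cb_smul]
      ring
    rw [e]
    exact h1.mul_left m
  · have e : cn (m • z) 0 + cn (m • z) 2 + ca (m • z) = m * (cn z 0 + cn z 2 + ca z) := by
      simp only [cn_smul, ca_smul]
      ring
    rw [e]
    exact h2.mul_left m
  · have e : cn (m • z) 0 + cn (m • z) 3 + ca (m • z) + cb (m • z) =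
        m * (cn z 0 + cn z 3 + ca z + cb z) := by
      simp only [cn_smul, ca_smul, cb_smul]
      ring
    rw [e]
    exact h3.mul_left m

theorem L.sub {z w : Cl} (hz : L z) (hw : L w) : L (z - w) := by
  have h : z - w = z + (-1 : ℤ) • w := by
    rw [neg_one_smul, sub_eq_add_neg]
  rw [h]
  exact hz.add (hw.smul _)

theorem L_W0 (j : Fin 5) : L (W0 j) := L_C0.add (L_E0 j)

/-- the form is even on `L` -/
theorem even_B {z w : Cl} (hz : L z) (hw : L w) : Even (B z w) := by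
  obtain ⟨⟨x1, h1⟩, ⟨x2, h2⟩, ⟨x3, h3⟩⟩ := hz
  obtain ⟨⟨y1, g1⟩, ⟨y2, g2⟩, ⟨y3, g3⟩⟩ := hw
  have e1 : cn z 1 = 2 * x1 - cn z 0 - cb z := by linarith
  have e2 : cn z 2 = 2 * x2 - cn z 0 - ca z := by linarith
  have e3 : cn z 3 = 2 * x3 - cn z 0 - ca z - cb z := by linarith
  have f1 : cn w 1 = 2 * y1 - cn w 0 - cb w := by linarith
  have f2 : cn w 2 = 2 * y2 - cn w 0 - ca w := by linarith
  have f3 : cn w 3 = 2 * y3 - cn w 0 - ca w - cb w := by linarith
  unfold B
  simp only [Fin.sum_univ_four]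
  rw [e1, e2, e3, f1, f2, f3]
  generalize (∑ j, cc z j * cc w j) = u
  refine ⟨-u - 2 * (x1 * y1 + x2 * y2 + x3 * y3) +
    (x1 * (cn w 0 + cb w) + y1 * (cn z 0 + cb z) + x2 * (cn w 0 + ca w) + y2 * (cn z 0 + ca z) +
      x3 * (cn w 0 + ca w + cb w) + y3 * (cn z 0 + ca z + cb z)) -
    2 * cn z 0 * cn w 0 - cn z 0 * (ca w + cb w) - cn w 0 * (ca z + cb z) - ca z * ca w -
      cb z * cb w, ?_⟩
  ring

/-- `4 ∣ B z z` on the orthogonal complement of `C0` in `L` -/
theorem four_dvd {z : Cl} (hz : L z) (hk : k z = 0) : (4 : ℤ) ∣ B z z := by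
  obtain ⟨⟨x1, h1⟩, ⟨x2, h2⟩, ⟨x3, h3⟩⟩ := hz
  have e1 : cn z 1 = 2 * x1 - cn z 0 - cb z := by linarith
  have e2 : cn z 2 = 2 * x2 - cn z 0 - ca z := by linarith
  have e3 : cn z 3 = 2 * x3 - cn z 0 - ca z - cb z := by linarith
  have hp : ∀ x : ℤ, ∃ y, x * x = x + 2 * y := by
    intro x
    obtain ⟨y, hy⟩ := Int.even_mul_pred_self x
    exact ⟨y, by linarith⟩
  choose f hf using hp
  unfold k at hk
  unfold B
  simp only [Fin.sum_univ_four, Fin.sum_univ_five] at *
  have hu := hf (cc z 0)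
  have hu1 := hf (cc z 1)
  have hu2 := hf (cc z 2)
  have hu3 := hf (cc z 3)
  have hu4 := hf (cc z 4)
  have ha := hf (ca z)
  have hb := hf (cb z)
  rw [e1, e2, e3]
  refine ⟨-(f (cc z 0) + f (cc z 1) + f (cc z 2) + f (cc z 3) + f (cc z 4)) - (f (ca z) + f (cb z))
    - (ca z + cb z) - (x1 * x1 + x2 * x2 + x3 * x3) +
    (x1 * (cn z 0 + cb z) + x2 * (cn z 0 + ca z) + x3 * (cn z 0 + ca z + cb z)) -
    cn z 0 * cn z 0 - cn z 0 * (ca z + cb z), ?_⟩
  linear_combination (2 : ℤ) * hk - 2 * (hu + hu1 + hu2 + hu3 + hu4) - 2 * (ha + hb)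

/-- the form is Lorentzian, with time direction `t` -/
theorem two_B_self (z : Cl) :
    2 * B z z = t z ^ 2 - ((ca z - cb z) ^ 2 + 4 * ∑ j, cc z j ^ 2 + 2 * ∑ i, cn z i ^ 2) := by
  unfold B t
  simp only [Fin.sum_univ_five, Fin.sum_univ_four]
  ring

theorem eq_zero_of_t {z : Cl} (ht : t z = 0) (hB : 0 ≤ B z z) : z = 0 := by
  have h := two_B_self z
  have h1 : 0 ≤ (ca z - cb z) ^ 2 := sq_nonneg _
  have h2 : 0 ≤ ∑ j, cc z j ^ 2 := Finset.sum_nonneg fun _ _ => sq_nonneg _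
  have h3 : 0 ≤ ∑ i, cn z i ^ 2 := Finset.sum_nonneg fun _ _ => sq_nonneg _
  rw [ht] at h
  have g1 : (ca z - cb z) ^ 2 = 0 := by linarith
  have g2 : ∑ j, cc z j ^ 2 = 0 := by linarith
  have g3 : ∑ i, cn z i ^ 2 = 0 := by linarith
  rw [Finset.sum_eq_zero_iff_of_nonneg fun _ _ => sq_nonneg _] at g2 g3
  have g1' : ca z - cb z = 0 := by simpa using g1
  unfold t at ht
  refine Cl.ext ?_ ?_ ?_ ?_
  · rw [ca_zero]
    omega
  · rw [cb_zero]
    omega
  · intro j
    simpa using g2 j (Finset.mem_univ _)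
  · intro i
    simpa using g3 i (Finset.mem_univ _)

theorem B_le_of_t {z : Cl} (ht : t z = 0) : B z z ≤ 0 := by
  have h := two_B_self z
  have h1 : 0 ≤ (ca z - cb z) ^ 2 := sq_nonneg _
  have h2 : 0 ≤ ∑ j, cc z j ^ 2 := Finset.sum_nonneg fun _ _ => sq_nonneg _
  have h3 : 0 ≤ ∑ i, cn z i ^ 2 := Finset.sum_nonneg fun _ _ => sq_nonneg _
  rw [ht] at h
  linarith

private theorem lor_aux (y w : Cl) : B (t w • y - t y • w) (t w • y - t y • w) =
    t w ^ 2 * B y y + t y ^ 2 * B w w - 2 * (t y * t w) * B y w := by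
  rw [B_sub_left, B_sub_right, B_sub_right, B_smul_left, B_smul_left, B_smul_right, B_smul_right,
    B_smul_left, B_smul_left, B_smul_right, B_smul_right, B_comm w y]
  ring

private theorem lor_t (y w : Cl) : t (t w • y - t y • w) = 0 := by
  rw [t_sub, t_smul, t_smul]
  ring

/-- reversed Cauchy-Schwarz -/
theorem lor_nonneg {y w : Cl} (hy : 0 < t y) (hw : 0 < t w) (hBy : 0 ≤ B y y) (hBw : 0 ≤ B w w) :
    0 ≤ B y w := by
  have h := B_le_of_t (lor_t y w)
  rw [lor_aux] at h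
  have h1 : 0 ≤ t w ^ 2 * B y y := by positivity
  have h2 : 0 ≤ t y ^ 2 * B w w := by positivity
  have h3 : 0 < 2 * (t y * t w) := by positivity
  by_contra hneg
  push Not at hneg
  have h4 := mul_neg_of_pos_of_neg h3 hneg
  linarith

/-- equality case -/
theorem lor_eq {y w : Cl} (hy : 0 < t y) (hw : 0 < t w) (hBy : 0 ≤ B y y) (hBw : 0 ≤ B w w)
    (h : B y w ≤ 0) : t w • y = t y • w ∧ B y y = 0 ∧ B w w = 0 := by
  have h0 := B_le_of_t (lor_t y w)
  have haux := lor_aux y w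
  have h1 : 0 ≤ t w ^ 2 * B y y := by positivity
  have h2 : 0 ≤ t y ^ 2 * B w w := by positivity
  have h3 : 0 < 2 * (t y * t w) := by positivity
  have h4 : 2 * (t y * t w) * B y w ≤ 0 := mul_nonpos_of_nonneg_of_nonpos h3.le h
  have h5 : t w ^ 2 * B y y = 0 := by linarith
  have h6 : t y ^ 2 * B w w = 0 := by linarith
  have h7 : 0 ≤ B (t w • y - t y • w) (t w • y - t y • w) := by
    rw [haux]
    linarith
  refine ⟨sub_eq_zero.1 (eq_zero_of_t (lor_t y w) h7), ?_, ?_⟩
  · rcases mul_eq_zero.1 h5 with h8 | h8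
    · exact absurd h8 (by positivity)
    · exact h8
  · rcases mul_eq_zero.1 h6 with h8 | h8
    · exact absurd h8 (by positivity)
    · exact h8

theorem t_W0 (j : Fin 5) : t (W0 j) = 4 := by simp [W0]

theorem k_W0 (j : Fin 5) : k (W0 j) = 0 := by simp [W0]

theorem B_W0 (z : Cl) (j : Fin 5) : B z (W0 j) = 2 * k z + 2 * cc z j := by
  rw [W0, B_add_right, B_C0, B_E0]

theorem B_W0_self (j : Fin 5) : B (W0 j) (W0 j) = 0 := by
  rw [B_W0, k_W0]
  simp [W0, cc_E0]

/-- nonzero classes of the round cone have degrees at least two and nonnegative multiplicities -/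
theorem cone_ge {z : Cl} (hk : k z = 0) (ht : 0 < t z) (hB : 0 ≤ B z z) :
    2 ≤ ca z ∧ 2 ≤ cb z ∧ ∀ j, 0 ≤ cc z j := by
  have hc : ∀ j, 0 ≤ cc z j := by
    intro j
    have h := lor_nonneg ht (by rw [t_W0]; norm_num : 0 < t (W0 j)) hB (by rw [B_W0_self])
    rw [B_W0, hk] at h
    linarith
  have h1 : ca z + cb z ≤ ∑ j, cc z j * cc z j := by
    have h2 : ∑ j, cc z j ≤ ∑ j, cc z j * cc z j := by
      refine Finset.sum_le_sum fun j _ => ?_
      have := hc j
      rcases eq_or_lt_of_le this with h | h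
      · rw [← h]
        norm_num
      · nlinarith
    unfold k at hk
    linarith
  have h3 : 0 ≤ ∑ i, cn z i * cn z i := Finset.sum_nonneg fun _ _ => mul_self_nonneg _
  have h4 : ca z + cb z ≤ ca z * cb z := by
    unfold B at hB
    nlinarith
  unfold t at ht
  have ha : 0 < ca z := by
    by_contra h
    push Not at h
    nlinarith
  have hb : 0 < cb z := by
    by_contra h
    push Not at h
    nlinarith
  refine ⟨?_, ?_, hc⟩
  · by_contra h
    have : ca z = 1 := by omega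
    rw [this] at h4
    omega
  · by_contra h
    have : cb z = 1 := by omega
    rw [this] at h4
    omega

/-- primitive isotropic classes -/
def Prim (W : Cl) : Prop := L W ∧ k W = 0 ∧ B W W = 0 ∧ 0 < t W ∧ (∀ i, 0 ≤ cn W i) ∧
  ∀ y, L y → k y = 0 → B y y = 0 → 0 < t y → t W • y = t y • W → t W ≤ t y

/-- a primitive class orthogonal to `W0 j` is `W0 j` -/
theorem Prim.eq_W0 {W : Cl} (hW : Prim W) {j : Fin 5} (hj : cc W j ≤ 0) : W = W0 j := by
  obtain ⟨hL, hk, hB, ht, hn, hmin⟩ := hW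
  have h0 : B W (W0 j) ≤ 0 := by
    rw [B_W0, hk]
    linarith
  obtain ⟨h1, -, -⟩ := lor_eq ht (by rw [t_W0]; norm_num : 0 < t (W0 j)) hB.ge
    (by rw [B_W0_self]) h0
  have h2 := hmin (W0 j) (L_W0 j) (k_W0 j) (B_W0_self j) (by rw [t_W0]; norm_num) h1.symm
  rw [t_W0] at h2
  obtain ⟨h3, h4, -⟩ := cone_ge hk ht hB.ge
  have h5 : t W = 4 := by
    unfold t at *
    omega
  rw [t_W0, h5] at h1
  refine Cl.ext ?_ ?_ ?_ ?_
  · have := congrArg ca h1
    simp only [ca_smul] at this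
    omega
  · have := congrArg cb h1
    simp only [cb_smul] at this
    omega
  · intro i
    have := congrFun (congrArg cc h1) i
    simp only [cc_smul] at this
    omega
  · intro i
    have := congrFun (congrArg cn h1) i
    simp only [cn_smul] at this
    omega

/-- every isotropic class is a multiple of a primitive one -/
theorem exists_prim_ray {N : Cl} (hL : L N) (hk : k N = 0) (ht : 0 < t N)
    (hn : ∀ i, 0 ≤ cn N i) (hB : B N N = 0) :
    ∃ W, Prim W ∧ t W • N = t N • W ∧ t W ≤ t N := by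
  classical
  let P : ℕ → Prop := fun m => ∃ W, L W ∧ k W = 0 ∧ B W W = 0 ∧ 0 < t W ∧
    t W • N = t N • W ∧ t W = m
  have hP : ∃ m, P m := ⟨(t N).toNat, N, hL, hk, hB, ht, rfl, by
    rw [Int.toNat_of_nonneg ht.le]⟩
  obtain ⟨W, hWL, hWk, hWB, hWt, hWN, hWm⟩ := Nat.find_spec hP
  have hle : t W ≤ t N := by
    have h1 : Nat.find hP ≤ (t N).toNat := Nat.find_min' hP ⟨N, hL, hk, hB, ht, rfl, by
      rw [Int.toNat_of_nonneg ht.le]⟩
    omega
  refine ⟨W, ⟨hWL, hWk, hWB, hWt, ?_, ?_⟩, hWN, hle⟩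
  · intro i
    have h1 := congrFun (congrArg cn hWN) i
    simp only [cn_smul] at h1
    have h2 : 0 ≤ t N * cn W i := by
      rw [← h1]
      exact mul_nonneg hWt.le (hn i)
    exact nonneg_of_mul_nonneg_right h2 ht
  · intro y hyL hyk hyB hyt hyW
    have h1 : t y • N = t N • y := by
      have h2 : t W • (t y • N) = t W • (t N • y) := by
        rw [smul_comm, hWN, smul_comm, smul_comm (t W) (t N) y, hyW]
      have h3 : t W ≠ 0 := hWt.ne'
      exact smul_right_injective Cl h3 h2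
    have h2 : Nat.find hP ≤ (t y).toNat := Nat.find_min' hP ⟨y, hyL, hyk, hyB, hyt, h1, by
      rw [Int.toNat_of_nonneg hyt.le]⟩
    omega

end Pool.Agent.Lib.MP_6b2d39_ag.Rc
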