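import Pool.Agent.Lib.MP_6b2d39_ag.Rc.Split
import Pool.Agent.Lib.MP_6b2d39_agCr.Lower
import Pool.Agent.Lib.MP_6b2d39_agCr.CoordVan

/-!
ROUND: from `ℙ¹ × ℙ¹` to the plane.
-/

open MvPolynomial

namespace Pool.Agent.Lib.MP_6b2d39_ag.Rc

open Pool.Agent.Lib.MP_ed661f_ag.E Pool.Agent.Lib.MP_ed661f_ag.R Pool.Agent.Lib.MP_6b2d39_agCr

/-- the point of the plane which corresponds to `w` -/
noncomputable def pt (w : Pt) : Fin 3 → ℂ := ![(w 0 - P0 0 0)⁻¹, (w 1 - P0 0 1)⁻¹, 1]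

/-- the special configuration of fifteen points of the plane -/
noncomputable def PP : Fin 15 → Fin 3 → ℂ :=
  ![![0, 1, 0], ![1, 0, 0], pt (P1 0), pt (P0 1), pt (P1 1), pt (P0 2), pt (P1 2), pt (P0 3),
    pt (P1 3), pt (P0 4), pt (P1 4), pt (Y0 0), pt (Y0 1), pt (Y0 2), pt (Y0 3)]

/-- the multiplicities -/
def mm (p q s : ℕ) (c n : Fin 4 → ℕ) : Fin 15 → ℕ :=
  ![p, q, s, c 0, c 0, c 1, c 1, c 2, c 2, c 3, c 3, n 0, n 1, n 2, n 3]

/-! ### auxiliary lemmas -/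

private theorem pl_ext2 {e f : Fin 2 →₀ ℕ} (h0 : e 0 = f 0) (h1 : e 1 = f 1) : e = f := by
  ext i
  fin_cases i
  · exact h0
  · exact h1

private theorem pl_deh_monomial (u : Fin 3 →₀ ℕ) (c : ℂ) : deh (monomial u c) =
    monomial (Finsupp.single (0 : Fin 2) (u 0) + Finsupp.single 1 (u 1)) c := by
  rw [deh, aeval_monomial, Finsupp.prod_fintype _ _ (fun i => pow_zero _), Fin.prod_univ_three,
    algebraMap_eq]
  have h1 : (monomial (Finsupp.single (0 : Fin 2) (u 0) + Finsupp.single 1 (u 1)) c :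
      MvPolynomial (Fin 2) ℂ) = C c * (X 0 ^ u 0 * X 1 ^ u 1) := by
    rw [X_pow_eq_monomial, X_pow_eq_monomial, monomial_mul, C_mul_monomial, one_mul, mul_one]
  rw [h1]
  simp

private theorem pl_deh_coeff {F : MvPolynomial (Fin 3) ℂ} {e : Fin 2 →₀ ℕ}
    (he : coeff e (deh F) ≠ 0) : ∃ u ∈ F.support, u 0 = e 0 ∧ u 1 = e 1 := by
  classical
  have h1 : deh F = ∑ u ∈ F.support,
      monomial (Finsupp.single (0 : Fin 2) (u 0) + Finsupp.single 1 (u 1)) (coeff u F) := by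
    conv_lhs => rw [F.as_sum, map_sum]
    exact Finset.sum_congr rfl fun u _ => pl_deh_monomial u _
  rw [h1, coeff_sum] at he
  obtain ⟨u, hu, h2⟩ := Finset.exists_ne_zero_of_sum_ne_zero he
  rw [coeff_monomial] at h2
  split_ifs at h2 with h3
  · refine ⟨u, hu, ?_, ?_⟩
    · rw [← h3]
      simp
    · rw [← h3]
      simp
  · exact absurd rfl h2

private theorem pl_degree {d : ℕ} {F : MvPolynomial (Fin 3) ℂ} (hF : F.IsHomogeneous d)
    {u : Fin 3 →₀ ℕ} (hu : u ∈ F.support) : u 0 + u 1 + u 2 = d := by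
  have h1 : u.degree = d := by
    by_contra h
    exact (mem_support_iff.1 hu) (hF.coeff_eq_zero h)
  rwa [Finsupp.degree_eq_sum, Fin.sum_univ_three] at h1

private theorem pl_tay_tay (p q : Pt) (u : Pol) : tay p (tay q u) = tay (p + q) u := by
  have h : (aeval (fun i => X i + C (p i)) : Pol →ₐ[ℂ] Pol).comp
      (aeval (fun i => X i + C (q i))) = aeval (fun i => X i + C ((p + q) i)) := by
    apply MvPolynomial.algHom_ext
    intro i
    simp only [AlgHom.comp_apply, aeval_X, map_add, algHom_C, algebraMap_eq, Pi.add_apply]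
    ring
  exact DFunLike.congr_fun h u

private theorem pl_tay_inj (p : Pt) {u v : Pol} (h : tay p u = tay p v) : u = v := by
  have h1 := Bz.tay_neg_tay (-p) u
  have h2 := Bz.tay_neg_tay (-p) v
  rw [neg_neg] at h1 h2
  rw [← h1, ← h2, h]

private theorem pl_ord_of_mem {p : Pt} {m : ℕ} {f : Pol} (hf : f ∈ (RingHom.ker (eval p)) ^ m) :
    Bz.Ord m (tay p f) := by
  have h1 : Ideal.map (aeval (fun i => X i + C (p i)) : Pol →ₐ[ℂ] Pol).toRingHom
      (RingHom.ker (eval p)) ≤ idealOfVars (Fin 2) ℂ := by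
    rw [Ideal.map_le_iff_le_comap]
    intro g hg
    rw [Ideal.mem_comap]
    have h2 : eval p g = 0 := hg
    rw [← pow_one (idealOfVars (Fin 2) ℂ), mem_pow_idealOfVars_iff']
    intro x hx
    have hx0 : x = 0 := by
      have : x.degree = 0 := by omega
      exact (Finsupp.degree_eq_zero_iff x).1 this
    rw [hx0]
    have h3 : (constantCoeff.comp (aeval (fun i => X i + C (p i)) : Pol →ₐ[ℂ] Pol).toRingHom :
        Pol →+* ℂ) = eval p := by
      apply MvPolynomial.ringHom_ext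
      · intro r
        simp
      · intro s
        simp
    have h4 := RingHom.congr_fun h3 g
    rw [h2] at h4
    exact h4
  have h3 := Ideal.mem_map_of_mem (aeval (fun i => X i + C (p i)) : Pol →ₐ[ℂ] Pol).toRingHom hf
  rw [Ideal.map_pow] at h3
  have h4 := Ideal.pow_right_mono h1 m h3
  rw [mem_pow_idealOfVars_iff'] at h4
  exact h4

private theorem pl_box {p q s : ℕ} {F : MvPolynomial (Fin 3) ℂ}
    (h0 : ∀ u ∈ F.support, u 1 + p ≤ p + q + s) (h1 : ∀ u ∈ F.support, u 0 + q ≤ p + q + s) :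
    deh F ∈ Box (p + s) (q + s) := by
  rw [mem_Box_support]
  intro e he
  obtain ⟨u, hu, h2, h3⟩ := pl_deh_coeff (mem_support_iff.1 he)
  have := h0 u hu
  have := h1 u hu
  omega

private theorem pl_origin {p q s : ℕ} {F : MvPolynomial (Fin 3) ℂ}
    (hF : F.IsHomogeneous (p + q + s)) (hB : deh F ∈ Box (p + s) (q + s)) :
    Bz.Ord s (rev (p + s) (q + s) (deh F)) := by
  intro e he
  by_contra h
  have h1 := mem_Box_support.1 (rev_mem (A := p + s) (B := q + s) (deh F)) e (mem_support_iff.2 h)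
  rw [coeff_rev hB h1.1 h1.2] at h
  obtain ⟨u, hu, h2, h3⟩ := pl_deh_coeff h
  rw [rexp_zero] at h2
  rw [rexp_one] at h3
  have h4 := pl_degree hF hu
  rw [Bz.degree_two'] at he
  omega

private theorem pl_van {a b m : ℕ} {d : ℕ} {F : MvPolynomial (Fin 3) ℂ} (hF : F.IsHomogeneous d)
    (hB : deh F ∈ Box a b) {w : Pt} (h0 : w 0 ≠ P0 0 0) (h1 : w 1 ≠ P0 0 1)
    (h : Van m (pt w) F) : tay (-P0 0) (rev a b (deh F)) ∈ vanp m w := by
  have h2 := (van_deh_iff hF m ![(w 0 - P0 0 0)⁻¹, (w 1 - P0 0 1)⁻¹]).1 h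
  have h3 := pl_ord_of_mem h2
  have ht : Tor ![(w 0 - P0 0 0)⁻¹, (w 1 - P0 0 1)⁻¹] :=
    ⟨inv_ne_zero (sub_ne_zero.2 h0), inv_ne_zero (sub_ne_zero.2 h1)⟩
  have h4 := ord_rev hB ht h3
  have h5 : Pool.Agent.Lib.MP_ed661f_ag.R.inv ![(w 0 - P0 0 0)⁻¹, (w 1 - P0 0 1)⁻¹] =
      w + -P0 0 := by
    funext i
    fin_cases i
    · simp [Pool.Agent.Lib.MP_ed661f_ag.R.inv, sub_eq_add_neg]
    · simp [Pool.Agent.Lib.MP_ed661f_ag.R.inv, sub_eq_add_neg]
  rw [h5] at h4
  rw [mem_vanp, pl_tay_tay]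
  exact h4

private theorem pl_ne0 (j : Fin 4) : P0 j.succ 0 ≠ P0 0 0 ∧ P0 j.succ 1 ≠ P0 0 1 := by
  fin_cases j <;> simp [P0, T0] <;> norm_num

private theorem pl_ne1 (j : Fin 5) : P1 j 0 ≠ P0 0 0 ∧ P1 j 1 ≠ P0 0 1 := by
  fin_cases j <;> simp [P0, P1, T0, Pool.Agent.Lib.MP_ed661f_ag.R.inv] <;> norm_num

private theorem pl_neY (i : Fin 4) : Y0 i 0 ≠ P0 0 0 ∧ Y0 i 1 ≠ P0 0 1 := by
  fin_cases i <;> simp [P0, Y0, T0] <;> norm_num

private theorem pl_mem (p q s : ℕ) (c n : Fin 4 → ℕ) {F : MvPolynomial (Fin 3) ℂ}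
    (hF : F ∈ curves (p + q + s) (mm p q s c n) PP) :
    deh F ∈ Box (p + s) (q + s) ∧
    tay (-P0 0) (rev (p + s) (q + s) (deh F)) ∈ V (p + s) (q + s) (Fin.cons s c) n := by
  obtain ⟨hF1, hF2⟩ := mem_curves.1 hF
  have e0 : (![0, 1, 0] : Fin 3 → ℂ) = Pi.single 1 1 := by
    funext i
    fin_cases i <;> simp
  have e1 : (![1, 0, 0] : Fin 3 → ℂ) = Pi.single 0 1 := by
    funext i
    fin_cases i <;> simp
  have h0 : Van p ![0, 1, 0] F := hF2 0
  have h1 : Van q ![1, 0, 0] F := hF2 1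
  rw [e0, van_single_iff hF1] at h0
  rw [e1, van_single_iff hF1] at h1
  have hB := pl_box h0 h1
  refine ⟨hB, ?_⟩
  unfold V
  rw [Submodule.mem_inf, Submodule.mem_inf, Submodule.mem_inf, Submodule.mem_iInf,
    Submodule.mem_iInf, Submodule.mem_iInf]
  refine ⟨tay_mem_Box _ (rev_mem _), fun j => ?_, fun j => ?_, fun i => ?_⟩
  · refine Fin.cases ?_ (fun j => ?_) j
    · rw [mem_vanp, pl_tay_tay, add_neg_cancel]
      have h3 := pl_origin hF1 hB
      have h4 : tay 0 (rev (p + s) (q + s) (deh F)) = rev (p + s) (q + s) (deh F) := by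
        simp [tay]
      rw [h4]
      exact h3
    · rw [Fin.cons_succ]
      apply pl_van hF1 hB (pl_ne0 j).1 (pl_ne0 j).2
      fin_cases j
      · exact hF2 3
      · exact hF2 5
      · exact hF2 7
      · exact hF2 9
  · apply pl_van hF1 hB (pl_ne1 j).1 (pl_ne1 j).2
    fin_cases j
    · exact hF2 2
    · exact hF2 4
    · exact hF2 6
    · exact hF2 8
    · exact hF2 10
  · apply pl_van hF1 hB (pl_neY i).1 (pl_neY i).2
    fin_cases i
    · exact hF2 11
    · exact hF2 12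
    · exact hF2 13
    · exact hF2 14

/-- `F ↦ tay (-P0 0) (rev a b (deh F))`, `a = p + s`, `b = q + s`; `van_single_iff`,
`van_deh_iff`, `ord_rev`, `mem_Box` -/
theorem finrank_plane_le (p q s : ℕ) (c n : Fin 4 → ℕ) :
    Module.finrank ℂ (curves (p + q + s) (mm p q s c n) PP) ≤
      Module.finrank ℂ (V (p + s) (q + s) (Fin.cons s c) n) := by
  let T : MvPolynomial (Fin 3) ℂ →ₗ[ℂ] Pol :=
    (aeval (fun i => X i + C ((-P0 0) i)) : Pol →ₐ[ℂ] Pol).toLinearMap ∘ₗ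
      (rev (p + s) (q + s)) ∘ₗ deh.toLinearMap
  have hT : ∀ F, T F = tay (-P0 0) (rev (p + s) (q + s) (deh F)) := fun F => rfl
  have hfin : FiniteDimensional ℂ (V (p + s) (q + s) (Fin.cons s c) n) :=
    Submodule.finiteDimensional_of_le
      (inf_le_left : V (p + s) (q + s) (Fin.cons s c) n ≤ Box (p + s) (q + s))
  refine LinearMap.finrank_le_finrank_of_injective
    (f := (T.domRestrict (curves (p + q + s) (mm p q s c n) PP)).codRestrict
      (V (p + s) (q + s) (Fin.cons s c) n) fun F => (pl_mem p q s c n F.2).2) ?_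
  intro F G hFG
  have h1 : T F.1 = T G.1 := congrArg Subtype.val hFG
  rw [hT, hT] at h1
  have h2 := pl_tay_inj _ h1
  have h3 := congrArg (rev (p + s) (q + s)) h2
  rw [rev_rev (pl_mem p q s c n F.2).1, rev_rev (pl_mem p q s c n G.2).1] at h3
  exact Subtype.ext (deh_injOn (mem_curves.1 F.2).1 (mem_curves.1 G.2).1 h3)

/-- the virtual dimensions agree -/
theorem vd_eq (p q s : ℕ) (c n : Fin 4 → ℕ) :
    vd (p + q + s) (mm p q s c n) = vv (p + s) (q + s) (Fin.cons s c) n := by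
  have hch : ∀ k : ℕ, (((k + 1).choose 2 : ℕ) : ℤ) * 2 = (k + 1) * k := by
    intro k
    have h := Nat.triangle_succ k
    have h2 : (k + 1).choose 2 = (k + 1) * k / 2 := by
      rw [Nat.choose_two_right, Nat.add_sub_cancel]
    have h3 : 2 ∣ (k + 1) * k := by
      rw [mul_comm]
      exact (Nat.even_mul_succ_self k).two_dvd
    rw [h2]
    have h4 := Nat.div_mul_cancel h3
    exact_mod_cast h4
  have h1 : ∑ i, ((mm p q s c n i + 1).choose 2 : ℤ) =
      ((p + 1).choose 2 : ℤ) + (q + 1).choose 2 + (s + 1).choose 2 +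
        2 * ∑ j : Fin 4, ((c j + 1).choose 2 : ℤ) + ∑ i : Fin 4, ((n i + 1).choose 2 : ℤ) := by
    simp only [Fin.sum_univ_succ, mm]
    simp
    ring
  have h2 : ∑ j, (((Fin.cons s c : Fin 5 → ℕ) j + 1).choose 2 : ℤ) =
      ((s + 1).choose 2 : ℤ) + ∑ j : Fin 4, ((c j + 1).choose 2 : ℤ) := by
    rw [Fin.sum_univ_succ]
    simp
  unfold vd vv
  rw [h1, h2]
  have e1 := hch (p + q + s + 1)
  have e2 := hch p
  have e3 := hch q
  have e4 := hch s
  push_cast at e1 e2 e3 e4 ⊢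
  have e5 : p + q + s + 1 + 1 = p + q + s + 2 := rfl
  rw [e5] at e1
  linarith

end Pool.Agent.Lib.MP_6b2d39_ag.Rc
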