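import Pool.Agent.Lib.MP_6b2d39_ag.Rc.MainT

/-!
ROUND: the class `W - 2 C0` has no sections for `W` primitive isotropic, and every isotropic class
of the round cone is a multiple of a primitive one.
-/

open MvPolynomial

namespace Pool.Agent.Lib.MP_6b2d39_ag.Rc

open Pool.Agent.Lib.MP_ed661f_ag.E Pool.Agent.Lib.MP_ed661f_ag.R

theorem h_neg {z : Cl} (ha : ca z < 0) : h z = 0 := by
  unfold h Sec
  rw [if_neg (by omega)]
  simp

theorem h_prim {W : Cl} (hW : Prim W) : h (W - C0 - C0) = 0 := by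
  by_cases hc : ∀ j, 1 ≤ cc W j
  · obtain ⟨Z, F1, s, hs, hZF, hZ, hcl⟩ := exists_exc hW hc
    have h2 := cost_orb hs hZF hZ (z := W - C0 - C0) 0 (by
      rw [hcl]
      simp only [B_sub_left, B_sub_right, B_C0, B_C0', k_sub, k_C0]
      rw [hW.2.2.1, hW.2.1]
      norm_num)
    rw [hcl] at h2
    have h3 : h (W - C0 - C0 - (W - C0)) = 0 := by
      apply h_neg
      simp only [ca_sub, ca_C0]
      omega
    rw [h3] at h2
    have := h_nonneg (W - C0 - C0)
    omega
  · push Not at hc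
    obtain ⟨j, hj⟩ := hc
    have h1 : W = W0 j := hW.eq_W0 (by omega)
    rw [h1]
    apply h_neg
    rw [W0]
    simp only [ca_sub, ca_add, ca_C0, ca_E0]
    norm_num

theorem exists_mul {N : Cl} (hL : L N) (hk : k N = 0) (ht : 0 < t N)
    (hn : ∀ i, 0 ≤ cn N i) (hB : B N N = 0) :
    ∃ W, Prim W ∧ ∃ m : ℤ, 1 ≤ m ∧ N = m • W := by
  obtain ⟨W, hW, hWN, hWt⟩ := exists_prim_ray hL hk ht hn hB
  refine ⟨W, hW, t N / t W, ?_, ?_⟩
  · exact Int.le_ediv_of_mul_le hW.2.2.2.1 (by linarith)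
  obtain ⟨hWL, hWk, hWB, hWpos, hWcn, hmin⟩ := hW
  have hNW : B N W = 0 := by
    have h1 := congrArg (fun y => B y W) hWN
    simp only [B_smul_left, hWB, mul_zero] at h1
    exact (mul_eq_zero.1 h1).resolve_left hWpos.ne'
  set q := t N / t W with hq
  have hty : t (N - q • W) = t N % t W := by
    rw [t_sub, t_smul, Int.emod_def, hq]
    ring
  have h1 : t W • (N - q • W) = t (N - q • W) • W := by
    rw [smul_sub, hWN, t_sub, t_smul, sub_smul, smul_smul, mul_comm]
  have h2 : 0 ≤ t N % t W := Int.emod_nonneg _ hWpos.ne'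
  have h3 : t N % t W < t W := Int.emod_lt_of_pos _ hWpos
  rcases h2.lt_or_eq with h4 | h4
  · have h5 := hmin (N - q • W) (hL.sub (hWL.smul q)) (by
      rw [k_sub, k_smul, hk, hWk]
      ring) (by
      rw [B_sub_left, B_sub_right, B_sub_right, B_smul_left, B_smul_right, B_smul_left,
        B_smul_right, hB, hNW, B_comm W N, hNW, hWB]
      ring) (by
      rw [hty]
      exact h4) h1
    rw [hty] at h5
    omega
  · rw [hty, ← h4, zero_smul] at h1
    have h5 : N - q • W = 0 := by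
      have h6 : t W • (N - q • W) = t W • (0 : Cl) := by
        rw [h1, smul_zero]
      exact smul_right_injective Cl hWpos.ne' h6
    exact sub_eq_zero.1 h5

/-- the isotropic case for `κ = 2` -/
theorem h_iso_two {N : Cl} (hL : L N) (hk : k N = 0) (ht : 0 < t N)
    (hn : ∀ i, 0 ≤ cn N i) (hB : B N N = 0)
    (hg : ∀ g : ℕ, (g : ℤ) ∣ ca N → (g : ℤ) ∣ cb N → (∀ j, (g : ℤ) ∣ cc N j) →
      (∀ i, (g : ℤ) ∣ cn N i) → g = 1) :
    h (N - C0 - C0) = 0 := by
  obtain ⟨W, hW, m, hm, hNW⟩ := exists_mul hL hk ht hn hB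
  have h1 : m.toNat = 1 := by
    have h2 : ((m.toNat : ℕ) : ℤ) = m := Int.toNat_of_nonneg (by omega)
    apply hg
    · rw [h2, hNW, ca_smul]
      exact Dvd.intro _ rfl
    · rw [h2, hNW, cb_smul]
      exact Dvd.intro _ rfl
    · intro j
      rw [h2, hNW, cc_smul]
      exact Dvd.intro _ rfl
    · intro i
      rw [h2, hNW, cn_smul]
      exact Dvd.intro _ rfl
  have h2 : m = 1 := by omega
  rw [h2, one_smul] at hNW
  rw [hNW]
  exact h_prim hW

end Pool.Agent.Lib.MP_6b2d39_ag.Rc
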