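import Pool.Agent.Lib.MP_6b2d39_ag.Rc.Num
import Pool.Agent.Lib.MP_ed661f_ag.R.Nef

/-!
ROUND: the spaces of semi-invariants `Sec z`.
-/

open MvPolynomial

namespace Pool.Agent.Lib.MP_6b2d39_ag.Rc

open Pool.Agent.Lib.MP_ed661f_ag.E Pool.Agent.Lib.MP_ed661f_ag.R

/-- the sign of a class -/
def sg (z : Cl) : ℤ := if Even (cn z 0) then 1 else -1

theorem sg_cases (z : Cl) : sg z = 1 ∨ sg z = -1 := by
  unfold sg
  split_ifs
  · exact Or.inl rfl
  · exact Or.inr rfl

/-- polynomials with multiplicity at least `m` at `p` -/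
noncomputable def vanp (m : ℕ) (p : Pt) : Submodule ℂ Pol where
  carrier := {F | Bz.Ord m (tay p F)}
  add_mem' {F G} hF hG := by
    intro e he
    have h1 := hF e he
    have h2 := hG e he
    rw [Bz.tay_add, coeff_add, h1, h2, add_zero]
  zero_mem' := by
    intro e _
    simp [tay]
  smul_mem' c F hF := by
    intro e he
    have h1 := hF e he
    have h2 : tay p (c • F) = c • tay p F := by simp [tay]
    rw [h2, coeff_smul, h1, smul_zero]

theorem mem_vanp {m : ℕ} {p : Pt} {F : Pol} : F ∈ vanp m p ↔ Bz.Ord m (tay p F) := Iff.rfl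

theorem mem_vanp_iff {m : ℕ} {p : Pt} {F : Pol} (hF : F ≠ 0) : F ∈ vanp m p ↔ m ≤ mlt p F := by
  rw [mem_vanp, le_mlt_iff hF]
  exact Iff.rfl

/-- the space of semi-invariants of class `z` -/
noncomputable def Sec (z : Cl) : Submodule ℂ Pol :=
  if 0 ≤ ca z ∧ 0 ≤ cb z then
    S (ca z).toNat (cb z).toNat ((sg z : ℤ) : ℂ) ⊓
      ((⨅ j, vanp (cc z j).toNat (P0 j)) ⊓ ⨅ i, vanp (cn z i).toNat (Y0 i))
  else ⊥

theorem mem_Sec {z : Cl} {F : Pol} (hF : F ≠ 0) : F ∈ Sec z ↔ 0 ≤ ca z ∧ 0 ≤ cb z ∧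
    F ∈ S (ca z).toNat (cb z).toNat ((sg z : ℤ) : ℂ) ∧ (∀ j, cc z j ≤ mlt (P0 j) F) ∧
      ∀ i, cn z i ≤ mlt (Y0 i) F := by
  unfold Sec
  split_ifs with h
  · rw [Submodule.mem_inf, Submodule.mem_inf, Submodule.mem_iInf, Submodule.mem_iInf]
    simp only [mem_vanp_iff hF]
    constructor
    · rintro ⟨h1, h2, h3⟩
      refine ⟨h.1, h.2, h1, fun j => ?_, fun i => ?_⟩
      · have := h2 j
        omega
      · have := h3 i
        omega
    · rintro ⟨-, -, h1, h2, h3⟩
      refine ⟨h1, fun j => ?_, fun i => ?_⟩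
      · have := h2 j
        omega
      · have := h3 i
        omega
  · constructor
    · intro h1
      exact absurd ((Submodule.mem_bot ℂ).1 h1) hF
    · rintro ⟨h1, h2, -⟩
      exact absurd ⟨h1, h2⟩ h

theorem Sec_le (z : Cl) : Sec z ≤ S (ca z).toNat (cb z).toNat ((sg z : ℤ) : ℂ) := by
  unfold Sec
  split_ifs
  · exact inf_le_left
  · exact bot_le

instance finite_Sec (z : Cl) : FiniteDimensional ℂ (Sec z) :=
  Submodule.finiteDimensional_of_le (Sec_le z)

/-- the dimension of `Sec z` -/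
noncomputable def h (z : Cl) : ℤ := Module.finrank ℂ (Sec z)

theorem h_nonneg (z : Cl) : 0 ≤ h z := Int.natCast_nonneg _

/-- the class of a polynomial -/
noncomputable def cls (F : Pol) : Cl :=
  ((F.degreeOf 0 : ℤ), (F.degreeOf 1 : ℤ), fun j => (mlt (P0 j) F : ℤ), fun i => (mlt (Y0 i) F : ℤ))

@[simp] theorem ca_cls (F : Pol) : ca (cls F) = F.degreeOf 0 := rfl
@[simp] theorem cb_cls (F : Pol) : cb (cls F) = F.degreeOf 1 := rfl
@[simp] theorem cc_cls (F : Pol) (j : Fin 5) : cc (cls F) j = mlt (P0 j) F := rfl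
@[simp] theorem cn_cls (F : Pol) (i : Fin 4) : cn (cls F) i = mlt (Y0 i) F := rfl

/-- enlarging the conditions by some linear forms -/
theorem finrank_le_add {N : ℕ} {V W : Submodule ℂ Pol} [FiniteDimensional ℂ V]
    [FiniteDimensional ℂ W] (φ : Pol →ₗ[ℂ] (Fin N → ℂ)) (ψ : V →ₗ[ℂ] Pol)
    (hψ : Function.Injective ψ)
    (hV : ∀ x : V, φ x = 0 → ψ x ∈ W) :
    Module.finrank ℂ V ≤ Module.finrank ℂ W + N := by
  set κ : Submodule ℂ V := LinearMap.ker (φ.comp V.subtype) with hκ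
  have hk : ∀ x : κ, (ψ.comp κ.subtype) x ∈ W := by
    intro x
    exact hV x.1 (LinearMap.mem_ker.mp x.2)
  have h1 : Module.finrank ℂ κ ≤ Module.finrank ℂ W := by
    refine LinearMap.finrank_le_finrank_of_injective
      (f := LinearMap.codRestrict W (ψ.comp κ.subtype) hk) ?_
    intro x y hxy
    have h2 := congrArg Subtype.val hxy
    exact Subtype.ext (hψ h2)
  have h2 := LinearMap.finrank_range_add_finrank_ker (φ.comp V.subtype)
  have h3 := Submodule.finrank_le (LinearMap.range (φ.comp V.subtype))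
  have h4 : Module.finrank ℂ (Fin N → ℂ) = N := by simp
  rw [← hκ] at h2
  rw [h4] at h3
  omega

private theorem sec_const {F : Pol} (h0 : F.degreeOf 0 = 0) (h1 : F.degreeOf 1 = 0) :
    F = C (coeff 0 F) := by
  ext e
  rw [coeff_C]
  split_ifs with h3
  · rw [← h3]
  · by_contra h4
    apply h3
    have h5 := mem_support_iff.mpr h4
    have h6 := monomial_le_degreeOf 0 h5
    have h7 := monomial_le_degreeOf 1 h5
    ext i
    fin_cases i
    · simp only [Finsupp.coe_zero, Pi.zero_apply]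
      simp only [Fin.zero_eta]
      omega
    · simp only [Finsupp.coe_zero, Pi.zero_apply]
      simp only [Fin.mk_one]
      omega

private theorem sec_sg (z : Cl) : ((sg z : ℤ) : ℂ) = (-1) ^ (cn z 0).natAbs := by
  unfold sg
  split_ifs with h
  · rw [Even.neg_one_pow (Int.natAbs_even.2 h)]
    norm_num
  · rw [Int.not_even_iff_odd] at h
    rw [Odd.neg_one_pow (Int.natAbs_odd.2 h)]
    norm_num

private theorem sec_pw {x y : ℕ} (h : (-1 : ℂ) ^ x = (-1) ^ y) : x % 2 = y % 2 := by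
  have hn : (1 : ℂ) ≠ -1 := by norm_num
  rcases Nat.even_or_odd x with hx | hx <;> rcases Nat.even_or_odd y with hy | hy
  · rw [Nat.even_iff] at hx hy
    omega
  · rw [hx.neg_one_pow, hy.neg_one_pow] at h
    exact absurd h hn
  · rw [hx.neg_one_pow, hy.neg_one_pow] at h
    exact absurd h.symm hn
  · rw [Nat.odd_iff] at hx hy
    omega

private theorem sec_par {A B x : ℕ} {F : Pol} (hF : F ∈ S A B ((-1) ^ x)) (h0 : F ≠ 0) :
    mlt (Y0 0) F % 2 = x % 2 ∧ mlt (Y0 1) F % 2 = (x + B) % 2 ∧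
      mlt (Y0 2) F % 2 = (x + A) % 2 ∧ mlt (Y0 3) F % 2 = (x + A + B) % 2 := by
  have h1 := parity_mlt hF h0 0
  have h2 := parity_mlt hF h0 1
  have h3 := parity_mlt hF h0 2
  have h4 := parity_mlt hF h0 3
  refine ⟨?_, ?_, ?_, ?_⟩
  · refine (sec_pw ?_).symm
    rw [← h1]
    simp [Y0]
  · refine (sec_pw ?_).symm
    rw [← h2, pow_add]
    simp [Y0]
  · refine (sec_pw ?_).symm
    rw [← h3, pow_add]
    simp [Y0]
  · refine (sec_pw ?_).symm
    rw [← h4, pow_add, pow_add]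
    simp [Y0, mul_assoc]

/-- `1` spans the sections of the class `0` -/
theorem h_zero : h 0 = 1 := by
  have hsg : ((sg 0 : ℤ) : ℂ) = 1 := by
    rw [sec_sg]
    simp
  have h1 : Sec 0 = Submodule.span ℂ {(1 : Pol)} := by
    apply le_antisymm
    · intro F hF
      rcases eq_or_ne F 0 with h0 | h0
      · rw [h0]
        exact zero_mem _
      · obtain ⟨-, -, h2, -, -⟩ := (mem_Sec h0).1 hF
        have h3 := mem_Box.1 (mem_S.1 h2).1
        simp only [ca_zero, cb_zero, Int.toNat_zero, Nat.le_zero] at h3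
        rw [Submodule.mem_span_singleton]
        refine ⟨coeff 0 F, ?_⟩
        conv_rhs => rw [sec_const h3.1 h3.2]
        rw [smul_eq_C_mul, mul_one]
    · rw [Submodule.span_singleton_le_iff_mem, mem_Sec one_ne_zero, hsg]
      refine ⟨le_rfl, le_rfl, ?_, fun j => ?_, fun i => ?_⟩
      · rw [mem_S, mem_Box]
        have h2 : (1 : Pol) = C 1 := C_1.symm
        refine ⟨⟨?_, ?_⟩, ?_⟩
        · rw [h2, degreeOf_C]
          exact Nat.zero_le _
        · rw [h2, degreeOf_C]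
          exact Nat.zero_le _
        · rw [one_smul]
          have h3 : (1 : Pol) = monomial 0 1 := rfl
          have h4 : rexp (ca 0).toNat (cb 0).toNat (0 : Fin 2 →₀ ℕ) = 0 := by
            simp [rexp]
          rw [h3, rev_monomial, h4]
      · rw [cc_zero]
        exact Int.natCast_nonneg _
      · rw [cn_zero]
        exact Int.natCast_nonneg _
  unfold h
  rw [h1, finrank_span_singleton one_ne_zero]
  rfl

/-- the conditions depend on the multiplicities monotonically -/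
theorem Sec_mono {z w : Cl} (ha : ca z = ca w) (hb : cb z = cb w) (hs : sg z = sg w)
    (hc : ∀ j, (cc w j).toNat ≤ (cc z j).toNat) (hn : ∀ i, (cn w i).toNat ≤ (cn z i).toNat) :
    Sec z ≤ Sec w := by
  intro F hF
  rcases eq_or_ne F 0 with h0 | h0
  · rw [h0]
    exact zero_mem _
  · obtain ⟨h1, h2, h3, h4, h5⟩ := (mem_Sec h0).1 hF
    rw [mem_Sec h0, ← ha, ← hb, ← hs]
    refine ⟨h1, h2, h3, fun j => ?_, fun i => ?_⟩
    · have := h4 j
      have := hc j
      omega
    · have := h5 i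
      have := hn i
      omega

/-- the multiplicities of a semi-invariant at fixed points have the parity given by `L` -/
theorem parity_L {z : Cl} (hz : L z) {F : Pol} (hF : F ∈ Sec z) (h0 : F ≠ 0) (i : Fin 4) :
    Even ((mlt (Y0 i) F : ℤ) - cn z i) := by
  obtain ⟨h1, h2, h3, -, -⟩ := (mem_Sec h0).1 hF
  rw [sec_sg] at h3
  obtain ⟨e0, e1, e2, e3⟩ := sec_par h3 h0
  obtain ⟨g1, g2, g3⟩ := hz
  rw [Int.even_iff] at g1 g2 g3 ⊢
  fin_cases i
  · simp only [Fin.zero_eta]
    omega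
  · simp only [Fin.mk_one]
    omega
  · simp only [Fin.reduceFinMk]
    omega
  · simp only [Fin.reduceFinMk]
    omega

/-- the class of a semi-invariant with exact degrees is in `L`, and its sign is the sign of the
class -/
theorem L_cls {F : Pol} {s : ℤ} (hs : s = 1 ∨ s = -1)
    (hF : F ∈ S (F.degreeOf 0) (F.degreeOf 1) (s : ℂ)) (h0 : F ≠ 0) : L (cls F) ∧ sg (cls F) = s := by
  obtain ⟨x, hx, hxs⟩ : ∃ x : ℕ, (s : ℂ) = (-1) ^ x ∧ (x = 0 ∧ s = 1 ∨ x = 1 ∧ s = -1) := by
    rcases hs with h | h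
    · exact ⟨0, by rw [h]; norm_num, Or.inl ⟨rfl, h⟩⟩
    · exact ⟨1, by rw [h]; norm_num, Or.inr ⟨rfl, h⟩⟩
  rw [hx] at hF
  obtain ⟨e0, e1, e2, e3⟩ := sec_par hF h0
  refine ⟨⟨?_, ?_, ?_⟩, ?_⟩
  · rw [Int.even_iff, cn_cls, cn_cls, cb_cls]
    omega
  · rw [Int.even_iff, cn_cls, cn_cls, ca_cls]
    omega
  · rw [Int.even_iff, cn_cls, cn_cls, cb_cls, ca_cls]
    omega
  · unfold sg
    rw [cn_cls]
    split_ifs with h
    · rw [Int.even_iff] at h
      omega
    · rw [Int.even_iff] at h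
      omega

/-- signs are multiplicative -/
theorem sg_sub (z w : Cl) : sg (z - w) = sg z * sg w := by
  unfold sg
  rw [cn_sub]
  by_cases h1 : Even (cn z 0) <;> by_cases h2 : Even (cn w 0) <;> simp [Int.even_sub, h1, h2]

/-- quotients of sections: if the semi-invariant `G` of exact degrees divides `F` in `Sec z` then
the quotient is in `Sec (z - cls G)` -/
theorem quot_mem_Sec {z : Cl} {F G H : Pol} {s : ℤ} (hs : s = 1 ∨ s = -1)
    (hG : G ∈ S (G.degreeOf 0) (G.degreeOf 1) (s : ℂ)) (hF : F ∈ Sec z) (hF0 : F ≠ 0)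
    (hFG : F = G * H) : H ∈ Sec (z - cls G) := by
  have hG0 : G ≠ 0 := by
    rintro rfl
    rw [zero_mul] at hFG
    exact hF0 hFG
  have hH0 : H ≠ 0 := by
    rintro rfl
    rw [mul_zero] at hFG
    exact hF0 hFG
  obtain ⟨h1, h2, h3, h4, h5⟩ := (mem_Sec hF0).1 hF
  obtain ⟨hB, hr⟩ := mem_S.1 h3
  obtain ⟨hGB, hGr⟩ := mem_S.1 hG
  have d0 := degreeOf_mul_eq (n := (0 : Fin 2)) hG0 hH0
  have d1 := degreeOf_mul_eq (n := (1 : Fin 2)) hG0 hH0
  rw [← hFG] at d0 d1
  obtain ⟨b0, b1⟩ := mem_Box.1 hB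
  rw [mem_Sec hH0, sg_sub, (L_cls hs hG hG0).2]
  simp only [ca_sub, cb_sub, cc_sub, cn_sub, ca_cls, cb_cls, cc_cls, cn_cls]
  have hH : H ∈ Box (ca z - (G.degreeOf 0 : ℤ)).toNat (cb z - (G.degreeOf 1 : ℤ)).toNat :=
    mem_Box.2 ⟨by omega, by omega⟩
  refine ⟨by omega, by omega, mem_S.2 ⟨hH, ?_⟩, fun j => ?_, fun i => ?_⟩
  · have h6 := rev_mul hGB hH
    have e0 : G.degreeOf 0 + (ca z - (G.degreeOf 0 : ℤ)).toNat = (ca z).toNat := by omega
    have e1 : G.degreeOf 1 + (cb z - (G.degreeOf 1 : ℤ)).toNat = (cb z).toNat := by omega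
    rw [e0, e1, ← hFG, hr, hGr, hFG, smul_mul_assoc] at h6
    have hss : (s : ℂ) * s = 1 := by
      rcases hs with h | h
      · rw [h]
        norm_num
      · rw [h]
        norm_num
    have h7 := congrArg (fun x => (s : ℂ) • x) h6
    simp only [smul_smul, hss, one_smul] at h7
    have h8 : G * rev (ca z - (G.degreeOf 0 : ℤ)).toNat (cb z - (G.degreeOf 1 : ℤ)).toNat H =
        G * (((sg z * s : ℤ) : ℂ) • H) := by
      rw [← h7, mul_smul_comm]
      congr 1
      push_cast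
      ring
    exact mul_left_cancel₀ hG0 h8
  · have h6 := h4 j
    rw [hFG, mlt_mul hG0 hH0] at h6
    push_cast at h6
    linarith
  · have h6 := h5 i
    rw [hFG, mlt_mul hG0 hH0] at h6
    push_cast at h6
    linarith

end Pool.Agent.Lib.MP_6b2d39_ag.Rc
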