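import Pool.Agent.Lib.MP_6b2d39_ag.Rc.PrimH

/-!
ROUND: the linear system at the special configuration is the sum of two spaces of semi-invariants.
-/

open MvPolynomial

namespace Pool.Agent.Lib.MP_6b2d39_ag.Rc

open Pool.Agent.Lib.MP_ed661f_ag.E Pool.Agent.Lib.MP_ed661f_ag.R

/-- the linear system on `ℙ¹ × ℙ¹` with the special points -/
noncomputable def V (a b : ℕ) (c : Fin 5 → ℕ) (n : Fin 4 → ℕ) : Submodule ℂ Pol :=
  Box a b ⊓ ((⨅ j, vanp (c j) (P0 j)) ⊓ ((⨅ j, vanp (c j) (P1 j)) ⊓ ⨅ i, vanp (n i) (Y0 i)))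

/-- the signs at the four fixed points -/
def ep (a b : ℕ) : Fin 4 → ℤ := ![1, (-1) ^ b, (-1) ^ a, (-1) ^ (a + b)]

/-- multiplicities rounded up to the parity of sign `s` -/
def up (a b : ℕ) (s : ℤ) (n : Fin 4 → ℕ) (i : Fin 4) : ℤ :=
  if s * ep a b i = (-1) ^ n i then n i else n i + 1

/-- the class of the semi-invariants of sign `s` -/
def Mcl (a b : ℕ) (c : Fin 5 → ℕ) (n : Fin 4 → ℕ) (s : ℤ) : Cl :=
  ((a : ℤ), (b : ℤ), fun j => (c j : ℤ), up a b s n)

private theorem spl_ca (a b : ℕ) (c : Fin 5 → ℕ) (n : Fin 4 → ℕ) (s : ℤ) :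
    ca (Mcl a b c n s) = a := rfl

private theorem spl_cb (a b : ℕ) (c : Fin 5 → ℕ) (n : Fin 4 → ℕ) (s : ℤ) :
    cb (Mcl a b c n s) = b := rfl

private theorem spl_cc (a b : ℕ) (c : Fin 5 → ℕ) (n : Fin 4 → ℕ) (s : ℤ) (j : Fin 5) :
    cc (Mcl a b c n s) j = c j := rfl

private theorem spl_cn (a b : ℕ) (c : Fin 5 → ℕ) (n : Fin 4 → ℕ) (s : ℤ) (i : Fin 4) :
    cn (Mcl a b c n s) i = up a b s n i := rfl

private theorem spl_pow_cases (m : ℕ) : ((-1 : ℤ) ^ m = 1 ∧ Even m) ∨ ((-1 : ℤ) ^ m = -1 ∧ ¬ Even m) := by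
  rcases Nat.even_or_odd m with h | h
  · exact Or.inl ⟨h.neg_one_pow, h⟩
  · exact Or.inr ⟨h.neg_one_pow, Nat.not_even_iff_odd.2 h⟩

private theorem spl_ep_cases (a b : ℕ) (i : Fin 4) : ep a b i = 1 ∨ ep a b i = -1 := by
  fin_cases i
  · exact Or.inl rfl
  · exact neg_one_pow_eq_or ℤ b
  · exact neg_one_pow_eq_or ℤ a
  · exact neg_one_pow_eq_or ℤ (a + b)

private theorem spl_even_up (a b : ℕ) (n : Fin 4 → ℕ) {s : ℤ} (hs : s = 1 ∨ s = -1) (i : Fin 4) :
    Even (up a b s n i) ↔ s * ep a b i = 1 := by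
  have hse : s * ep a b i = 1 ∨ s * ep a b i = -1 := by
    rcases hs with h | h <;> rcases spl_ep_cases a b i with h' | h' <;> rw [h, h'] <;> norm_num
  unfold up
  rcases spl_pow_cases (n i) with ⟨h1, h2⟩ | ⟨h1, h2⟩
  · rw [h1]
    rcases hse with h | h
    · rw [h]
      simpa using h2
    · rw [h, if_neg (by norm_num)]
      constructor
      · intro h3
        exfalso
        rw [Int.even_add_one] at h3
        exact h3 (by exact_mod_cast h2)
      · intro h3
        norm_num at h3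
  · rw [h1]
    rcases hse with h | h
    · rw [h, if_neg (by norm_num)]
      simp only [iff_true]
      rw [Int.even_add_one]
      intro h3
      exact h2 (by exact_mod_cast h3)
    · rw [h, if_pos rfl]
      constructor
      · intro h3
        exfalso
        exact h2 (by exact_mod_cast h3)
      · intro h3
        norm_num at h3

private theorem spl_up_cases (a b : ℕ) (n : Fin 4 → ℕ) (i : Fin 4) :
    (up a b 1 n i = n i ∧ up a b (-1) n i = n i + 1 ∧ ep a b i * (-1) ^ n i = 1) ∨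
      (up a b 1 n i = n i + 1 ∧ up a b (-1) n i = n i ∧ ep a b i * (-1) ^ n i = -1) := by
  unfold up
  rcases spl_pow_cases (n i) with ⟨h1, -⟩ | ⟨h1, -⟩ <;>
    rcases spl_ep_cases a b i with h' | h' <;> rw [h1, h'] <;> norm_num

theorem L_Mcl (a b : ℕ) (c : Fin 5 → ℕ) (n : Fin 4 → ℕ) {s : ℤ} (hs : s = 1 ∨ s = -1) :
    L (Mcl a b c n s) ∧ sg (Mcl a b c n s) = s := by
  have h0 : Even (up a b s n 0) ↔ s * 1 = 1 := spl_even_up a b n hs 0
  have h1 : Even (up a b s n 1) ↔ s * (-1) ^ b = 1 := spl_even_up a b n hs 1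
  have h2 : Even (up a b s n 2) ↔ s * (-1) ^ a = 1 := spl_even_up a b n hs 2
  have h3 : Even (up a b s n 3) ↔ s * (-1) ^ (a + b) = 1 := spl_even_up a b n hs 3
  refine ⟨?_, ?_⟩
  · unfold L
    simp only [spl_cn, spl_ca, spl_cb, Int.even_add, Int.even_coe_nat, h0, h1, h2, h3]
    rw [pow_add]
    rcases spl_pow_cases a with ⟨e1, f1⟩ | ⟨e1, f1⟩ <;>
      rcases spl_pow_cases b with ⟨e2, f2⟩ | ⟨e2, f2⟩ <;>
      rcases hs with hs | hs <;> rw [e1, e2, hs] <;> simp [f1, f2]
  · unfold sg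
    rw [spl_cn]
    rcases hs with hs | hs
    · rw [if_pos (h0.2 (by rw [hs]; norm_num)), hs]
    · rw [if_neg (fun h => by rw [h0, hs] at h; norm_num at h), hs]

private theorem spl_Y0 (a b : ℕ) (i : Fin 4) :
    (Y0 i 0 ^ a * Y0 i 1 ^ b : ℂ) = ((ep a b i : ℤ) : ℂ) := by
  fin_cases i <;> simp [Y0, ep, pow_add]

private theorem spl_mem {a b : ℕ} {c : Fin 5 → ℕ} {n : Fin 4 → ℕ} {F : Pol}
    (hF : F ∈ V a b c n) {s : ℤ} (hs : s = 1 ∨ s = -1) :
    (2 : ℂ)⁻¹ • (F + (s : ℂ) • rev a b F) ∈ Sec (Mcl a b c n s) := by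
  unfold V at hF
  simp only [Submodule.mem_inf, Submodule.mem_iInf, mem_vanp] at hF
  obtain ⟨hB, hP0, hP1, hY⟩ := hF
  have hss : (s : ℂ) * (s : ℂ) = 1 := by
    rcases hs with h | h <;> rw [h] <;> norm_num
  have hS : (2 : ℂ)⁻¹ • (F + (s : ℂ) • rev a b F) ∈ S a b (s : ℂ) := by
    rw [mem_S]
    refine ⟨Submodule.smul_mem _ _ (Submodule.add_mem _ hB (Submodule.smul_mem _ _ (rev_mem F))), ?_⟩
    rw [map_smul, map_add, map_smul, rev_rev hB, smul_comm (s : ℂ) (2 : ℂ)⁻¹, smul_add (s : ℂ),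
      smul_smul (s : ℂ) (s : ℂ), hss, one_smul, add_comm]
  have hvan : ∀ (m : ℕ) (p : Pt), Bz.Ord m (tay p F) → Bz.Ord m (tay p (rev a b F)) →
      (2 : ℂ)⁻¹ • (F + (s : ℂ) • rev a b F) ∈ vanp m p := by
    intro m p h1 h2
    exact Submodule.smul_mem _ _ (Submodule.add_mem _ h1 (Submodule.smul_mem (vanp m p) _ h2))
  have hSec : Sec (Mcl a b c n s) = S a b (s : ℂ) ⊓
      ((⨅ j, vanp (c j) (P0 j)) ⊓ ⨅ i, vanp (up a b s n i).toNat (Y0 i)) := by
    unfold Sec
    rw [spl_ca, spl_cb, if_pos ⟨Int.natCast_nonneg _, Int.natCast_nonneg _⟩,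
      (L_Mcl a b c n hs).2, Int.toNat_natCast, Int.toNat_natCast]
    simp only [spl_cc, spl_cn, Int.toNat_natCast]
  rw [hSec]
  simp only [Submodule.mem_inf, Submodule.mem_iInf]
  refine ⟨hS, fun j => ?_, fun i => ?_⟩
  · refine hvan _ _ (hP0 j) ?_
    have h1 := ord_rev hB (tor_P1 j) (hP1 j)
    have h2 : inv (P1 j) = P0 j := inv_inv' (P0 j)
    rwa [h2] at h1
  · have h1 := ord_rev hB (tor_Y0 i) (hY i)
    rw [inv_Y0] at h1
    have h2 := hvan _ _ (hY i) h1
    unfold up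
    split_ifs with h3
    · rw [Int.toNat_natCast]
      exact h2
    · have h4 : ((n i : ℤ) + 1).toNat = n i + 1 := by omega
      rw [h4]
      rw [mem_vanp] at h2 ⊢
      refine parity hS i h2 ?_
      rw [spl_Y0]
      intro h5
      apply h3
      exact_mod_cast h5

/-- `F = (F + rev F) / 2 + (F - rev F) / 2`; parity (`parity` in `R/Rev`) gives the rounded
multiplicities -/
theorem split (a b : ℕ) (c : Fin 5 → ℕ) (n : Fin 4 → ℕ) :
    (Module.finrank ℂ (V a b c n) : ℤ) ≤ h (Mcl a b c n 1) + h (Mcl a b c n (-1)) := by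
  have hle : V a b c n ≤ Sec (Mcl a b c n 1) ⊔ Sec (Mcl a b c n (-1)) := by
    intro F hF
    have h1 := spl_mem hF (s := 1) (Or.inl rfl)
    have h2 := spl_mem hF (s := -1) (Or.inr rfl)
    have h3 : F = (2 : ℂ)⁻¹ • (F + ((1 : ℤ) : ℂ) • rev a b F) +
        (2 : ℂ)⁻¹ • (F + ((-1 : ℤ) : ℂ) • rev a b F) := by
      have h4 : (2 : ℂ)⁻¹ • F + (2 : ℂ)⁻¹ • F = F := by
        rw [← add_smul]
        norm_num
      conv_lhs => rw [← h4]
      simp only [Int.cast_one, Int.cast_neg, one_smul, neg_smul, smul_add, smul_neg]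
      abel
    rw [h3]
    exact Submodule.add_mem_sup h1 h2
  have h1 := Submodule.finrank_mono hle
  have h2 := Submodule.finrank_add_le_finrank_add_finrank (Sec (Mcl a b c n 1))
    (Sec (Mcl a b c n (-1)))
  unfold h
  exact_mod_cast h1.trans h2

/-- the dimension on the quotient (`4 χ = 4 + B + 2 k`) -/
theorem h_le {M : Cl} (hL : L M) {κ : ℤ} (hκ0 : 0 ≤ κ) (hκ2 : κ ≤ 2) (hk : k M = κ)
    (ha : 0 ≤ ca M) (hb : 0 ≤ cb M) (hc : ∀ j, 0 ≤ cc M j) (hn : ∀ i, 0 ≤ cn M i)
    (hχ : κ = 2 → 4 + B M M + 2 * κ = 0 → ∀ g : ℕ, (g : ℤ) ∣ ca M + 4 → (g : ℤ) ∣ cb M + 4 →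
      (∀ j, (g : ℤ) ∣ cc M j + 2) → (∀ i, (g : ℤ) ∣ cn M i) → g = 1) :
    4 * h M ≤ max 0 (4 + B M M + 2 * κ) := by
  have hBe : B (M + κ • C0) (M + κ • C0) = B M M + 2 * κ ^ 2 := by
    rw [B_add_left, B_add_right, B_add_right, B_smul_left, B_smul_left, B_smul_right,
      B_smul_right, B_C0, B_C0', B_C0, k_C0, hk]
    ring
  rcases lt_or_ge (B (M + κ • C0) (M + κ • C0)) 0 with hneg | hpos
  · rw [h_eq_zero hk hn hneg, mul_zero]
    exact le_max_left _ _
  have hL0 : L (M + κ • C0) := hL.add (L_C0.smul κ)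
  have hk0 : k (M + κ • C0) = 0 := by
    rw [k_add, k_smul, k_C0, hk]
    ring
  have ht0 : t (M + κ • C0) = t M + 4 * κ := by
    rw [t_add, t_smul, t_C0]
    ring
  have htM : 0 ≤ t M := add_nonneg ha hb
  have hn0 : ∀ i, 0 ≤ cn (M + κ • C0) i := by
    intro i
    rw [cn_add, cn_smul, cn_C0, mul_zero, add_zero]
    exact hn i
  refine le_trans ?_ (le_max_right _ _)
  rcases lt_or_ge 0 (t (M + κ • C0)) with ht | ht
  · have h4 := four_dvd hL0 hk0
    have hcase : κ = 0 ∨ κ = 1 ∨ κ = 2 := by omega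
    rcases hpos.lt_or_eq with hB | hB
    · have hB4 : 4 ≤ B (M + κ • C0) (M + κ • C0) := Int.le_of_dvd hB h4
      obtain ⟨m1, m2⟩ := main hL0 hk0 ht hn0 hB4
      rw [hBe] at m1 m2
      rcases hcase with rfl | rfl | rfl
      · rw [zero_smul, add_zero] at m1 m2 ht
        have h5 := cost_period hk.le ht
        linarith
      · rw [one_smul, add_sub_cancel_right] at m1
        linarith
      · have h6 : M + (2 : ℤ) • C0 - C0 - C0 = M := by
          rw [two_smul]
          abel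
        rw [h6] at m2
        linarith
    · have hiso := iso hL0 hk0 ht hn0 hB.symm
      rw [hBe] at hB
      rcases hcase with rfl | rfl | rfl
      · rw [zero_smul, add_zero] at hiso ht
        have h5 := cost_period hk.le ht
        linarith
      · rw [one_smul, add_sub_cancel_right] at hiso
        linarith
      · have h6 : M + (2 : ℤ) • C0 - C0 - C0 = M := by
          rw [two_smul]
          abel
        have h7 := h_iso_two hL0 hk0 ht hn0 (hBe.trans hB.symm) (by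
          intro g g1 g2 g3 g5
          refine hχ rfl (by linarith) g ?_ ?_ ?_ ?_
          · have : ca (M + (2 : ℤ) • C0) = ca M + 4 := by
              rw [ca_add, ca_smul, ca_C0]
              norm_num
            rwa [this] at g1
          · have : cb (M + (2 : ℤ) • C0) = cb M + 4 := by
              rw [cb_add, cb_smul, cb_C0]
              norm_num
            rwa [this] at g2
          · intro j
            have : cc (M + (2 : ℤ) • C0) j = cc M j + 2 := by
              rw [cc_add, cc_smul, cc_C0]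
              norm_num
            have g4 := g3 j
            rwa [this] at g4
          · intro i
            have : cn (M + (2 : ℤ) • C0) i = cn M i := by
              rw [cn_add, cn_smul, cn_C0]
              norm_num
            have g4 := g5 i
            rwa [this] at g4)
        rw [h6] at h7
        linarith
  · have hκ : κ = 0 := by linarith
    subst hκ
    rw [zero_smul, add_zero] at ht hpos
    have h5 : M = 0 := eq_zero_of_t (le_antisymm ht htM) hpos
    rw [h5, h_zero, B_zero]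
    norm_num

/-- the virtual dimension on `ℙ¹ × ℙ¹` -/
def vv (a b : ℕ) (c : Fin 5 → ℕ) (n : Fin 4 → ℕ) : ℤ :=
  ((a : ℤ) + 1) * (b + 1) - 2 * ∑ j, ((c j + 1).choose 2 : ℤ) - ∑ i, ((n i + 1).choose 2 : ℤ)

/-- the difference of the two Euler characteristics, times four -/
def EE (a b : ℕ) (n : Fin 4 → ℕ) : ℤ := ∑ i, ep a b i * (-1) ^ n i * (2 * n i + 1)

private theorem spl_choose (m : ℕ) : 2 * (((m + 1).choose 2 : ℕ) : ℤ) = m * (m + 1) := by
  have h1 : (m + 1).choose 2 * 2 = m * (m + 1) := by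
    rw [Nat.choose_two_right, Nat.add_sub_cancel, Nat.div_mul_cancel, mul_comm]
    rw [mul_comm]
    exact (Nat.even_mul_succ_self m).two_dvd
  have h2 : (((m + 1).choose 2 : ℕ) : ℤ) * 2 = m * (m + 1) := by exact_mod_cast h1
  linarith

theorem chi_add (a b : ℕ) (c : Fin 5 → ℕ) (n : Fin 4 → ℕ) {κ : ℤ}
    (hκ : (a : ℤ) + b = ∑ j, (c j : ℤ) + κ) :
    (4 + B (Mcl a b c n 1) (Mcl a b c n 1) + 2 * κ) +
      (4 + B (Mcl a b c n (-1)) (Mcl a b c n (-1)) + 2 * κ) = 4 * vv a b c n := by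
  have hup : ∀ i, up a b 1 n i * up a b 1 n i + up a b (-1) n i * up a b (-1) n i =
      2 * (2 * (((n i + 1).choose 2 : ℕ) : ℤ)) + 1 := by
    intro i
    rw [spl_choose]
    rcases spl_up_cases a b n i with ⟨h1, h2, -⟩ | ⟨h1, h2, -⟩ <;> rw [h1, h2] <;> ring
  have h0 := hup 0
  have h1 := hup 1
  have h2 := hup 2
  have h3 := hup 3
  have c0 := spl_choose (c 0)
  have c1 := spl_choose (c 1)
  have c2 := spl_choose (c 2)
  have c3 := spl_choose (c 3)
  have c4 := spl_choose (c 4)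
  unfold B vv
  simp only [spl_ca, spl_cb, spl_cc, spl_cn, Fin.sum_univ_five, Fin.sum_univ_four] at hκ ⊢
  linear_combination (-4) * hκ - h0 - h1 - h2 - h3 + 4 * c0 + 4 * c1 + 4 * c2 + 4 * c3 + 4 * c4

theorem chi_sub (a b : ℕ) (c : Fin 5 → ℕ) (n : Fin 4 → ℕ) :
    B (Mcl a b c n 1) (Mcl a b c n 1) - B (Mcl a b c n (-1)) (Mcl a b c n (-1)) = EE a b n := by
  have hup : ∀ i, up a b (-1) n i * up a b (-1) n i - up a b 1 n i * up a b 1 n i =
      ep a b i * (-1) ^ n i * (2 * n i + 1) := by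
    intro i
    rcases spl_up_cases a b n i with ⟨h1, h2, h3⟩ | ⟨h1, h2, h3⟩ <;> rw [h1, h2, h3] <;> ring
  have h0 := hup 0
  have h1 := hup 1
  have h2 := hup 2
  have h3 := hup 3
  unfold B EE
  simp only [spl_ca, spl_cb, spl_cc, spl_cn, Fin.sum_univ_five, Fin.sum_univ_four]
  linear_combination h0 + h1 + h2 + h3

private theorem spl_up_nonneg (a b : ℕ) (s : ℤ) (n : Fin 4 → ℕ) (i : Fin 4) :
    0 ≤ up a b s n i := by
  unfold up
  split_ifs <;> omega

/-- the bound at the special configuration -/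
theorem finrank_V_le (a b : ℕ) (c : Fin 5 → ℕ) (n : Fin 4 → ℕ) {κ : ℕ}
    (hκ : a + b = ∑ j, c j + κ) (hκ2 : κ ≤ 2) (h1 : |EE a b n| ≤ 4 * |vv a b c n|)
    (h2 : κ = 2 → |EE a b n| = 4 * |vv a b c n| → ∀ g : ℕ, g ∣ a + 4 → g ∣ b + 4 →
      (∀ j, g ∣ c j + 2) → (∃ s : ℤ, (s = 1 ∨ s = -1) ∧ ∀ i, (g : ℤ) ∣ up a b s n i) → g = 1) :
    (Module.finrank ℂ (V a b c n) : ℤ) ≤ max (vv a b c n) 0 := by
  have hκ' : (a : ℤ) + b = ∑ j, (c j : ℤ) + (κ : ℤ) := by exact_mod_cast hκ
  have hkM : ∀ s, k (Mcl a b c n s) = (κ : ℤ) := by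
    intro s
    unfold k
    simp only [spl_ca, spl_cb, spl_cc]
    linarith
  have hadd := chi_add a b c n hκ'
  have hsub := chi_sub a b c n
  have hsplit := split a b c n
  set X1 : ℤ := 4 + B (Mcl a b c n 1) (Mcl a b c n 1) + 2 * (κ : ℤ) with hX1
  set X2 : ℤ := 4 + B (Mcl a b c n (-1)) (Mcl a b c n (-1)) + 2 * (κ : ℤ) with hX2
  have hsub' : X1 - X2 = EE a b n := by
    rw [hX1, hX2, ← hsub]
    ring
  have key : ∀ s : ℤ, s = 1 ∨ s = -1 →
      (κ = 2 → 4 + B (Mcl a b c n s) (Mcl a b c n s) + 2 * (κ : ℤ) = 0 →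
        |EE a b n| = 4 * |vv a b c n|) →
      4 * h (Mcl a b c n s) ≤ max 0 (4 + B (Mcl a b c n s) (Mcl a b c n s) + 2 * (κ : ℤ)) := by
    intro s hs hne
    refine h_le (L_Mcl a b c n hs).1 (Int.natCast_nonneg _) (by exact_mod_cast hκ2) (hkM s)
      (Int.natCast_nonneg _) (Int.natCast_nonneg _) (fun j => Int.natCast_nonneg _)
      (fun i => spl_up_nonneg _ _ _ _ _) ?_
    intro h3 h4 g g1 g2 g3 g4
    have h5 : κ = 2 := by exact_mod_cast h3
    rw [spl_ca] at g1
    rw [spl_cb] at g2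
    simp only [spl_cc] at g3
    simp only [spl_cn] at g4
    exact h2 h5 (hne h5 h4) g (by exact_mod_cast g1) (by exact_mod_cast g2)
      (fun j => by exact_mod_cast g3 j) ⟨s, hs, g4⟩
  have h1' : |X1 - X2| ≤ |X1 + X2| := by
    rw [hsub', hadd, abs_mul]
    simpa using h1
  have h2' : |X1 - X2| = |X1 + X2| → |EE a b n| = 4 * |vv a b c n| := by
    rw [hsub', hadd, abs_mul]
    intro h
    simpa using h
  have hn1 : κ = 2 → X1 = 0 → |EE a b n| = 4 * |vv a b c n| := by
    intro _ h0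
    apply h2'
    rw [h0, zero_sub, zero_add, abs_neg]
  have hn2 : κ = 2 → X2 = 0 → |EE a b n| = 4 * |vv a b c n| := by
    intro _ h0
    apply h2'
    rw [h0, sub_zero, add_zero]
  have k1 := key 1 (Or.inl rfl) hn1
  have k2 := key (-1) (Or.inr rfl) hn2
  rw [← hX1] at k1
  rw [← hX2] at k2
  have hmax : max 0 X1 + max 0 X2 ≤ max 0 (X1 + X2) := by
    rcases le_total 0 X1 with p1 | p1 <;> rcases le_total 0 X2 with p2 | p2
    · rw [max_eq_right p1, max_eq_right p2, max_eq_right (add_nonneg p1 p2)]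
    · rw [max_eq_right p1, max_eq_left p2]
      rcases abs_cases (X1 - X2) with ⟨q1, _⟩ | ⟨q1, _⟩ <;>
        rcases abs_cases (X1 + X2) with ⟨q2, _⟩ | ⟨q2, _⟩ <;> rw [q1, q2] at h1'
      · have : X2 = 0 := by linarith
        rw [this]
        simp
      · have : X1 = 0 := by linarith
        rw [this]
        simp
      · have : X2 = 0 := by linarith
        rw [this]
        simp
      · have : X1 = 0 := by linarith
        rw [this]
        simp
    · rw [max_eq_left p1, max_eq_right p2]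
      rcases abs_cases (X1 - X2) with ⟨q1, _⟩ | ⟨q1, _⟩ <;>
        rcases abs_cases (X1 + X2) with ⟨q2, _⟩ | ⟨q2, _⟩ <;> rw [q1, q2] at h1'
      · have : X1 = 0 := by linarith
        rw [this]
        simp
      · have : X2 = 0 := by linarith
        rw [this]
        simp
      · have : X1 = 0 := by linarith
        rw [this]
        simp
      · have : X2 = 0 := by linarith
        rw [this]
        simp
    · rw [max_eq_left p1, max_eq_left p2]
      simp
  rw [hadd] at hmax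
  have hm4 : max 0 (4 * vv a b c n) = 4 * max (vv a b c n) 0 := by
    rw [max_comm (vv a b c n) 0]
    rcases le_total 0 (vv a b c n) with p | p
    · rw [max_eq_right p, max_eq_right (by linarith)]
    · rw [max_eq_left p, max_eq_left (by linarith)]
      simp
  rw [hm4] at hmax
  linarith

/-- outside of the round cone there are no sections -/
theorem finrank_V_zero (a b : ℕ) (c : Fin 5 → ℕ) (n : Fin 4 → ℕ) {κ : ℤ}
    (hκ : (a : ℤ) + b = ∑ j, (c j : ℤ) + κ)
    (h1 : 4 * vv a b c n + |EE a b n| < 8 + 4 * κ - 4 * κ ^ 2) :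
    Module.finrank ℂ (V a b c n) = 0 := by
  have hkM : ∀ s, k (Mcl a b c n s) = κ := by
    intro s
    unfold k
    simp only [spl_ca, spl_cb, spl_cc]
    linarith
  have hadd := chi_add a b c n hκ
  have hsub := chi_sub a b c n
  have hsplit := split a b c n
  have hBe : ∀ s, B (Mcl a b c n s + κ • C0) (Mcl a b c n s + κ • C0) =
      B (Mcl a b c n s) (Mcl a b c n s) + 2 * κ ^ 2 := by
    intro s
    rw [B_add_left, B_add_right, B_add_right, B_smul_left, B_smul_left, B_smul_right,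
      B_smul_right, B_C0, B_C0', B_C0, k_C0, hkM]
    ring
  have key : ∀ s, B (Mcl a b c n s + κ • C0) (Mcl a b c n s + κ • C0) < 0 →
      h (Mcl a b c n s) = 0 := by
    intro s hs
    exact h_eq_zero (hkM s) (fun i => spl_up_nonneg _ _ _ _ _) hs
  have e1 := le_abs_self (EE a b n)
  have e2 := neg_abs_le (EE a b n)
  rw [key 1 (by rw [hBe]; linarith), key (-1) (by rw [hBe]; linarith)] at hsplit
  omega

end Pool.Agent.Lib.MP_6b2d39_ag.Rc
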